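import Pool.Agent.Y325.DD.B6

/-!
# The dichotomy
-/

set_option autoImplicit false
set_option linter.unusedSectionVars false
set_option linter.unnecessarySimpa false

open scoped InnerProductSpace Topology ENNReal ComplexConjugate
open Filter Finset

noncomputable section

namespace Pool.Agent.Y325.DD

variable {H ι : Type} [NormedAddCommGroup H] [InnerProductSpace ℂ H] [CompleteSpace H]
variable {M : Set (H →L[ℂ] H)} {ξ : H}

/-- the trivial case -/
theorem sum_eq_of_trivial (b : HilbertBasis ι ℂ H) (h : Tr M ξ) {m : ℕ}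
    {z : Fin m → (H →L[ℂ] H)} (hz : ∀ k, z k ∈ M)
    (h0 : ∀ T : Fin m → (H →L[ℂ] H), KK M ξ z T → ∀ j, T j = 0) :
    ∑ j : Fin m, ⨅ T : {T : Fin m → (H →L[ℂ] H) // KK M ξ z T}, cost b ξ T.1 j = m := by
  have : Nonempty {T : Fin m → (H →L[ℂ] H) // KK M ξ z T} := ⟨⟨_, KK.zero h hz⟩⟩
  have h1 : ∀ j : Fin m, ⨅ T : {T : Fin m → (H →L[ℂ] H) // KK M ξ z T}, cost b ξ T.1 j = 1 := by
    intro j
    have h2 : ∀ T : {T : Fin m → (H →L[ℂ] H) // KK M ξ z T}, cost b ξ T.1 j = 1 := by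
      intro T
      have : T.1 = fun _ => 0 := funext fun j => h0 T.1 T.2 j
      rw [this]
      exact cost_zero b h.norm_one j
    rw [iInf_congr h2, ciInf_const]
  rw [Finset.sum_congr rfl fun j _ => h1 j]
  simp

theorem main_aux (b : HilbertBasis ι ℂ H) (h : Tr M ξ) {n : ℕ} {y ρ : Fin n → (H →L[ℂ] H)}
    (hy : ∀ k, y k ∈ M) (hρ : ∀ k, ρ k ∈ Set.centralizer M ∧ ρ k ξ = y k ξ)
    (hρs : ∀ k, star (ρ k) = ρ k)
    (hfull : ∑ j : Fin n, ⨅ T : {T : Fin n → (H →L[ℂ] H) // KK M ξ y T}, cost b ξ T.1 j = n)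
    {m : ℕ} {z r : Fin m → (H →L[ℂ] H)} (hz : ∀ k, z k ∈ M)
    (hr : ∀ k, r k ∈ Set.centralizer M ∧ r k ξ = z k ξ) (hrs : ∀ k, star (r k) = r k)
    (hra : ∀ j, r j ∈ Algebra.adjoin ℂ (Set.range ρ)) :
    (∑ j : Fin m, ⨅ T : {T : Fin m → (H →L[ℂ] H) // KK M ξ z T}, cost b ξ T.1 j ≤ (m : ℝ) - 1) ∨
    (∑ j : Fin m, ⨅ T : {T : Fin m → (H →L[ℂ] H) // KK M ξ z T}, cost b ξ T.1 j = m) := by
  have hI : Inj ρ := Inj_of_full b h hy hfull hρ
  by_cases h0 : ∀ T : Fin m → (H →L[ℂ] H), KK M ξ z T → ∀ j, T j = 0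
  · exact Or.inr (sum_eq_of_trivial b h hz h0)
  · left
    push Not at h0
    obtain ⟨T, ⟨hT, r', hr', hcom⟩, j0, hj0⟩ := h0
    have hrr : r' = r := funext fun k => sep h.tv (hr' k).1 (hr k).1 ((hr' k).2.trans (hr k).2.symm)
    rw [hrr] at hcom
    obtain ⟨N, L, _, _, q, hcard, hinj, tW, htW, hne⟩ :=
      data_exists h.tv (fun k => (hρ k).1) hI hrs hra hT hcom ⟨j0, hj0⟩
    have P : Pk M ξ ρ r q :=
      { tr := h
        rho := fun k => (hρ k).1
        rho_sa := hρs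
        inj := hI
        r_ad := hra
        r_cent := fun k => (hr k).1
        r_sa := hrs
        card := hcard
        q_inj := hinj }
    have hdim := P.KB_dim b (tW := tW) (mem_KW.2 htW) hne
    -- elements of the span are solutions
    have hKB : ∀ x ∈ KB b ρ r q, (∀ j, FR (op b (x j))) ∧
        ∑ j, (op b (x j) * r j - r j * op b (x j)) = 0 := by
      intro x hx
      unfold KB at hx
      induction hx using Submodule.span_induction with
      | mem x hx =>
        obtain ⟨t, ht, g, hg, rfl⟩ := hx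
        have h1 := KK_bet (M := M) (ξ := ξ) (z := z) hrs hr (ht g hg)
        refine ⟨fun j => ?_, ?_⟩
        · rw [op_bt]; exact h1.1 j
        · have h2 := ht g hg
          rw [com_eq hrs] at h2
          simp only [op_bt]
          exact h2
      | zero =>
        refine ⟨fun j => ?_, ?_⟩
        · rw [PiLp.zero_apply, op_zero]; exact FR.zero
        · refine Finset.sum_eq_zero fun j _ => ?_
          rw [PiLp.zero_apply, op_zero, zero_mul, mul_zero, sub_zero]
      | add x y _ _ hx hy =>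
        refine ⟨fun j => ?_, ?_⟩
        · rw [PiLp.add_apply, op_add]; exact (hx.1 j).add (hy.1 j)
        · have h1 : ∀ j, op b ((x + y) j) * r j - r j * op b ((x + y) j)
              = (op b (x j) * r j - r j * op b (x j)) + (op b (y j) * r j - r j * op b (y j)) := by
            intro j
            rw [PiLp.add_apply, op_add, add_mul, mul_add]
            abel
          rw [Finset.sum_congr rfl fun j _ => h1 j, Finset.sum_add_distrib, hx.2, hy.2, add_zero]
      | smul c x _ hx =>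
        refine ⟨fun j => ?_, ?_⟩
        · rw [PiLp.smul_apply, op_smul]; exact FR.smul c (hx.1 j)
        · have h1 : ∀ j, op b ((c • x) j) * r j - r j * op b ((c • x) j)
              = c • (op b (x j) * r j - r j * op b (x j)) := by
            intro j
            rw [PiLp.smul_apply, op_smul, smul_mul_assoc, mul_smul_comm, smul_sub]
          rw [Finset.sum_congr rfl fun j _ => h1 j, ← Finset.smul_sum, hx.2, smul_zero]
    have hbound : ∀ j : Fin m, ⨅ T : {T : Fin m → (H →L[ℂ] H) // KK M ξ z T}, cost b ξ T.1 j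
        ≤ 1 - ‖PP (KB b ρ r q) (inc j (th b ξ ξ))‖ ^ 2 := by
      intro j
      have h1 : ∀ x ∈ KB b ρ r q, ⨅ T : {T : Fin m → (H →L[ℂ] H) // KK M ξ z T}, cost b ξ T.1 j
          ≤ ‖x - inc j (th b ξ ξ)‖ ^ 2 := by
        intro x hx
        rw [← cost_eq b ξ (fun k => op b (x k)) j x (fun k => rfl)]
        exact inf_le b ⟨(hKB x hx).1, r, hr, (hKB x hx).2⟩ j
      have hcl : IsClosed {x : Md (HS H ι) (Fin m) |
          ⨅ T : {T : Fin m → (H →L[ℂ] H) // KK M ξ z T}, cost b ξ T.1 j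
            ≤ ‖x - inc j (th b ξ ξ)‖ ^ 2} := isClosed_le (by fun_prop) (by fun_prop)
      have h2 : ⨅ T : {T : Fin m → (H →L[ℂ] H) // KK M ξ z T}, cost b ξ T.1 j
          ≤ ‖PP (KB b ρ r q) (inc j (th b ξ ξ)) - inc j (th b ξ ξ)‖ ^ 2 :=
        hcl.closure_subset_iff.2 (fun x hx => h1 x hx) (PP_mem (KB b ρ r q) (inc j (th b ξ ξ)))
      have h3 := PP_pyth (KB b ρ r q) (inc j (th b ξ ξ))
      rw [norm_inc, th_norm, h.norm_one, norm_sub_rev] at h3
      rw [show (1 : ℝ) = (1 * 1) ^ 2 by norm_num, h3]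
      linarith
    calc ∑ j : Fin m, ⨅ T : {T : Fin m → (H →L[ℂ] H) // KK M ξ z T}, cost b ξ T.1 j
        ≤ ∑ j : Fin m, (1 - ‖PP (KB b ρ r q) (inc j (th b ξ ξ))‖ ^ 2) :=
          Finset.sum_le_sum fun j _ => hbound j
      _ = m - dm (th b ξ ξ) (KB b ρ r q) := by
          rw [Finset.sum_sub_distrib]
          unfold dm
          simp
      _ ≤ (m : ℝ) - 1 := by linarith

theorem main_thm (b : HilbertBasis ι ℂ H) {n : ℕ} {y : Fin n → (H →L[ℂ] H)}
    (hy : ∀ i, IsSelfAdjoint (y i)) (hM : M = Set.centralizer (Set.centralizer (Set.range y)))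
    (hξ : ‖ξ‖ = 1) (hd : Dense ((fun x : H →L[ℂ] H => x ξ) '' M))
    (htr : ∀ a ∈ M, ∀ c ∈ M, ⟪(a * c) ξ, ξ⟫_ℂ = ⟪(c * a) ξ, ξ⟫_ℂ)
    (hfull : ∑ j : Fin n, ⨅ T : {T : Fin n → (H →L[ℂ] H) // KK M ξ y T}, cost b ξ T.1 j = n)
    {m : ℕ} (P : Fin m → FreeAlgebra ℂ (Fin n))
    (hP : ∀ j, IsSelfAdjoint (FreeAlgebra.lift ℂ y (P j))) :
    (∑ j : Fin m, ⨅ T : {T : Fin m → (H →L[ℂ] H) //
      KK M ξ (fun j => FreeAlgebra.lift ℂ y (P j)) T}, cost b ξ T.1 j ≤ (m : ℝ) - 1) ∨
    (∑ j : Fin m, ⨅ T : {T : Fin m → (H →L[ℂ] H) //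
      KK M ξ (fun j => FreeAlgebra.lift ℂ y (P j)) T}, cost b ξ T.1 j = m) := by
  have hstar1 : ∀ a ∈ Set.range y, star a ∈ Set.range y := by
    rintro _ ⟨i, rfl⟩
    exact ⟨i, (hy i).star_eq.symm⟩
  have hstar2 : ∀ a ∈ Set.centralizer (Set.range y), star a ∈ Set.centralizer (Set.range y) :=
    fun a ha => Set.star_mem_centralizer' (fun a ha => hstar1 a ha) ha
  have h : Tr M ξ :=
    { dc := by rw [hM, Set.centralizer_centralizer_centralizer]
      star_mem := by
        intro a ha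
        rw [hM] at ha ⊢
        exact Set.star_mem_centralizer' (fun a ha => hstar2 a ha) ha
      norm_one := hξ
      dense := hd
      tr := htr }
  have hyM : ∀ k, y k ∈ M := by
    intro k
    rw [hM]
    exact Set.subset_centralizer_centralizer ⟨k, rfl⟩
  choose ρ hρ using fun k => h.rho_exists (hyM k)
  choose hzM r hra hrc hrξ using fun j => poly_lift h hyM hρ (P j)
  exact main_aux b h hyM hρ
    (fun k => h.rho_sa (hyM k) (hy k).star_eq (hρ k).1 (hρ k).2) hfull hzM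
    (fun k => ⟨hrc k, hrξ k⟩)
    (fun k => h.rho_sa (hzM k) (hP k).star_eq (hrc k) (hrξ k)) hra

end Pool.Agent.Y325.DD
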