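import Mathlib

/-!
# Dimension of closed invariant subspaces relative to a trace vector
-/

set_option autoImplicit false
set_option linter.unusedSectionVars false

open scoped InnerProductSpace Topology
open Filter Finset

noncomputable section

namespace Pool.Agent.Y325.DD

variable {V : Type*} [NormedAddCommGroup V] [InnerProductSpace ℂ V] [CompleteSpace V]

/-- finite direct sums of copies of a Hilbert space -/
abbrev Md (V : Type*) (κ : Type*) := PiLp 2 (fun _ : κ => V)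

section md

variable {κ σ ν : Type*} [Fintype κ] [Fintype σ] [Fintype ν]

def pr (b : κ) : Md V κ →L[ℂ] V := PiLp.proj 2 (fun _ : κ => V) b

theorem pr_apply (b : κ) (x : Md V κ) : pr b x = x b := rfl

def inc (b : κ) : V →L[ℂ] Md V κ := ContinuousLinearMap.adjoint (pr b)

theorem inner_inc_left (b : κ) (v : V) (x : Md V κ) : ⟪inc b v, x⟫_ℂ = ⟪v, x b⟫_ℂ := by
  unfold inc
  rw [ContinuousLinearMap.adjoint_inner_left]
  rfl

theorem inner_inc_right (b : κ) (v : V) (x : Md V κ) : ⟪x, inc b v⟫_ℂ = ⟪x b, v⟫_ℂ := by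
  unfold inc
  rw [ContinuousLinearMap.adjoint_inner_right]
  rfl

theorem md_ext {x y : Md V κ} (h : ∀ b, x b = y b) : x = y := PiLp.ext h

theorem md_inner (x y : Md V κ) : ⟪x, y⟫_ℂ = ∑ b, ⟪x b, y b⟫_ℂ := PiLp.inner_apply x y

open Classical in
theorem inc_apply (b : κ) (v : V) (a : κ) : inc b v a = if a = b then v else 0 := by
  have h : inc b v = PiLp.single 2 (β := fun _ : κ => V) b v := by
    refine ext_inner_right ℂ fun x => ?_
    rw [inner_inc_left, md_inner, Finset.sum_eq_single b]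
    · rw [PiLp.single_eq_same]
    · intro c _ hc
      rw [PiLp.single_eq_of_ne _ hc, inner_zero_left]
    · intro h; exact absurd (Finset.mem_univ _) h
  rw [h]
  split_ifs with h1
  · subst h1; rw [PiLp.single_eq_same]
  · rw [PiLp.single_eq_of_ne _ h1]

theorem norm_inc (b : κ) (v : V) : ‖(inc b v : Md V κ)‖ = ‖v‖ := by
  have h : ⟪(inc b v : Md V κ), inc b v⟫_ℂ = ⟪v, v⟫_ℂ := by
    classical
    rw [inner_inc_left, inc_apply, if_pos rfl]
  have h2 := congrArg Complex.re h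
  have e1 : (⟪(inc b v : Md V κ), inc b v⟫_ℂ).re = ‖(inc b v : Md V κ)‖ ^ 2 := by
    have := inner_self_eq_norm_sq (𝕜 := ℂ) (inc b v : Md V κ)
    simpa using this
  have e2 : (⟪v, v⟫_ℂ).re = ‖v‖ ^ 2 := by
    have := inner_self_eq_norm_sq (𝕜 := ℂ) v
    simpa using this
  rw [e1, e2] at h2
  exact (sq_eq_sq₀ (norm_nonneg _) (norm_nonneg _)).1 h2

theorem md_decomp (x : Md V κ) : x = ∑ b, inc b (x b) := by
  classical
  apply md_ext
  intro a
  have : (∑ b, inc b (x b) : Md V κ) a = ∑ b, (inc b (x b) : Md V κ) a := by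
    rw [← pr_apply, map_sum]; rfl
  rw [this]
  simp only [inc_apply]
  rw [Finset.sum_ite_eq]
  simp

/-- matrix operators -/
def mt (A : σ → κ → (V →L[ℂ] V)) : Md V κ →L[ℂ] Md V σ :=
  ∑ a, ∑ b, (inc a).comp ((A a b).comp (pr b))

theorem md_sum_apply {τ : Type*} (s : Finset τ) (f : τ → Md V κ) (a : κ) :
    (∑ i ∈ s, f i) a = ∑ i ∈ s, f i a := by
  rw [← pr_apply, map_sum]; rfl

theorem mt_apply (A : σ → κ → (V →L[ℂ] V)) (x : Md V κ) (a : σ) :
    mt A x a = ∑ b, A a b (x b) := by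
  classical
  unfold mt
  simp only [_root_.sum_apply, md_sum_apply, ContinuousLinearMap.comp_apply,
    inc_apply, pr_apply]
  rw [Finset.sum_eq_single a]
  · simp
  · intro c _ hc
    simp [Ne.symm hc]
  · intro h; exact absurd (Finset.mem_univ _) h

/-- entries of an operator -/
def en (T : Md V κ →L[ℂ] Md V σ) (a : σ) (b : κ) : V →L[ℂ] V := (pr a).comp (T.comp (inc b))

theorem en_apply (T : Md V κ →L[ℂ] Md V σ) (a : σ) (b : κ) (v : V) :
    en T a b v = T (inc b v) a := rfl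

theorem mt_en (T : Md V κ →L[ℂ] Md V σ) : mt (en T) = T := by
  ext1 x
  apply md_ext
  intro a
  rw [mt_apply]
  conv_rhs => rw [md_decomp x, map_sum, md_sum_apply]
  rfl

theorem en_mt (A : σ → κ → (V →L[ℂ] V)) (a : σ) (b : κ) : en (mt A) a b = A a b := by
  classical
  ext1 v
  rw [en_apply, mt_apply, Finset.sum_eq_single b]
  · rw [inc_apply, if_pos rfl]
  · intro c _ hc
    rw [inc_apply, if_neg hc, map_zero]
  · intro h; exact absurd (Finset.mem_univ _) h

theorem mt_adjoint (A : σ → κ → (V →L[ℂ] V)) :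
    ContinuousLinearMap.adjoint (mt A) = mt (fun b a => ContinuousLinearMap.adjoint (A a b)) := by
  symm
  rw [ContinuousLinearMap.eq_adjoint_iff]
  intro x y
  rw [md_inner, md_inner]
  simp only [mt_apply, sum_inner, inner_sum, ContinuousLinearMap.adjoint_inner_left]
  rw [Finset.sum_comm]

theorem en_adjoint (T : Md V κ →L[ℂ] Md V σ) (a : σ) (b : κ) :
    en (ContinuousLinearMap.adjoint T) b a = ContinuousLinearMap.adjoint (en T a b) := by
  conv_lhs => rw [← mt_en T, mt_adjoint]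
  rw [en_mt]

theorem en_comp (S : Md V σ →L[ℂ] Md V ν) (T : Md V κ →L[ℂ] Md V σ) (a : ν) (b : κ) :
    en (S.comp T) a b = ∑ c, (en S a c).comp (en T c b) := by
  ext1 v
  rw [en_apply, ContinuousLinearMap.comp_apply]
  conv_lhs => rw [← mt_en S, mt_apply]
  rw [_root_.sum_apply]
  rfl

/-- diagonal action -/
def dg (x : V →L[ℂ] V) : Md V κ →L[ℂ] Md V κ := ∑ b, (inc b).comp (x.comp (pr b))

theorem dg_apply (x : V →L[ℂ] V) (v : Md V κ) (b : κ) : dg x v b = x (v b) := by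
  classical
  unfold dg
  simp only [_root_.sum_apply, md_sum_apply, ContinuousLinearMap.comp_apply,
    inc_apply, pr_apply]
  rw [Finset.sum_eq_single b]
  · simp
  · intro c _ hc
    simp [Ne.symm hc]
  · intro h; exact absurd (Finset.mem_univ _) h

theorem dg_inc (x : V →L[ℂ] V) (b : κ) (v : V) : dg x (inc b v : Md V κ) = inc b (x v) := by
  classical
  apply md_ext
  intro a
  rw [dg_apply, inc_apply, inc_apply]
  split_ifs
  · rfl
  · exact map_zero x

theorem dg_adjoint (x : V →L[ℂ] V) :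
    ContinuousLinearMap.adjoint (dg x : Md V κ →L[ℂ] Md V κ)
      = dg (ContinuousLinearMap.adjoint x) := by
  symm
  rw [ContinuousLinearMap.eq_adjoint_iff]
  intro u v
  rw [md_inner, md_inner]
  simp only [dg_apply, ContinuousLinearMap.adjoint_inner_left]

end md

/-- a set of operators with a trace vector -/
structure TV (𝓐 : Set (V →L[ℂ] V)) (Ω : V) : Prop where
  dense : Dense ((fun a : V →L[ℂ] V => a Ω) '' 𝓐)
  star_mem : ∀ a ∈ 𝓐, star a ∈ 𝓐
  norm_star : ∀ a ∈ 𝓐, ‖(star a) Ω‖ = ‖a Ω‖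
  norm_one : ‖Ω‖ = 1

section tv

variable {𝓐 : Set (V →L[ℂ] V)} {Ω : V}

theorem cent_comm {x a : V →L[ℂ] V} (hx : x ∈ Set.centralizer 𝓐) (ha : a ∈ 𝓐) (v : V) :
    x (a v) = a (x v) := by
  have h := (Set.mem_centralizer_iff.1 hx) a ha
  have := congrArg (fun f : V →L[ℂ] V => f v) h
  exact this.symm

theorem TV.star_cent (h : TV 𝓐 Ω) {x : V →L[ℂ] V} (hx : x ∈ Set.centralizer 𝓐) :
    star x ∈ Set.centralizer 𝓐 := by
  rw [Set.mem_centralizer_iff] at hx ⊢
  intro a ha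
  have := congrArg star (hx (star a) (h.star_mem a ha))
  rw [star_mul, star_mul, star_star] at this
  exact this.symm

theorem TV.norm_le (h : TV 𝓐 Ω) {x : V →L[ℂ] V} (hx : x ∈ Set.centralizer 𝓐) :
    ‖(star x) Ω‖ ≤ ‖x Ω‖ := by
  have key : ∀ v : V, ‖⟪(star x) Ω, v⟫_ℂ‖ ≤ ‖v‖ * ‖x Ω‖ := by
    have hc : IsClosed {v : V | ‖⟪(star x) Ω, v⟫_ℂ‖ ≤ ‖v‖ * ‖x Ω‖} :=
      isClosed_le (by fun_prop) (by fun_prop)
    intro v
    have : v ∈ closure ((fun a : V →L[ℂ] V => a Ω) '' 𝓐) := h.dense v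
    refine hc.closure_subset_iff.2 ?_ this
    rintro _ ⟨a, ha, rfl⟩
    change ‖⟪(star x) Ω, a Ω⟫_ℂ‖ ≤ ‖a Ω‖ * ‖x Ω‖
    rw [ContinuousLinearMap.star_eq_adjoint, ContinuousLinearMap.adjoint_inner_left,
      cent_comm hx ha, ← ContinuousLinearMap.adjoint_inner_left,
      ← ContinuousLinearMap.star_eq_adjoint, ← h.norm_star a ha]
    exact norm_inner_le_norm _ _
  have h1 := key ((star x) Ω)
  have h2 : ‖⟪(star x) Ω, (star x) Ω⟫_ℂ‖ = ‖(star x) Ω‖ * ‖(star x) Ω‖ := by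
    rw [inner_self_eq_norm_sq_to_K]
    simp [sq]
  rw [h2] at h1
  by_cases h0 : ‖(star x) Ω‖ = 0
  · rw [h0]; exact norm_nonneg _
  · have hpos : 0 < ‖(star x) Ω‖ := lt_of_le_of_ne (norm_nonneg _) (Ne.symm h0)
    exact le_of_mul_le_mul_left h1 hpos

theorem TV.norm_eq (h : TV 𝓐 Ω) {x : V →L[ℂ] V} (hx : x ∈ Set.centralizer 𝓐) :
    ‖(star x) Ω‖ = ‖x Ω‖ := by
  apply le_antisymm (h.norm_le hx)
  have := h.norm_le (h.star_cent hx)
  rwa [star_star] at this

theorem cent_add {x y : V →L[ℂ] V} (hx : x ∈ Set.centralizer 𝓐) (hy : y ∈ Set.centralizer 𝓐) :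
    x + y ∈ Set.centralizer 𝓐 := Set.add_mem_centralizer hx hy

theorem cent_smul {x : V →L[ℂ] V} (c : ℂ) (hx : x ∈ Set.centralizer 𝓐) :
    c • x ∈ Set.centralizer 𝓐 := by
  rw [Set.mem_centralizer_iff] at hx ⊢
  intro a ha
  rw [mul_smul_comm, smul_mul_assoc, hx a ha]

theorem cent_neg {x : V →L[ℂ] V} (hx : x ∈ Set.centralizer 𝓐) :
    -x ∈ Set.centralizer 𝓐 := Set.neg_mem_centralizer hx

theorem cent_sub {x y : V →L[ℂ] V} (hx : x ∈ Set.centralizer 𝓐) (hy : y ∈ Set.centralizer 𝓐) :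
    x - y ∈ Set.centralizer 𝓐 := by
  rw [sub_eq_add_neg]; exact cent_add hx (cent_neg hy)

theorem cent_mul {x y : V →L[ℂ] V} (hx : x ∈ Set.centralizer 𝓐) (hy : y ∈ Set.centralizer 𝓐) :
    x * y ∈ Set.centralizer 𝓐 := Set.mul_mem_centralizer hx hy

theorem cent_zero : (0 : V →L[ℂ] V) ∈ Set.centralizer 𝓐 := Set.zero_mem_centralizer

theorem cent_one : (1 : V →L[ℂ] V) ∈ Set.centralizer 𝓐 := Set.one_mem_centralizer

theorem cent_sum {τ : Type*} (s : Finset τ) (f : τ → (V →L[ℂ] V))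
    (hf : ∀ i ∈ s, f i ∈ Set.centralizer 𝓐) : ∑ i ∈ s, f i ∈ Set.centralizer 𝓐 := by
  classical
  induction s using Finset.induction_on with
  | empty => simpa using cent_zero
  | insert a s ha ih =>
    rw [Finset.sum_insert ha]
    exact cent_add (hf a (Finset.mem_insert_self a s))
      (ih fun i hi => hf i (Finset.mem_insert_of_mem hi))

theorem TV.inner_swap (h : TV 𝓐 Ω) {x y : V →L[ℂ] V} (hx : x ∈ Set.centralizer 𝓐)
    (hy : y ∈ Set.centralizer 𝓐) : ⟪x Ω, y Ω⟫_ℂ = ⟪(star y) Ω, (star x) Ω⟫_ℂ := by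
  rw [inner_eq_sum_norm_sq_div_four (x Ω) (y Ω),
    inner_eq_sum_norm_sq_div_four ((star y) Ω) ((star x) Ω)]
  have e1 : ‖x Ω + y Ω‖ = ‖(star y) Ω + (star x) Ω‖ := by
    have := h.norm_eq (cent_add hx hy)
    rw [star_add] at this
    rw [add_comm ((star y) Ω)]
    exact this.symm
  have e2 : ‖x Ω - y Ω‖ = ‖(star y) Ω - (star x) Ω‖ := by
    have := h.norm_eq (cent_sub hx hy)
    rw [star_sub] at this
    rw [norm_sub_rev ((star y) Ω)]
    exact this.symm
  have e3 : ‖x Ω - (RCLike.I : ℂ) • y Ω‖ = ‖(star y) Ω - (RCLike.I : ℂ) • (star x) Ω‖ := by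
    have := h.norm_eq (cent_add hy (cent_smul (RCLike.I : ℂ) hx))
    rw [star_add, star_smul] at this
    have hI : (RCLike.I : ℂ) = Complex.I := rfl
    rw [hI] at this ⊢
    rw [Complex.star_def, Complex.conj_I] at this
    have l1 : ((star y) + (-Complex.I) • (star x)) Ω = (star y) Ω - Complex.I • (star x) Ω := by
      change (star y) Ω + (-Complex.I) • (star x) Ω = _
      rw [neg_smul, sub_eq_add_neg]
    rw [l1] at this
    rw [this]
    have l2 : (y + Complex.I • x) Ω = Complex.I • (x Ω - Complex.I • y Ω) := by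
      change y Ω + Complex.I • x Ω = _
      rw [smul_sub, smul_smul, Complex.I_mul_I, neg_one_smul]
      abel
    rw [l2, norm_smul, Complex.norm_I, one_mul]
  have e4 : ‖x Ω + (RCLike.I : ℂ) • y Ω‖ = ‖(star y) Ω + (RCLike.I : ℂ) • (star x) Ω‖ := by
    have := h.norm_eq (cent_sub hy (cent_smul (RCLike.I : ℂ) hx))
    rw [star_sub, star_smul] at this
    have hI : (RCLike.I : ℂ) = Complex.I := rfl
    rw [hI] at this ⊢
    rw [Complex.star_def, Complex.conj_I] at this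
    have l1 : ((star y) - (-Complex.I) • (star x)) Ω = (star y) Ω + Complex.I • (star x) Ω := by
      change (star y) Ω - (-Complex.I) • (star x) Ω = _
      rw [neg_smul, sub_neg_eq_add]
    rw [l1] at this
    rw [this]
    have l2 : (y - Complex.I • x) Ω = (-Complex.I) • (x Ω + Complex.I • y Ω) := by
      change y Ω - Complex.I • x Ω = _
      rw [smul_add, smul_smul, neg_mul, Complex.I_mul_I, neg_neg, one_smul, neg_smul]
      abel
    rw [l2, norm_smul, norm_neg, Complex.norm_I, one_mul]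
  rw [e1, e2, e3, e4]

theorem TV.trace (h : TV 𝓐 Ω) {x y : V →L[ℂ] V} (hx : x ∈ Set.centralizer 𝓐)
    (hy : y ∈ Set.centralizer 𝓐) : ⟪(x * y) Ω, Ω⟫_ℂ = ⟪(y * x) Ω, Ω⟫_ℂ := by
  have h1 := h.inner_swap hy (h.star_cent hx)
  rw [star_star] at h1
  have e1 : ⟪(x * y) Ω, Ω⟫_ℂ = ⟪y Ω, (star x) Ω⟫_ℂ := by
    rw [ContinuousLinearMap.star_eq_adjoint, ContinuousLinearMap.adjoint_inner_right]
    rfl
  have e2 : ⟪(y * x) Ω, Ω⟫_ℂ = ⟪x Ω, (star y) Ω⟫_ℂ := by
    rw [ContinuousLinearMap.star_eq_adjoint, ContinuousLinearMap.adjoint_inner_right]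
    rfl
  rw [e1, e2, h1]

end tv

end Pool.Agent.Y325.DD
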