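import Pool.Agent.Y325.DD.A1

/-!
# Relative dimension: index theorem and rank-nullity
-/

set_option autoImplicit false
set_option linter.unusedSectionVars false
set_option linter.unnecessarySimpa false

open scoped InnerProductSpace Topology
open Filter Finset

noncomputable section

namespace Pool.Agent.Y325.DD

section pp

variable {W : Type*} [NormedAddCommGroup W] [InnerProductSpace ℂ W] [CompleteSpace W]

/-- orthogonal projection onto the closure of a subspace -/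
def PP (E : Submodule ℂ W) : W →L[ℂ] W := E.topologicalClosure.starProjection

theorem PP_mem (E : Submodule ℂ W) (v : W) : PP E v ∈ E.topologicalClosure :=
  Submodule.starProjection_apply_mem _ _

theorem PP_mem_of_closed {E : Submodule ℂ W} (hE : IsClosed (E : Set W)) (v : W) : PP E v ∈ E := by
  have := PP_mem E v
  rwa [hE.submodule_topologicalClosure_eq] at this

theorem PP_inner (E : Submodule ℂ W) (v : W) {w : W} (hw : w ∈ E.topologicalClosure) :
    ⟪v - PP E v, w⟫_ℂ = 0 := Submodule.starProjection_inner_eq_zero _ _ hw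

theorem PP_eq {E : Submodule ℂ W} {v w : W} (hw : w ∈ E.topologicalClosure)
    (h : ∀ u ∈ E, ⟪v - w, u⟫_ℂ = 0) : PP E v = w := by
  apply Submodule.eq_starProjection_of_mem_of_inner_eq_zero hw
  intro u hu
  have hc : IsClosed {u : W | ⟪v - w, u⟫_ℂ = 0} := isClosed_eq (by fun_prop) (by fun_prop)
  exact hc.closure_subset_iff.2 (fun u hu => h u hu) hu

theorem PP_self {E : Submodule ℂ W} {v : W} (hv : v ∈ E.topologicalClosure) : PP E v = v :=
  PP_eq hv (by intro u _; rw [sub_self, inner_zero_left])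

theorem PP_eq_zero {E : Submodule ℂ W} {v : W} (h : ∀ u ∈ E, ⟪v, u⟫_ℂ = 0) : PP E v = 0 :=
  PP_eq (Submodule.zero_mem _) (by intro u hu; rw [sub_zero]; exact h u hu)

theorem PP_symm (E : Submodule ℂ W) (v w : W) : ⟪PP E v, w⟫_ℂ = ⟪v, PP E w⟫_ℂ := by
  have h1 := PP_inner E v (PP_mem E w)
  have h2 := PP_inner E w (PP_mem E v)
  rw [inner_sub_left, sub_eq_zero] at h1 h2
  rw [h1]
  have h3 := congrArg (starRingEnd ℂ) h2
  rw [inner_conj_symm, inner_conj_symm] at h3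
  exact h3

theorem PP_adjoint (E : Submodule ℂ W) : ContinuousLinearMap.adjoint (PP E) = PP E := by
  symm
  rw [ContinuousLinearMap.eq_adjoint_iff]
  exact PP_symm E

theorem PP_idem (E : Submodule ℂ W) (v : W) : PP E (PP E v) = PP E v := PP_self (PP_mem E v)

theorem PP_re (E : Submodule ℂ W) (v : W) : (⟪PP E v, v⟫_ℂ).re = ‖PP E v‖ ^ 2 := by
  rw [← PP_idem, PP_symm]
  have := inner_self_eq_norm_sq (𝕜 := ℂ) (PP E v)
  simpa [PP_idem] using this

theorem PP_pyth (E : Submodule ℂ W) (v : W) : ‖v‖ ^ 2 = ‖PP E v‖ ^ 2 + ‖v - PP E v‖ ^ 2 := by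
  have h := norm_add_sq_eq_norm_sq_add_norm_sq_of_inner_eq_zero (PP E v) (v - PP E v) (𝕜 := ℂ) ?_
  · rw [add_sub_cancel] at h
    simpa [sq] using h
  · have := PP_inner E v (PP_mem E v)
    rw [← inner_conj_symm, this, map_zero]

theorem PP_norm_le (E : Submodule ℂ W) (v : W) : ‖PP E v‖ ≤ ‖v‖ := by
  have := PP_pyth E v
  nlinarith [norm_nonneg v, norm_nonneg (PP E v), sq_nonneg ‖v - PP E v‖,
    abs_le_of_sq_le_sq' (show ‖PP E v‖ ^ 2 ≤ ‖v‖ ^ 2 by nlinarith [sq_nonneg ‖v - PP E v‖]) (norm_nonneg v)]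

theorem PP_orth (E : Submodule ℂ W) (v : W) : PP Eᗮ v = v - PP E v := by
  apply PP_eq
  · apply Submodule.le_topologicalClosure
    intro u hu
    rw [← inner_conj_symm, PP_inner E v (Submodule.le_topologicalClosure _ hu), map_zero]
  · intro u hu
    rw [sub_sub_cancel]
    have hc : IsClosed {w : W | ⟪w, u⟫_ℂ = 0} := isClosed_eq (by fun_prop) (by fun_prop)
    exact hc.closure_subset_iff.2 (fun w hw => hu w hw) (PP_mem E v)

theorem mem_orth_orth {E : Submodule ℂ W} (hE : IsClosed (E : Set W)) {v : W}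
    (h : v ∈ Eᗮᗮ) : v ∈ E := by
  rw [Submodule.orthogonal_orthogonal_eq_closure, hE.submodule_topologicalClosure_eq] at h
  exact h

theorem PP_mono {E F : Submodule ℂ W} (h : E ≤ F) (v : W) :
    ‖PP F v‖ ^ 2 = ‖PP E v‖ ^ 2 + ‖PP F v - PP E v‖ ^ 2 := by
  have h1 : PP E (PP F v) = PP E v := by
    apply PP_eq (PP_mem E v)
    intro u hu
    have e1 := PP_inner F v (Submodule.le_topologicalClosure _ (h hu))
    have e2 := PP_inner E v (Submodule.le_topologicalClosure _ hu)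
    have : PP F v - PP E v = (v - PP E v) - (v - PP F v) := by abel
    rw [this, inner_sub_left, e1, e2, sub_zero]
  have := PP_pyth E (PP F v)
  rwa [h1] at this

theorem closure_eq_of_PP {E F : Submodule ℂ W} (h : PP E = PP F) :
    E.topologicalClosure = F.topologicalClosure := by
  apply le_antisymm
  · intro v hv
    rw [← PP_self hv, h]; exact PP_mem F v
  · intro v hv
    rw [← PP_self hv, ← h]; exact PP_mem E v

end pp

variable {V : Type*} [NormedAddCommGroup V] [InnerProductSpace ℂ V] [CompleteSpace V]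

section lin

variable {κ σ ν : Type*} [Fintype κ] [Fintype σ] [Fintype ν]
variable {𝓐 : Set (V →L[ℂ] V)} {Ω : V}

/-- commuting with the diagonal action -/
def Lin (𝓐 : Set (V →L[ℂ] V)) (T : Md V κ →L[ℂ] Md V σ) : Prop :=
  ∀ a ∈ 𝓐, ∀ x, T (dg a x) = dg a (T x)

theorem lin_en {T : Md V κ →L[ℂ] Md V σ} (hT : Lin 𝓐 T) (a : σ) (b : κ) :
    en T a b ∈ Set.centralizer 𝓐 := by
  rw [Set.mem_centralizer_iff]
  intro x hx
  ext1 v
  change x (en T a b v) = en T a b (x v)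
  rw [en_apply, en_apply, ← dg_inc, hT x hx, dg_apply]

theorem lin_mt {A : σ → κ → (V →L[ℂ] V)} (hA : ∀ a b, A a b ∈ Set.centralizer 𝓐) :
    Lin 𝓐 (mt A) := by
  intro x hx v
  apply md_ext
  intro a
  rw [mt_apply, dg_apply, mt_apply, map_sum]
  refine Finset.sum_congr rfl fun b _ => ?_
  rw [dg_apply, cent_comm (hA a b) hx]

theorem Lin.comp {S : Md V σ →L[ℂ] Md V ν} {T : Md V κ →L[ℂ] Md V σ} (hS : Lin 𝓐 S)
    (hT : Lin 𝓐 T) : Lin 𝓐 (S.comp T) := by
  intro a ha x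
  rw [ContinuousLinearMap.comp_apply, hT a ha, hS a ha]
  rfl

theorem Lin.add {S T : Md V κ →L[ℂ] Md V σ} (hS : Lin 𝓐 S)
    (hT : Lin 𝓐 T) : Lin 𝓐 (S + T) := by
  intro a ha x
  rw [_root_.add_apply, hT a ha, hS a ha, _root_.add_apply, map_add]

theorem Lin.sub {S T : Md V κ →L[ℂ] Md V σ} (hS : Lin 𝓐 S)
    (hT : Lin 𝓐 T) : Lin 𝓐 (S - T) := by
  intro a ha x
  rw [_root_.sub_apply, hT a ha, hS a ha, _root_.sub_apply, map_sub]

theorem Lin.smul {T : Md V κ →L[ℂ] Md V σ} (c : ℂ) (hT : Lin 𝓐 T) : Lin 𝓐 (c • T) := by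
  intro a ha x
  change c • T (dg a x) = dg a (c • T x)
  rw [hT a ha, map_smul]

theorem Lin.id : Lin 𝓐 (ContinuousLinearMap.id ℂ (Md V κ)) := fun _ _ _ => rfl

theorem Lin.adjoint (h : TV 𝓐 Ω) {T : Md V κ →L[ℂ] Md V σ} (hT : Lin 𝓐 T) :
    Lin 𝓐 (ContinuousLinearMap.adjoint T) := by
  intro a ha x
  refine ext_inner_right ℂ fun y => ?_
  have ha' := h.star_mem a ha
  rw [ContinuousLinearMap.adjoint_inner_left]
  have e1 : (dg a : Md V σ →L[ℂ] Md V σ) = ContinuousLinearMap.adjoint (dg (star a)) := by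
    rw [dg_adjoint, ContinuousLinearMap.star_eq_adjoint, ContinuousLinearMap.adjoint_adjoint]
  have e2 : (dg a : Md V κ →L[ℂ] Md V κ) = ContinuousLinearMap.adjoint (dg (star a)) := by
    rw [dg_adjoint, ContinuousLinearMap.star_eq_adjoint, ContinuousLinearMap.adjoint_adjoint]
  rw [e1, ContinuousLinearMap.adjoint_inner_left, e2, ContinuousLinearMap.adjoint_inner_left,
    ContinuousLinearMap.adjoint_inner_left, hT _ ha']

/-- invariance -/
def Inv (𝓐 : Set (V →L[ℂ] V)) (E : Submodule ℂ (Md V κ)) : Prop :=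
  ∀ a ∈ 𝓐, ∀ x ∈ E, dg a x ∈ E

theorem Inv.orth (h : TV 𝓐 Ω) {E : Submodule ℂ (Md V κ)} (hE : Inv 𝓐 E) : Inv 𝓐 Eᗮ := by
  intro a ha x hx u hu
  have e2 : (dg a : Md V κ →L[ℂ] Md V κ) = ContinuousLinearMap.adjoint (dg (star a)) := by
    rw [dg_adjoint, ContinuousLinearMap.star_eq_adjoint, ContinuousLinearMap.adjoint_adjoint]
  rw [e2, ContinuousLinearMap.adjoint_inner_right]
  exact hx _ (hE _ (h.star_mem a ha) _ hu)

theorem Inv.closure {E : Submodule ℂ (Md V κ)} (hE : Inv 𝓐 E) : Inv 𝓐 E.topologicalClosure := by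
  intro a ha x hx
  have : (E : Set (Md V κ)) ⊆ (dg a) ⁻¹' (E.topologicalClosure : Set (Md V κ)) := by
    intro y hy
    exact Submodule.le_topologicalClosure _ (hE a ha y hy)
  have hc : IsClosed ((dg a) ⁻¹' (E.topologicalClosure : Set (Md V κ))) :=
    E.isClosed_topologicalClosure.preimage (dg a).continuous
  exact hc.closure_subset_iff.2 this hx

theorem Inv.PP (h : TV 𝓐 Ω) {E : Submodule ℂ (Md V κ)} (hE : Inv 𝓐 E) : Lin 𝓐 (PP E) := by
  intro a ha x
  apply PP_eq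
  · exact hE.closure a ha _ (PP_mem E x)
  · intro u hu
    rw [← map_sub]
    have e2 : (dg a : Md V κ →L[ℂ] Md V κ) = ContinuousLinearMap.adjoint (dg (star a)) := by
      rw [dg_adjoint, ContinuousLinearMap.star_eq_adjoint, ContinuousLinearMap.adjoint_adjoint]
    rw [e2, ContinuousLinearMap.adjoint_inner_left]
    exact PP_inner _ _ (Submodule.le_topologicalClosure _ (hE _ (h.star_mem a ha) _ hu))

theorem Inv.ker {T : Md V κ →L[ℂ] Md V σ} (hT : Lin 𝓐 T) :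
    Inv 𝓐 (LinearMap.ker (T : Md V κ →ₗ[ℂ] Md V σ)) := by
  intro a ha x hx
  have hx' : T x = 0 := hx
  change T (dg a x) = 0
  rw [hT a ha, hx', map_zero]

theorem Inv.map {T : Md V κ →L[ℂ] Md V σ} (hT : Lin 𝓐 T) {E : Submodule ℂ (Md V κ)}
    (hE : Inv 𝓐 E) : Inv 𝓐 (E.map (T : Md V κ →ₗ[ℂ] Md V σ)) := by
  rintro a ha _ ⟨x, hx, rfl⟩
  exact ⟨dg a x, hE a ha x hx, hT a ha x⟩

theorem Inv.inf {E F : Submodule ℂ (Md V κ)} (hE : Inv 𝓐 E) (hF : Inv 𝓐 F) : Inv 𝓐 (E ⊓ F) :=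
  fun a ha x hx => ⟨hE a ha x hx.1, hF a ha x hx.2⟩

theorem Inv.top : Inv 𝓐 (⊤ : Submodule ℂ (Md V κ)) := fun _ _ _ _ => trivial

/-- uniqueness for Lin maps -/
theorem lin_ext (h : TV 𝓐 Ω) {S T : Md V κ →L[ℂ] Md V σ} (hS : Lin 𝓐 S) (hT : Lin 𝓐 T)
    (he : ∀ b, S (inc b Ω) = T (inc b Ω)) : S = T := by
  ext1 x
  rw [md_decomp x, map_sum, map_sum]
  refine Finset.sum_congr rfl fun b _ => ?_
  have hc : IsClosed {v : V | S (inc b v) = T (inc b v)} :=
    isClosed_eq (by fun_prop) (by fun_prop)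
  have : x b ∈ closure ((fun a : V →L[ℂ] V => a Ω) '' 𝓐) := h.dense _
  refine hc.closure_subset_iff.2 ?_ this
  rintro _ ⟨a, ha, rfl⟩
  change S (inc b (a Ω)) = T (inc b (a Ω))
  rw [← dg_inc, hS a ha, hT a ha, he]

/-- relative dimension -/
def dm (Ω : V) (E : Submodule ℂ (Md V κ)) : ℝ := ∑ b, ‖PP E (inc b Ω)‖ ^ 2

theorem dm_eq_re (E : Submodule ℂ (Md V κ)) :
    dm Ω E = ∑ b, (⟪PP E (inc b Ω), (inc b Ω : Md V κ)⟫_ℂ).re := by
  unfold dm
  exact Finset.sum_congr rfl fun b _ => (PP_re _ _).symm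

theorem dm_nonneg (E : Submodule ℂ (Md V κ)) : 0 ≤ dm Ω E :=
  Finset.sum_nonneg fun _ _ => sq_nonneg _

theorem dm_mono {E F : Submodule ℂ (Md V κ)} (hEF : E ≤ F) : dm Ω E ≤ dm Ω F := by
  refine Finset.sum_le_sum fun b _ => ?_
  rw [PP_mono hEF]
  linarith [sq_nonneg ‖PP F (inc b Ω) - PP E (inc b Ω)‖]

theorem dm_orth (h : TV 𝓐 Ω) (E : Submodule ℂ (Md V κ)) :
    dm Ω Eᗮ = Fintype.card κ - dm Ω E := by
  unfold dm
  have : ∀ b : κ, ‖PP Eᗮ (inc b Ω)‖ ^ 2 = 1 - ‖PP E (inc b Ω)‖ ^ 2 := by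
    intro b
    rw [PP_orth]
    have := PP_pyth E (inc b Ω : Md V κ)
    rw [norm_inc, h.norm_one] at this
    linarith
  rw [Finset.sum_congr rfl fun b _ => this b, Finset.sum_sub_distrib]
  simp

theorem dm_le (h : TV 𝓐 Ω) (E : Submodule ℂ (Md V κ)) : dm Ω E ≤ Fintype.card κ := by
  have := dm_orth h E
  have := dm_nonneg (Ω := Ω) Eᗮ
  linarith

theorem dm_strict (h : TV 𝓐 Ω) {E F : Submodule ℂ (Md V κ)} (hE : Inv 𝓐 E) (hF : Inv 𝓐 F)
    (hEF : E ≤ F) (hd : dm Ω F ≤ dm Ω E) : E.topologicalClosure = F.topologicalClosure := by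
  have h0 : ∑ b : κ, ‖PP F (inc b Ω) - PP E (inc b Ω)‖ ^ 2 ≤ 0 := by
    have : dm Ω F = dm Ω E + ∑ b : κ, ‖PP F (inc b Ω) - PP E (inc b Ω)‖ ^ 2 := by
      unfold dm
      rw [← Finset.sum_add_distrib]
      exact Finset.sum_congr rfl fun b _ => PP_mono hEF _
    linarith
  have h1 : ∀ b : κ, PP E (inc b Ω) = PP F (inc b Ω) := by
    have h2 : ∑ b : κ, ‖PP F (inc b Ω) - PP E (inc b Ω)‖ ^ 2 = 0 :=
      le_antisymm h0 (Finset.sum_nonneg fun _ _ => sq_nonneg _)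
    rw [Finset.sum_eq_zero_iff_of_nonneg fun _ _ => sq_nonneg _] at h2
    intro b
    have := h2 b (Finset.mem_univ _)
    rw [sq_eq_zero_iff, norm_eq_zero, sub_eq_zero] at this
    exact this.symm
  exact closure_eq_of_PP (lin_ext h (hE.PP h) (hF.PP h) h1)

theorem dm_eq_zero (h : TV 𝓐 Ω) {E : Submodule ℂ (Md V κ)} (hE : Inv 𝓐 E) (hd : dm Ω E = 0) :
    E = ⊥ := by
  have hb : Inv 𝓐 (⊥ : Submodule ℂ (Md V κ)) := by
    intro a _ x hx
    rw [Submodule.mem_bot] at hx ⊢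
    rw [hx, map_zero]
  have h1 := dm_strict h hb hE bot_le (by rw [hd]; exact dm_nonneg _)
  have h2 : (⊥ : Submodule ℂ (Md V κ)).topologicalClosure = ⊥ :=
    IsClosed.submodule_topologicalClosure_eq (by simp)
  rw [h2] at h1
  rw [eq_bot_iff]
  intro x hx
  rw [h1]
  exact Submodule.le_topologicalClosure _ hx

theorem dm_bot : dm Ω (⊥ : Submodule ℂ (Md V κ)) = 0 := by
  unfold dm
  apply Finset.sum_eq_zero
  intro b _
  have : PP (⊥ : Submodule ℂ (Md V κ)) (inc b Ω) = 0 := by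
    apply PP_eq_zero
    intro u hu
    rw [Submodule.mem_bot] at hu
    rw [hu, inner_zero_right]
  rw [this, norm_zero]
  norm_num

theorem dm_closure (E : Submodule ℂ (Md V κ)) : dm Ω E.topologicalClosure = dm Ω E := by
  unfold dm
  have : PP E.topologicalClosure = PP E := by
    ext1 v
    apply PP_eq
    · apply Submodule.le_topologicalClosure; exact PP_mem E v
    · intro u hu; exact PP_inner E v hu
  rw [this]

/-- trace swap -/
theorem tr_swap (h : TV 𝓐 Ω) {X : Md V σ →L[ℂ] Md V κ} {Y : Md V κ →L[ℂ] Md V σ}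
    (hX : Lin 𝓐 X) (hY : Lin 𝓐 Y) :
    ∑ b : κ, ⟪X (Y (inc b Ω)), (inc b Ω : Md V κ)⟫_ℂ
      = ∑ a : σ, ⟪Y (X (inc a Ω)), (inc a Ω : Md V σ)⟫_ℂ := by
  have e1 : ∀ b : κ, ⟪X (Y (inc b Ω)), (inc b Ω : Md V κ)⟫_ℂ
      = ∑ a : σ, ⟪(en X b a * en Y a b) Ω, Ω⟫_ℂ := by
    intro b
    rw [inner_inc_right]
    have : X (Y (inc b Ω)) b = en (X.comp Y) b b Ω := rfl
    rw [this, en_comp, _root_.sum_apply, sum_inner]
    rfl
  have e2 : ∀ a : σ, ⟪Y (X (inc a Ω)), (inc a Ω : Md V σ)⟫_ℂ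
      = ∑ b : κ, ⟪(en Y a b * en X b a) Ω, Ω⟫_ℂ := by
    intro a
    rw [inner_inc_right]
    have : Y (X (inc a Ω)) a = en (Y.comp X) a a Ω := rfl
    rw [this, en_comp, _root_.sum_apply, sum_inner]
    rfl
  rw [Finset.sum_congr rfl fun b _ => e1 b, Finset.sum_congr rfl fun a _ => e2 a,
    Finset.sum_comm]
  refine Finset.sum_congr rfl fun a _ => Finset.sum_congr rfl fun b _ => ?_
  exact h.trace (lin_en hX b a) (lin_en hY a b)

end lin

end Pool.Agent.Y325.DD
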