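import Pool.Agent.Y325.DD.A2

/-!
# Index theorem and rank-nullity
-/

set_option autoImplicit false
set_option linter.unusedSectionVars false
set_option linter.unnecessarySimpa false

open scoped InnerProductSpace Topology
open Filter Finset

noncomputable section

namespace Pool.Agent.Y325.DD

section contraction

variable {X Y : Type*} [NormedAddCommGroup X] [InnerProductSpace ℂ X] [CompleteSpace X]
variable [NormedAddCommGroup Y] [InnerProductSpace ℂ Y] [CompleteSpace Y]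

/-- `1 - T*T` -/
def dft (T : X →L[ℂ] Y) : X →L[ℂ] X := 1 - (ContinuousLinearMap.adjoint T).comp T

theorem dft_apply (T : X →L[ℂ] Y) (x : X) :
    dft T x = x - ContinuousLinearMap.adjoint T (T x) := rfl

theorem dft_norm {T : X →L[ℂ] Y} (hT : ‖T‖ ≤ 1) : ‖dft T‖ ≤ 1 := by
  apply ContinuousLinearMap.opNorm_le_bound _ zero_le_one
  intro x
  rw [one_mul, dft_apply]
  have h1 : ‖x - ContinuousLinearMap.adjoint T (T x)‖ ^ 2
      = ‖x‖ ^ 2 - 2 * ‖T x‖ ^ 2 + ‖ContinuousLinearMap.adjoint T (T x)‖ ^ 2 := by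
    rw [norm_sub_sq (𝕜 := ℂ)]
    have : ⟪x, ContinuousLinearMap.adjoint T (T x)⟫_ℂ = ⟪T x, T x⟫_ℂ := by
      rw [ContinuousLinearMap.adjoint_inner_right]
    rw [this, inner_self_eq_norm_sq]
  have h2 : ‖ContinuousLinearMap.adjoint T (T x)‖ ≤ ‖T x‖ := by
    have := ContinuousLinearMap.le_opNorm (ContinuousLinearMap.adjoint T) (T x)
    rw [LinearIsometryEquiv.norm_map] at this
    calc _ ≤ ‖T‖ * ‖T x‖ := this
      _ ≤ 1 * ‖T x‖ := mul_le_mul_of_nonneg_right hT (norm_nonneg _)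
      _ = ‖T x‖ := one_mul _
  have h3 : ‖ContinuousLinearMap.adjoint T (T x)‖ ^ 2 ≤ ‖T x‖ ^ 2 :=
    pow_le_pow_left₀ (norm_nonneg _) h2 2
  refine abs_le_of_sq_le_sq' ?_ (norm_nonneg _) |>.2
  rw [h1]
  nlinarith [sq_nonneg ‖T x‖]

theorem dft_fix (T : X →L[ℂ] Y) :
    (dft T).eqLocus (1 : X →L[ℂ] X) = LinearMap.ker (T : X →ₗ[ℂ] Y) := by
  ext x
  constructor
  · intro hx
    have h1 : dft T x = x := hx
    rw [dft_apply, sub_eq_self] at h1
    have h2 : ⟪T x, T x⟫_ℂ = 0 := by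
      rw [← ContinuousLinearMap.adjoint_inner_left, h1, inner_zero_left]
    exact inner_self_eq_zero.1 h2
  · intro hx
    have h1 : T x = 0 := hx
    change dft T x = x
    rw [dft_apply, h1, map_zero, sub_zero]

theorem dft_intertwine (T : X →L[ℂ] Y) (k : ℕ) (y : Y) :
    ((dft T) ^ k) (ContinuousLinearMap.adjoint T y)
      = ContinuousLinearMap.adjoint T (((dft (ContinuousLinearMap.adjoint T)) ^ k) y) := by
  induction k generalizing y with
  | zero => rfl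
  | succ k ih =>
    rw [pow_succ, pow_succ]
    change ((dft T) ^ k) (dft T (ContinuousLinearMap.adjoint T y))
      = ContinuousLinearMap.adjoint T (((dft (ContinuousLinearMap.adjoint T)) ^ k)
        (dft (ContinuousLinearMap.adjoint T) y))
    have : dft T (ContinuousLinearMap.adjoint T y)
        = ContinuousLinearMap.adjoint T (dft (ContinuousLinearMap.adjoint T) y) := by
      rw [dft_apply, dft_apply, map_sub, ContinuousLinearMap.adjoint_adjoint]
    rw [this, ih]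

end contraction

variable {V : Type*} [NormedAddCommGroup V] [InnerProductSpace ℂ V] [CompleteSpace V]
variable {κ σ ν : Type*} [Fintype κ] [Fintype σ] [Fintype ν]
variable {𝓐 : Set (V →L[ℂ] V)} {Ω : V}

theorem Lin.one : Lin 𝓐 (1 : Md V κ →L[ℂ] Md V κ) := fun _ _ _ => rfl

theorem Lin.dft (h : TV 𝓐 Ω) {T : Md V κ →L[ℂ] Md V σ} (hT : Lin 𝓐 T) : Lin 𝓐 (dft T) :=
  Lin.one.sub ((hT.adjoint h).comp hT)

theorem Lin.pow {T : Md V κ →L[ℂ] Md V κ} (hT : Lin 𝓐 T) (k : ℕ) : Lin 𝓐 (T ^ k) := by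
  induction k with
  | zero => exact Lin.one
  | succ k ih => rw [pow_succ]; exact ih.comp hT

theorem pow_tr_diff (h : TV 𝓐 Ω) {T : Md V κ →L[ℂ] Md V σ} (hT : Lin 𝓐 T) (k : ℕ) :
    ∑ b : κ, ⟪((dft T) ^ k) (inc b Ω), (inc b Ω : Md V κ)⟫_ℂ
      - ∑ a : σ, ⟪((dft (ContinuousLinearMap.adjoint T)) ^ k) (inc a Ω), (inc a Ω : Md V σ)⟫_ℂ
      = Fintype.card κ - Fintype.card σ := by
  induction k with
  | zero =>
    have e1 : ∀ b : κ, ⟪((dft T) ^ 0) (inc b Ω), (inc b Ω : Md V κ)⟫_ℂ = 1 := by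
      intro b
      rw [pow_zero]
      change ⟪(inc b Ω : Md V κ), (inc b Ω : Md V κ)⟫_ℂ = 1
      rw [inner_self_eq_norm_sq_to_K, norm_inc, h.norm_one]
      norm_num
    have e2 : ∀ a : σ, ⟪((dft (ContinuousLinearMap.adjoint T)) ^ 0) (inc a Ω),
        (inc a Ω : Md V σ)⟫_ℂ = 1 := by
      intro a
      rw [pow_zero]
      change ⟪(inc a Ω : Md V σ), (inc a Ω : Md V σ)⟫_ℂ = 1
      rw [inner_self_eq_norm_sq_to_K, norm_inc, h.norm_one]
      norm_num
    rw [Finset.sum_congr rfl fun b _ => e1 b, Finset.sum_congr rfl fun a _ => e2 a]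
    simp
  | succ k ih =>
    have e1 : ∀ b : κ, ⟪((dft T) ^ (k + 1)) (inc b Ω), (inc b Ω : Md V κ)⟫_ℂ
        = ⟪((dft T) ^ k) (inc b Ω), (inc b Ω : Md V κ)⟫_ℂ
          - ⟪((dft T) ^ k).comp (ContinuousLinearMap.adjoint T) (T (inc b Ω)),
            (inc b Ω : Md V κ)⟫_ℂ := by
      intro b
      rw [← inner_sub_left, pow_succ]
      congr 1
      change ((dft T) ^ k) (dft T (inc b Ω)) = _
      rw [dft_apply, map_sub]
      rfl
    have e2 : ∀ a : σ, ⟪((dft (ContinuousLinearMap.adjoint T)) ^ (k + 1)) (inc a Ω),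
          (inc a Ω : Md V σ)⟫_ℂ
        = ⟪((dft (ContinuousLinearMap.adjoint T)) ^ k) (inc a Ω), (inc a Ω : Md V σ)⟫_ℂ
          - ⟪T (((dft T) ^ k).comp (ContinuousLinearMap.adjoint T) (inc a Ω)),
            (inc a Ω : Md V σ)⟫_ℂ := by
      intro a
      rw [← inner_sub_left, pow_succ']
      congr 1
      change dft (ContinuousLinearMap.adjoint T)
        (((dft (ContinuousLinearMap.adjoint T)) ^ k) (inc a Ω)) = _
      rw [dft_apply, ContinuousLinearMap.comp_apply, dft_intertwine,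
        ContinuousLinearMap.adjoint_adjoint]
    rw [Finset.sum_congr rfl fun b _ => e1 b, Finset.sum_congr rfl fun a _ => e2 a,
      Finset.sum_sub_distrib, Finset.sum_sub_distrib,
      tr_swap h (((hT.dft h).pow k).comp (hT.adjoint h)) hT]
    linear_combination ih

theorem av_tendsto {T : Md V κ →L[ℂ] Md V σ} (hn : ‖T‖ ≤ 1) :
    Tendsto (fun n : ℕ => ∑ b : κ, ⟪birkhoffAverage ℂ (dft T) _root_.id n (inc b Ω),
      (inc b Ω : Md V κ)⟫_ℂ) atTop
      (𝓝 (∑ b : κ, ⟪PP (LinearMap.ker (T : Md V κ →ₗ[ℂ] Md V σ)) (inc b Ω),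
        (inc b Ω : Md V κ)⟫_ℂ)) := by
  refine tendsto_finsetSum _ fun b _ => ?_
  have h1 := ContinuousLinearMap.tendsto_birkhoffAverage_orthogonalProjection (dft T)
    (dft_norm hn) (inc b Ω : Md V κ)
  have h2 : (((dft T).eqLocus (1 : Md V κ →L[ℂ] Md V κ)).orthogonalProjectionOnto
      (inc b Ω : Md V κ) : Md V κ)
      = PP (LinearMap.ker (T : Md V κ →ₗ[ℂ] Md V σ)) (inc b Ω) := by
    symm
    apply PP_eq
    · apply Submodule.le_topologicalClosure
      rw [← dft_fix T]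
      exact Submodule.coe_mem _
    · intro u hu
      rw [← dft_fix T] at hu
      exact Submodule.starProjection_inner_eq_zero _ _ hu
  rw [h2] at h1
  exact h1.inner tendsto_const_nhds

theorem av_eq (T : Md V κ →L[ℂ] Md V σ) (n : ℕ) :
    ∑ b : κ, ⟪birkhoffAverage ℂ (dft T) _root_.id n (inc b Ω), (inc b Ω : Md V κ)⟫_ℂ
      = (n : ℂ)⁻¹ * ∑ k ∈ range n, ∑ b : κ, ⟪((dft T) ^ k) (inc b Ω),
        (inc b Ω : Md V κ)⟫_ℂ := by
  rw [Finset.sum_comm, Finset.mul_sum]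
  refine Finset.sum_congr rfl fun b _ => ?_
  rw [birkhoffAverage, birkhoffSum, inner_smul_left, sum_inner]
  congr 1
  · simp
  · refine Finset.sum_congr rfl fun k _ => ?_
    congr 1
    have : ∀ (k : ℕ) x, ((dft T) ^ k) x = (⇑(dft T))^[k] x := by
      intro k x
      induction k generalizing x with
      | zero => rfl
      | succ k ih =>
        rw [pow_succ, Function.iterate_succ_apply, ← ih]
        rfl
    rw [this]
    rfl

theorem index_aux (h : TV 𝓐 Ω) {T : Md V κ →L[ℂ] Md V σ} (hT : Lin 𝓐 T) (hn : ‖T‖ ≤ 1) :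
    ∑ b : κ, ⟪PP (LinearMap.ker (T : Md V κ →ₗ[ℂ] Md V σ)) (inc b Ω),
        (inc b Ω : Md V κ)⟫_ℂ
    - ∑ a : σ, ⟪PP (LinearMap.ker (ContinuousLinearMap.adjoint T : Md V σ →ₗ[ℂ] Md V κ))
        (inc a Ω), (inc a Ω : Md V σ)⟫_ℂ = Fintype.card κ - Fintype.card σ := by
  have h1 := av_tendsto (Ω := Ω) hn
  have hn' : ‖ContinuousLinearMap.adjoint T‖ ≤ 1 := by
    rw [LinearIsometryEquiv.norm_map]; exact hn
  have h2 := av_tendsto (Ω := Ω) hn'
  have h3 := h1.sub h2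
  refine tendsto_nhds_unique h3 ?_
  refine tendsto_const_nhds.congr' ?_
  filter_upwards [eventually_gt_atTop 0] with n hn0
  rw [av_eq, av_eq, ← mul_sub, ← Finset.sum_sub_distrib,
    Finset.sum_congr rfl fun k _ => pow_tr_diff h hT k]
  rw [Finset.sum_const, Finset.card_range, nsmul_eq_mul]
  have : (n : ℂ) ≠ 0 := by exact_mod_cast hn0.ne'
  field_simp

theorem index_aux2 (h : TV 𝓐 Ω) {T : Md V κ →L[ℂ] Md V σ} (hT : Lin 𝓐 T) (hn : ‖T‖ ≤ 1) :
    dm Ω (LinearMap.ker (T : Md V κ →ₗ[ℂ] Md V σ)) + Fintype.card σ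
      = Fintype.card κ
        + dm Ω (LinearMap.ker (ContinuousLinearMap.adjoint T : Md V σ →ₗ[ℂ] Md V κ)) := by
  have h1 := congrArg Complex.re (index_aux h hT hn)
  rw [Complex.sub_re, Complex.re_sum, Complex.re_sum, ← dm_eq_re, ← dm_eq_re] at h1
  simp only [Complex.sub_re, Complex.natCast_re] at h1
  linarith

theorem index_thm (h : TV 𝓐 Ω) {T : Md V κ →L[ℂ] Md V σ} (hT : Lin 𝓐 T) :
    dm Ω (LinearMap.ker (T : Md V κ →ₗ[ℂ] Md V σ)) + Fintype.card σ
      = Fintype.card κ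
        + dm Ω (LinearMap.ker (ContinuousLinearMap.adjoint T : Md V σ →ₗ[ℂ] Md V κ)) := by
  set c : ℝ := (‖T‖ + 1)⁻¹ with hc
  have hc0 : 0 < c := by positivity
  have hcc : (c : ℂ) ≠ 0 := by exact_mod_cast hc0.ne'
  have hn : ‖(c : ℂ) • T‖ ≤ 1 := by
    refine (ContinuousLinearMap.opNorm_smul_le _ _).trans ?_
    rw [Complex.norm_real, Real.norm_of_nonneg hc0.le, hc, inv_mul_le_iff₀ (by positivity)]
    linarith
  have h1 := index_aux2 h (hT.smul (c : ℂ)) hn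
  have e1 : LinearMap.ker (((c : ℂ) • T : Md V κ →L[ℂ] Md V σ) : Md V κ →ₗ[ℂ] Md V σ)
      = LinearMap.ker (T : Md V κ →ₗ[ℂ] Md V σ) := by
    ext x
    change (c : ℂ) • T x = 0 ↔ T x = 0
    rw [smul_eq_zero]
    tauto
  have e2 : LinearMap.ker (ContinuousLinearMap.adjoint ((c : ℂ) • T) : Md V σ →ₗ[ℂ] Md V κ)
      = LinearMap.ker (ContinuousLinearMap.adjoint T : Md V σ →ₗ[ℂ] Md V κ) := by
    ext x
    change ContinuousLinearMap.adjoint ((c : ℂ) • T) x = 0 ↔ ContinuousLinearMap.adjoint T x = 0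
    rw [map_smulₛₗ]
    change (starRingEnd ℂ (c : ℂ)) • ContinuousLinearMap.adjoint T x = 0 ↔ _
    rw [Complex.conj_ofReal, smul_eq_zero]
    tauto
  rw [e1, e2] at h1
  exact h1

/-- rank-nullity -/
theorem rank_nullity (h : TV 𝓐 Ω) {T : Md V κ →L[ℂ] Md V σ} (hT : Lin 𝓐 T)
    {E : Submodule ℂ (Md V κ)} (hE : Inv 𝓐 E) (hc : IsClosed (E : Set (Md V κ))) :
    dm Ω (E ⊓ LinearMap.ker (T : Md V κ →ₗ[ℂ] Md V σ))
      + dm Ω (E.map (T : Md V κ →ₗ[ℂ] Md V σ)) = dm Ω E := by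
  have h1 := index_thm h (hT.comp (hE.PP h))
  have e2 : LinearMap.ker (ContinuousLinearMap.adjoint (T.comp (PP E)) : Md V σ →ₗ[ℂ] Md V κ)
      = (E.map (T : Md V κ →ₗ[ℂ] Md V σ))ᗮ := by
    ext y
    constructor
    · rintro hy _ ⟨x, hx, rfl⟩
      have hy' : ContinuousLinearMap.adjoint (T.comp (PP E)) y = 0 := hy
      have : T x = (T.comp (PP E)) x := by
        rw [ContinuousLinearMap.comp_apply, PP_self (Submodule.le_topologicalClosure _ hx)]
      change ⟪T x, y⟫_ℂ = 0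
      rw [this, ← ContinuousLinearMap.adjoint_inner_right, hy', inner_zero_right]
    · intro hy
      change ContinuousLinearMap.adjoint (T.comp (PP E)) y = 0
      refine ext_inner_left ℂ fun v => ?_
      rw [ContinuousLinearMap.adjoint_inner_right, inner_zero_right]
      exact hy _ ⟨PP E v, PP_mem_of_closed hc v, rfl⟩
  have e1 : dm Ω (LinearMap.ker ((T.comp (PP E)) : Md V κ →ₗ[ℂ] Md V σ))
      = Fintype.card κ - dm Ω E + dm Ω (E ⊓ LinearMap.ker (T : Md V κ →ₗ[ℂ] Md V σ)) := by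
    have e3 : ∀ v, PP (LinearMap.ker ((T.comp (PP E)) : Md V κ →ₗ[ℂ] Md V σ)) v
        = PP Eᗮ v + PP (E ⊓ LinearMap.ker (T : Md V κ →ₗ[ℂ] Md V σ)) v := by
      intro v
      have hcl : IsClosed ((E ⊓ LinearMap.ker (T : Md V κ →ₗ[ℂ] Md V σ) :
          Submodule ℂ (Md V κ)) : Set (Md V κ)) := hc.inter T.isClosed_ker
      have hm := PP_mem_of_closed hcl v
      have hPo : ∀ w, PP E (PP Eᗮ w) = 0 := by
        intro w
        rw [PP_orth, map_sub, PP_idem, sub_self]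
      apply PP_eq
      · apply Submodule.le_topologicalClosure
        change T (PP E _) = 0
        rw [map_add, hPo, zero_add, PP_self (Submodule.le_topologicalClosure _ hm.1)]
        exact hm.2
      · intro u hu
        have hu' : T (PP E u) = 0 := hu
        have k1 : PP E u ∈ E ⊓ LinearMap.ker (T : Md V κ →ₗ[ℂ] Md V σ) :=
          ⟨PP_mem_of_closed hc u, hu'⟩
        have k2 := PP_inner (E ⊓ LinearMap.ker (T : Md V κ →ₗ[ℂ] Md V σ)) v
          (Submodule.le_topologicalClosure _ k1)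
        have k3 : u = PP E u + PP Eᗮ u := by rw [PP_orth]; abel
        have k4 : ⟪v - (PP Eᗮ v + PP (E ⊓ LinearMap.ker (T : Md V κ →ₗ[ℂ] Md V σ)) v),
            PP E u⟫_ℂ = 0 := by
          rw [show v - (PP Eᗮ v + PP (E ⊓ LinearMap.ker (T : Md V κ →ₗ[ℂ] Md V σ)) v)
            = (v - PP (E ⊓ LinearMap.ker (T : Md V κ →ₗ[ℂ] Md V σ)) v) - PP Eᗮ v by abel,
            inner_sub_left, k2, zero_sub, neg_eq_zero, ← PP_symm, hPo, inner_zero_left]
        have k5 : ⟪v - (PP Eᗮ v + PP (E ⊓ LinearMap.ker (T : Md V κ →ₗ[ℂ] Md V σ)) v),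
            PP Eᗮ u⟫_ℂ = 0 := by
          rw [show v - (PP Eᗮ v + PP (E ⊓ LinearMap.ker (T : Md V κ →ₗ[ℂ] Md V σ)) v)
            = (v - PP Eᗮ v) - PP (E ⊓ LinearMap.ker (T : Md V κ →ₗ[ℂ] Md V σ)) v by abel,
            inner_sub_left, PP_inner Eᗮ v (PP_mem _ _), zero_sub, neg_eq_zero, ← PP_symm,
            PP_orth, PP_self (Submodule.le_topologicalClosure _ hm.1), sub_self,
            inner_zero_left]
        rw [k3, inner_add_right, k4, k5, add_zero]
    rw [dm_eq_re, dm_eq_re]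
    have e4 : ∀ b : κ, (⟪PP (LinearMap.ker ((T.comp (PP E)) : Md V κ →ₗ[ℂ] Md V σ)) (inc b Ω),
        (inc b Ω : Md V κ)⟫_ℂ).re
        = 1 - (⟪PP E (inc b Ω), (inc b Ω : Md V κ)⟫_ℂ).re
          + (⟪PP (E ⊓ LinearMap.ker (T : Md V κ →ₗ[ℂ] Md V σ)) (inc b Ω),
            (inc b Ω : Md V κ)⟫_ℂ).re := by
      intro b
      rw [e3, PP_orth, inner_add_left, inner_sub_left, Complex.add_re, Complex.sub_re,
        inner_self_eq_norm_sq_to_K, norm_inc, h.norm_one]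
      norm_num
    rw [Finset.sum_congr rfl fun b _ => e4 b, Finset.sum_add_distrib, Finset.sum_sub_distrib,
      dm_eq_re]
    simp
  rw [e1, e2, dm_orth h] at h1
  linarith

theorem dm_top (h : TV 𝓐 Ω) : dm Ω (⊤ : Submodule ℂ (Md V κ)) = Fintype.card κ := by
  unfold dm
  have : ∀ b : κ, ‖PP (⊤ : Submodule ℂ (Md V κ)) (inc b Ω)‖ ^ 2 = 1 := by
    intro b
    rw [PP_self (Submodule.le_topologicalClosure _ Submodule.mem_top), norm_inc, h.norm_one]
    norm_num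
  rw [Finset.sum_congr rfl fun b _ => this b]
  simp

/-- lower bound for kernels in a subspace -/
theorem dm_inf_ker_ge (h : TV 𝓐 Ω) {T : Md V κ →L[ℂ] Md V σ} (hT : Lin 𝓐 T)
    {E : Submodule ℂ (Md V κ)} (hE : Inv 𝓐 E) (hc : IsClosed (E : Set (Md V κ))) :
    dm Ω E - Fintype.card σ ≤ dm Ω (E ⊓ LinearMap.ker (T : Md V κ →ₗ[ℂ] Md V σ)) := by
  have := rank_nullity h hT hE hc
  have := dm_le h (E.map (T : Md V κ →ₗ[ℂ] Md V σ))
  linarith

theorem dm_ker_ge (h : TV 𝓐 Ω) {T : Md V κ →L[ℂ] Md V σ} (hT : Lin 𝓐 T) :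
    (Fintype.card κ : ℝ) - Fintype.card σ
      ≤ dm Ω (LinearMap.ker (T : Md V κ →ₗ[ℂ] Md V σ)) := by
  have := dm_inf_ker_ge h hT (E := ⊤) Inv.top isClosed_univ
  rwa [dm_top h, top_inf_eq] at this

/-- injective maps preserve the dimension -/
theorem dm_map_inj (h : TV 𝓐 Ω) {T : Md V κ →L[ℂ] Md V σ} (hT : Lin 𝓐 T)
    {E : Submodule ℂ (Md V κ)} (hE : Inv 𝓐 E) (hc : IsClosed (E : Set (Md V κ)))
    (hi : ∀ x ∈ E, T x = 0 → x = 0) :
    dm Ω (E.map (T : Md V κ →ₗ[ℂ] Md V σ)) = dm Ω E := by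
  have h1 := rank_nullity h hT hE hc
  have : E ⊓ LinearMap.ker (T : Md V κ →ₗ[ℂ] Md V σ) = ⊥ := by
    rw [eq_bot_iff]
    intro x hx
    exact hi x hx.1 hx.2
  rw [this, dm_bot, zero_add] at h1
  exact h1

end Pool.Agent.Y325.DD
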