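import Pool.Agent.Y325.DD.A3

/-!
# The Hilbert space of Hilbert-Schmidt operators, in coordinates
-/

set_option autoImplicit false
set_option linter.unusedSectionVars false
set_option linter.unnecessarySimpa false

open scoped InnerProductSpace Topology ENNReal ComplexConjugate
open Filter Finset

noncomputable section

namespace Pool.Agent.Y325.DD

variable {H ι : Type} [NormedAddCommGroup H] [InnerProductSpace ℂ H] [CompleteSpace H]

/-- the space -/
abbrev HS (H ι : Type) [NormedAddCommGroup H] [InnerProductSpace ℂ H] := lp (fun _ : ι => H) 2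

theorem mem_map (x : H →L[ℂ] H) (h : HS H ι) :
    Memℓp (fun q => x (h q)) 2 :=
  Memℓp.mono ((lp.memℓp h).norm.const_mul ‖x‖) fun q => x.le_opNorm (h q)

/-- componentwise action -/
def lm (x : H →L[ℂ] H) : HS H ι →L[ℂ] HS H ι :=
  LinearMap.mkContinuous
    { toFun := fun h => ⟨fun q => x (h q), mem_map x h⟩
      map_add' := fun h h' => by
        apply lp.ext
        funext q
        exact map_add x (h q) (h' q)
      map_smul' := fun c h => by
        apply lp.ext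
        funext q
        exact map_smul x c (h q) } ‖x‖ (by
    intro h
    have h1 : ‖x‖ * ‖h‖ = ‖((‖x‖ : ℝ) : ℂ) • h‖ := by
      rw [norm_smul, Complex.norm_real, norm_norm]
    rw [h1]
    refine lp.norm_mono (by norm_num : (2 : ℝ≥0∞) ≠ 0) fun q => ?_
    change ‖x (h q)‖ ≤ ‖((‖x‖ : ℝ) : ℂ) • h q‖
    rw [norm_smul, Complex.norm_real, norm_norm]
    exact x.le_opNorm (h q))

theorem lm_apply (x : H →L[ℂ] H) (h : HS H ι) (q : ι) : lm x h q = x (h q) := rfl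

theorem lm_norm (x : H →L[ℂ] H) : ‖(lm x : HS H ι →L[ℂ] HS H ι)‖ ≤ ‖x‖ :=
  LinearMap.mkContinuous_norm_le _ (norm_nonneg _) _

theorem lm_adj (x : H →L[ℂ] H) :
    ContinuousLinearMap.adjoint (lm x : HS H ι →L[ℂ] HS H ι) = lm (ContinuousLinearMap.adjoint x) := by
  symm
  rw [ContinuousLinearMap.eq_adjoint_iff]
  intro u v
  rw [lp.inner_eq_tsum, lp.inner_eq_tsum]
  refine tsum_congr fun q => ?_
  rw [lm_apply, lm_apply, ContinuousLinearMap.adjoint_inner_left]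

theorem lm_comp (x y : H →L[ℂ] H) (h : HS H ι) : lm x (lm y h) = lm (x * y) h := rfl

theorem b_sum (b : HilbertBasis ι ℂ H) (v : H) : HasSum (fun q => ‖⟪v, b q⟫_ℂ‖ ^ 2) (‖v‖ ^ 2) := by
  have h := b.hasSum_inner_mul_inner v v
  have h2 := h.mapL Complex.reCLM
  have e1 : ∀ q, Complex.reCLM (⟪v, b q⟫_ℂ * ⟪b q, v⟫_ℂ) = ‖⟪v, b q⟫_ℂ‖ ^ 2 := by
    intro q
    rw [← inner_conj_symm (b q) v, Complex.mul_conj, Complex.reCLM_apply, Complex.ofReal_re,
      Complex.normSq_eq_norm_sq]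
  have e2 : Complex.reCLM ⟪v, v⟫_ℂ = ‖v‖ ^ 2 := by
    have := inner_self_eq_norm_sq (𝕜 := ℂ) v
    simpa using this
  rw [e2] at h2
  exact h2.congr_fun (fun q => (e1 q).symm) |> fun h => by simpa using h

theorem th_mem (b : HilbertBasis ι ℂ H) (u v : H) :
    Memℓp (fun q => ⟪v, b q⟫_ℂ • u) 2 := by
  apply memℓp_gen
  have h := ((b_sum b v).mul_right (‖u‖ ^ 2)).summable
  refine h.congr fun q => ?_
  rw [norm_smul]
  norm_num
  ring

/-- rank one -/
def th (b : HilbertBasis ι ℂ H) (u v : H) : HS H ι := ⟨fun q => ⟪v, b q⟫_ℂ • u, th_mem b u v⟩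

theorem th_apply (b : HilbertBasis ι ℂ H) (u v : H) (q : ι) : th b u v q = ⟪v, b q⟫_ℂ • u := rfl

theorem th_add_left (b : HilbertBasis ι ℂ H) (u u' v : H) :
    th b (u + u') v = th b u v + th b u' v := by
  apply lp.ext
  funext q
  change ⟪v, b q⟫_ℂ • (u + u') = ⟪v, b q⟫_ℂ • u + ⟪v, b q⟫_ℂ • u'
  rw [smul_add]

theorem th_add_right (b : HilbertBasis ι ℂ H) (u v v' : H) :
    th b u (v + v') = th b u v + th b u v' := by
  apply lp.ext
  funext q
  change ⟪v + v', b q⟫_ℂ • u = ⟪v, b q⟫_ℂ • u + ⟪v', b q⟫_ℂ • u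
  rw [inner_add_left, add_smul]

theorem th_smul_left (b : HilbertBasis ι ℂ H) (c : ℂ) (u v : H) :
    th b (c • u) v = c • th b u v := by
  apply lp.ext
  funext q
  change ⟪v, b q⟫_ℂ • c • u = c • ⟪v, b q⟫_ℂ • u
  rw [smul_comm]

theorem th_smul_right (b : HilbertBasis ι ℂ H) (c : ℂ) (u v : H) :
    th b u (c • v) = conj c • th b u v := by
  apply lp.ext
  funext q
  change ⟪c • v, b q⟫_ℂ • u = conj c • ⟪v, b q⟫_ℂ • u
  rw [inner_smul_left, smul_smul]

theorem th_inner (b : HilbertBasis ι ℂ H) (u v u' v' : H) :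
    ⟪th b u v, th b u' v'⟫_ℂ = ⟪u, u'⟫_ℂ * ⟪v', v⟫_ℂ := by
  rw [lp.inner_eq_tsum]
  have h := b.hasSum_inner_mul_inner v' v
  rw [← (h.mul_left ⟪u, u'⟫_ℂ).tsum_eq]
  refine tsum_congr fun q => ?_
  rw [th_apply, th_apply, inner_smul_left, inner_smul_right, inner_conj_symm]
  ring

theorem ise {V : Type*} [NormedAddCommGroup V] [InnerProductSpace ℂ V] (v : V) :
    ⟪v, v⟫_ℂ = ((‖v‖ ^ 2 : ℝ) : ℂ) := by
  rw [inner_self_eq_norm_sq_to_K]
  simp

theorem th_norm (b : HilbertBasis ι ℂ H) (u v : H) : ‖th b u v‖ = ‖u‖ * ‖v‖ := by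
  have h1 : ⟪th b u v, th b u v⟫_ℂ = ((‖u‖ * ‖v‖) ^ 2 : ℝ) := by
    rw [th_inner, ise, ise, mul_pow]
    push_cast
    ring
  have h2 : ‖th b u v‖ ^ 2 = (‖u‖ * ‖v‖) ^ 2 := by
    have h3 := inner_self_eq_norm_sq (𝕜 := ℂ) (th b u v)
    rw [h1] at h3
    rw [← h3]
    exact Complex.ofReal_re _
  exact (sq_eq_sq₀ (norm_nonneg _) (by positivity)).1 h2

/-- `u ↦ th u v` -/
def thL (b : HilbertBasis ι ℂ H) (v : H) : H →L[ℂ] HS H ι :=
  LinearMap.mkContinuous
    { toFun := fun u => th b u v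
      map_add' := fun u u' => th_add_left b u u' v
      map_smul' := fun c u => th_smul_left b c u v } ‖v‖ (by
    intro u
    change ‖th b u v‖ ≤ _
    rw [th_norm, mul_comm])

theorem thL_apply (b : HilbertBasis ι ℂ H) (u v : H) : thL b v u = th b u v := rfl

/-- `Θ ↦ Θ x` -/
def ev (b : HilbertBasis ι ℂ H) (x : H) : HS H ι →L[ℂ] H := ContinuousLinearMap.adjoint (thL b x)

theorem ev_inner (b : HilbertBasis ι ℂ H) (x : H) (Θ : HS H ι) (u : H) :
    ⟪ev b x Θ, u⟫_ℂ = ⟪Θ, th b u x⟫_ℂ := by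
  unfold ev
  rw [ContinuousLinearMap.adjoint_inner_left]
  rfl

theorem ev_norm (b : HilbertBasis ι ℂ H) (x : H) (Θ : HS H ι) : ‖ev b x Θ‖ ≤ ‖Θ‖ * ‖x‖ := by
  have h1 := (ev b x).le_opNorm Θ
  have h2 : ‖ev b x‖ ≤ ‖x‖ := by
    unfold ev
    rw [LinearIsometryEquiv.norm_map]
    exact LinearMap.mkContinuous_norm_le _ (norm_nonneg _) _
  calc _ ≤ ‖ev b x‖ * ‖Θ‖ := h1
    _ ≤ ‖x‖ * ‖Θ‖ := mul_le_mul_of_nonneg_right h2 (norm_nonneg _)
    _ = _ := mul_comm _ _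

/-- the operator of a vector -/
def op (b : HilbertBasis ι ℂ H) (Θ : HS H ι) : H →L[ℂ] H :=
  LinearMap.mkContinuous
    { toFun := fun x => ev b x Θ
      map_add' := fun x x' => by
        refine ext_inner_right ℂ fun u => ?_
        rw [inner_add_left, ev_inner, ev_inner, ev_inner, th_add_right, inner_add_right]
      map_smul' := fun c x => by
        refine ext_inner_right ℂ fun u => ?_
        rw [inner_smul_left, ev_inner, ev_inner, th_smul_right, inner_smul_right]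
        rfl } ‖Θ‖ (by
    intro x
    exact ev_norm b x Θ)

theorem op_apply (b : HilbertBasis ι ℂ H) (Θ : HS H ι) (x : H) : op b Θ x = ev b x Θ := rfl

theorem op_inner (b : HilbertBasis ι ℂ H) (Θ : HS H ι) (x u : H) :
    ⟪op b Θ x, u⟫_ℂ = ⟪Θ, th b u x⟫_ℂ := ev_inner b x Θ u

theorem op_add (b : HilbertBasis ι ℂ H) (Θ Θ' : HS H ι) : op b (Θ + Θ') = op b Θ + op b Θ' := by
  ext1 x
  exact map_add (ev b x) Θ Θ'

theorem op_sub (b : HilbertBasis ι ℂ H) (Θ Θ' : HS H ι) : op b (Θ - Θ') = op b Θ - op b Θ' := by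
  ext1 x
  exact map_sub (ev b x) Θ Θ'

theorem op_smul (b : HilbertBasis ι ℂ H) (c : ℂ) (Θ : HS H ι) : op b (c • Θ) = c • op b Θ := by
  ext1 x
  exact map_smul (ev b x) c Θ

theorem op_zero (b : HilbertBasis ι ℂ H) : op b (0 : HS H ι) = 0 := by
  ext1 x
  exact map_zero (ev b x)

theorem op_sum {τ : Type*} (b : HilbertBasis ι ℂ H) (s : Finset τ) (f : τ → HS H ι) :
    op b (∑ i ∈ s, f i) = ∑ i ∈ s, op b (f i) := by
  ext1 x
  rw [_root_.sum_apply]
  exact map_sum (ev b x) f s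

theorem coord_eq (b : HilbertBasis ι ℂ H) (Θ : HS H ι) (q : ι) : op b Θ (b q) = Θ q := by
  refine ext_inner_right ℂ fun u => ?_
  rw [op_inner, lp.inner_eq_tsum, tsum_eq_single q]
  · rw [th_apply, inner_smul_right, inner_self_eq_norm_sq_to_K, b.orthonormal.1 q]
    norm_num
  · intro p hp
    rw [th_apply, b.orthonormal.2 (Ne.symm hp), zero_smul, inner_zero_right]

theorem op_inj (b : HilbertBasis ι ℂ H) {Θ Θ' : HS H ι} (h : op b Θ = op b Θ') : Θ = Θ' := by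
  apply lp.ext
  funext q
  rw [← coord_eq b, ← coord_eq b, h]

theorem hs_norm_sq (b : HilbertBasis ι ℂ H) (Θ : HS H ι) :
    ‖Θ‖ ^ 2 = ∑' i, ‖op b Θ (b i)‖ ^ 2 := by
  have h1 := inner_self_eq_norm_sq (𝕜 := ℂ) Θ
  rw [← h1, lp.inner_eq_tsum]
  have h2 : Summable fun i => ⟪Θ i, Θ i⟫_ℂ := lp.summable_inner Θ Θ
  have h3 := Complex.reCLM.map_tsum h2
  have h4 : (RCLike.re (∑' i, ⟪Θ i, Θ i⟫_ℂ) : ℝ) = Complex.reCLM (∑' i, ⟪Θ i, Θ i⟫_ℂ) := rfl
  rw [h4, h3]
  refine tsum_congr fun i => ?_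
  rw [coord_eq]
  exact inner_self_eq_norm_sq (𝕜 := ℂ) (Θ i)

/-- rank one operator -/
def rk (u v : H) : H →L[ℂ] H := InnerProductSpace.rankOne ℂ u v

theorem rk_apply (u v x : H) : rk u v x = ⟪v, x⟫_ℂ • u := by
  unfold rk
  rw [InnerProductSpace.rankOne_apply]

theorem op_th (b : HilbertBasis ι ℂ H) (u v : H) : op b (th b u v) = rk u v := by
  ext1 x
  refine ext_inner_right ℂ fun w => ?_
  rw [op_inner, th_inner, rk_apply, inner_smul_left, inner_conj_symm]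
  ring

theorem op_lm (b : HilbertBasis ι ℂ H) (a : H →L[ℂ] H) (Θ : HS H ι) :
    op b (lm a Θ) = a * op b Θ := by
  ext1 x
  refine ext_inner_right ℂ fun w => ?_
  have e1 : ⟪a (op b Θ x), w⟫_ℂ = ⟪op b Θ x, ContinuousLinearMap.adjoint a w⟫_ℂ := by
    rw [ContinuousLinearMap.adjoint_inner_right]
  have e2 : ⟪lm a Θ, th b w x⟫_ℂ = ⟪Θ, lm (ContinuousLinearMap.adjoint a) (th b w x)⟫_ℂ := by
    rw [← lm_adj, ContinuousLinearMap.adjoint_inner_right]
  change _ = ⟪a (op b Θ x), w⟫_ℂ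
  rw [e1, op_inner, op_inner, e2]
  congr 1
  apply lp.ext
  funext q
  rw [lm_apply, th_apply, th_apply, map_smul]

theorem lm_th (b : HilbertBasis ι ℂ H) (a : H →L[ℂ] H) (u v : H) :
    lm a (th b u v) = th b (a u) v := by
  apply op_inj b
  rw [op_lm, op_th, op_th]
  ext1 x
  change a (rk u v x) = rk (a u) v x
  rw [rk_apply, rk_apply, map_smul]

theorem th_total (b : HilbertBasis ι ℂ H) {Θ : HS H ι} (h : ∀ u v, ⟪Θ, th b u v⟫_ℂ = 0) : Θ = 0 := by
  apply op_inj b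
  rw [op_zero]
  ext1 x
  refine ext_inner_right ℂ fun w => ?_
  rw [op_inner, h]
  simp

theorem th_total_dense (b : HilbertBasis ι ℂ H) {Θ : HS H ι} {X Y : Set H} (hX : Dense X)
    (hY : Dense Y) (h : ∀ u ∈ X, ∀ v ∈ Y, ⟪Θ, th b u v⟫_ℂ = 0) : Θ = 0 := by
  apply th_total b
  have h1 : ∀ u ∈ X, ∀ v, ⟪Θ, th b u v⟫_ℂ = 0 := by
    intro u hu v
    have hc : IsClosed {v : H | ⟪op b Θ v, u⟫_ℂ = 0} := isClosed_eq (by fun_prop) (by fun_prop)
    have := hc.closure_subset_iff.2 (fun v hv => (op_inner b Θ v u).trans (h u hu v hv)) (hY v)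
    exact (op_inner b Θ v u).symm.trans this
  intro u v
  have hc : IsClosed {u : H | ⟪op b Θ v, u⟫_ℂ = 0} := isClosed_eq (by fun_prop) (by fun_prop)
  have := hc.closure_subset_iff.2 (fun u hu => (op_inner b Θ v u).trans (h1 u hu v)) (hX u)
  exact (op_inner b Θ v u).symm.trans this

end Pool.Agent.Y325.DD
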