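import Pool.Agent.Y325.DD.A4

/-!
# The right action and the trace vector on the Hilbert-Schmidt space
-/

set_option autoImplicit false
set_option linter.unusedSectionVars false
set_option linter.unnecessarySimpa false

open scoped InnerProductSpace Topology ENNReal ComplexConjugate
open Filter Finset

noncomputable section

namespace Pool.Agent.Y325.DD

variable {H ι : Type} [NormedAddCommGroup H] [InnerProductSpace ℂ H] [CompleteSpace H]

theorem clm_ext_basis (b : HilbertBasis ι ℂ H) {A B : H →L[ℂ] H}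
    (h : ∀ p q, ⟪A (b q), b p⟫_ℂ = ⟪B (b q), b p⟫_ℂ) : A = B := by
  have h1 : ∀ q, A (b q) = B (b q) := by
    intro q
    apply b.repr.injective
    apply lp.ext
    funext p
    rw [b.repr_apply_apply, b.repr_apply_apply, ← inner_conj_symm, ← inner_conj_symm (b p), h]
  have h2 : Dense (Submodule.span ℂ (Set.range b) : Set H) := by
    have := b.dense_span
    rwa [← Submodule.dense_iff_topologicalClosure_eq_top] at this
  apply ContinuousLinearMap.ext
  intro x
  have hc : IsClosed {x : H | A x = B x} := isClosed_eq (by fun_prop) (by fun_prop)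
  refine hc.closure_subset_iff.2 ?_ (h2 x)
  intro y hy
  induction hy using Submodule.span_induction with
  | mem y hy => obtain ⟨q, rfl⟩ := hy; exact h1 q
  | zero => simp
  | add y z _ _ hy hz =>
    change A (y + z) = B (y + z)
    rw [map_add, map_add, show A y = B y from hy, show A z = B z from hz]
  | smul c y _ hy =>
    change A (c • y) = B (c • y)
    rw [map_smul, map_smul, show A y = B y from hy]

theorem bb_orth (b : HilbertBasis ι ℂ H) :
    Orthonormal ℂ (fun i : ι × ι => th b (b i.1) (b i.2)) := by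
  classical
  rw [orthonormal_iff_ite]
  intro i j
  have h1 := orthonormal_iff_ite.1 b.orthonormal
  rw [th_inner, h1, h1]
  by_cases h2 : i.1 = j.1
  · by_cases h3 : j.2 = i.2
    · rw [if_pos h2, if_pos h3, if_pos (Prod.ext h2 h3.symm), one_mul]
    · rw [if_neg h3, mul_zero, if_neg]
      intro h; exact h3 (congrArg Prod.snd h).symm
  · rw [if_neg h2, zero_mul, if_neg]
    intro h; exact h2 (congrArg Prod.fst h)

theorem bb_total (b : HilbertBasis ι ℂ H) {Θ : HS H ι} (h : ∀ p q, ⟪th b (b p) (b q), Θ⟫_ℂ = 0) :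
    Θ = 0 := by
  apply op_inj b
  rw [op_zero]
  apply clm_ext_basis b
  intro p q
  rw [op_inner, ← inner_conj_symm, h]
  simp

theorem bb_perp (b : HilbertBasis ι ℂ H) :
    (Submodule.span ℂ (Set.range fun i : ι × ι => th b (b i.1) (b i.2)))ᗮ = ⊥ := by
  rw [Submodule.eq_bot_iff]
  intro u hu
  apply bb_total b
  intro p q
  have hm : th b (b p) (b q) ∈ Submodule.span ℂ (Set.range fun i : ι × ι => th b (b i.1) (b i.2)) :=
    Submodule.subset_span ⟨(p, q), rfl⟩
  exact Submodule.inner_right_of_mem_orthogonal hm hu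

theorem bb_perp' (b : HilbertBasis ι ℂ H) :
    (Submodule.span ℂ (Set.range fun i : ι × ι => th b (b i.2) (b i.1)))ᗮ = ⊥ := by
  rw [Submodule.eq_bot_iff]
  intro u hu
  apply bb_total b
  intro p q
  have hm : th b (b p) (b q) ∈ Submodule.span ℂ (Set.range fun i : ι × ι => th b (b i.2) (b i.1)) :=
    Submodule.subset_span ⟨(q, p), rfl⟩
  exact Submodule.inner_right_of_mem_orthogonal hm hu

/-- the Hilbert basis -/
def BB (b : HilbertBasis ι ℂ H) : HilbertBasis (ι × ι) ℂ (HS H ι) :=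
  HilbertBasis.mkOfOrthogonalEqBot (bb_orth b) (bb_perp b)

/-- the swapped Hilbert basis -/
def BB' (b : HilbertBasis ι ℂ H) : HilbertBasis (ι × ι) ℂ (HS H ι) :=
  HilbertBasis.mkOfOrthogonalEqBot ((bb_orth b).comp Prod.swap Prod.swap_injective) (bb_perp' b)

theorem BB_apply (b : HilbertBasis ι ℂ H) (i : ι × ι) : BB b i = th b (b i.1) (b i.2) := by
  unfold BB
  rw [HilbertBasis.coe_mkOfOrthogonalEqBot]

theorem BB'_apply (b : HilbertBasis ι ℂ H) (i : ι × ι) : BB' b i = th b (b i.2) (b i.1) := by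
  unfold BB'
  rw [HilbertBasis.coe_mkOfOrthogonalEqBot]
  rfl

/-- the conjugation -/
def J (b : HilbertBasis ι ℂ H) (h : HS H ι) : HS H ι :=
  (BB' b).repr.symm (star ((BB b).repr h))

theorem bb_J (b : HilbertBasis ι ℂ H) (h : HS H ι) (p q : ι) :
    ⟪th b (b q) (b p), J b h⟫_ℂ = conj ⟪th b (b p) (b q), h⟫_ℂ := by
  have h1 := (BB' b).repr_apply_apply (J b h) (p, q)
  have h2 := (BB b).repr_apply_apply h (p, q)
  rw [BB'_apply] at h1
  rw [BB_apply] at h2
  rw [← h1, ← h2]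
  unfold J
  rw [LinearIsometryEquiv.apply_symm_apply, lp.star_apply]
  rfl

theorem op_J (b : HilbertBasis ι ℂ H) (Θ : HS H ι) :
    op b (J b Θ) = ContinuousLinearMap.adjoint (op b Θ) := by
  apply clm_ext_basis b
  intro p q
  rw [op_inner, ContinuousLinearMap.adjoint_inner_left, ← inner_conj_symm, bb_J, Complex.conj_conj,
    ← inner_conj_symm, ← op_inner, inner_conj_symm]

theorem J_add (b : HilbertBasis ι ℂ H) (u v : HS H ι) :
    J b (u + v) = J b u + J b v := by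
  unfold J
  rw [map_add, star_add, map_add]

theorem J_smul (b : HilbertBasis ι ℂ H) (c : ℂ) (u : HS H ι) :
    J b (c • u) = conj c • J b u := by
  unfold J
  rw [map_smul, star_smul, map_smul]
  rfl

theorem J_J (b : HilbertBasis ι ℂ H) (u : HS H ι) : J b (J b u) = u := by
  apply op_inj b
  rw [op_J, op_J, ContinuousLinearMap.adjoint_adjoint]

theorem J_norm (b : HilbertBasis ι ℂ H) (u : HS H ι) : ‖J b u‖ = ‖u‖ := by
  unfold J
  rw [LinearIsometryEquiv.norm_map, norm_star, LinearIsometryEquiv.norm_map]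

theorem J_inner (b : HilbertBasis ι ℂ H) (u v : HS H ι) :
    ⟪J b u, J b v⟫_ℂ = ⟪v, u⟫_ℂ := by
  have h1 : ⟪v, u⟫_ℂ = ⟪(BB b).repr v, (BB b).repr u⟫_ℂ :=
    (LinearIsometryEquiv.inner_map_map _ _ _).symm
  rw [h1]
  unfold J
  rw [LinearIsometryEquiv.inner_map_map, lp.inner_eq_tsum, lp.inner_eq_tsum]
  refine tsum_congr fun i => ?_
  rw [lp.star_apply, lp.star_apply]
  simp only [RCLike.inner_apply, RCLike.star_def, Complex.conj_conj]
  ring

/-- right action -/
def rm (b : HilbertBasis ι ℂ H) (y : H →L[ℂ] H) : HS H ι →L[ℂ] HS H ι :=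
  LinearMap.mkContinuous
    { toFun := fun h => J b (lm y (J b h))
      map_add' := fun h h' => by rw [J_add, map_add, J_add]
      map_smul' := fun c h => by
        rw [J_smul, map_smul, J_smul, Complex.conj_conj, RingHom.id_apply] } ‖y‖ (by
    intro h
    change ‖J b (lm y (J b h))‖ ≤ _
    rw [J_norm]
    refine ((lm y).le_opNorm _).trans ?_
    rw [J_norm]
    exact mul_le_mul_of_nonneg_right (lm_norm y) (norm_nonneg _))

theorem rm_apply (b : HilbertBasis ι ℂ H) (y : H →L[ℂ] H) (h : HS H ι) :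
    rm b y h = J b (lm y (J b h)) := rfl

theorem op_rm (b : HilbertBasis ι ℂ H) (y : H →L[ℂ] H) (Θ : HS H ι) :
    op b (rm b y Θ) = op b Θ * ContinuousLinearMap.adjoint y := by
  rw [rm_apply, op_J, op_lm, op_J]
  rw [← ContinuousLinearMap.star_eq_adjoint, ← ContinuousLinearMap.star_eq_adjoint, star_mul,
    star_star, ← ContinuousLinearMap.star_eq_adjoint]

theorem rm_adj (b : HilbertBasis ι ℂ H) (y : H →L[ℂ] H) :
    ContinuousLinearMap.adjoint (rm b y) = rm b (ContinuousLinearMap.adjoint y) := by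
  symm
  rw [ContinuousLinearMap.eq_adjoint_iff]
  intro u v
  rw [rm_apply, rm_apply]
  have e1 : ⟪J b (lm (ContinuousLinearMap.adjoint y) (J b u)), v⟫_ℂ
      = ⟪J b v, lm (ContinuousLinearMap.adjoint y) (J b u)⟫_ℂ := by
    conv_lhs => rw [← J_J b v]
    rw [J_inner]
  have e2 : ⟪u, J b (lm y (J b v))⟫_ℂ = ⟪lm y (J b v), J b u⟫_ℂ := by
    conv_lhs => rw [← J_J b u]
    rw [J_inner]
  rw [e1, e2, ← lm_adj, ContinuousLinearMap.adjoint_inner_right]

theorem rk_mul (u v : H) (y : H →L[ℂ] H) :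
    rk u v * y = rk u (ContinuousLinearMap.adjoint y v) := by
  ext1 x
  change rk u v (y x) = _
  rw [rk_apply, rk_apply, ContinuousLinearMap.adjoint_inner_left]

theorem mul_rk (u v : H) (y : H →L[ℂ] H) : y * rk u v = rk (y u) v := by
  ext1 x
  change y (rk u v x) = _
  rw [rk_apply, rk_apply, map_smul]

theorem rm_th (b : HilbertBasis ι ℂ H) (y : H →L[ℂ] H) (u v : H) :
    rm b y (th b u v) = th b u (y v) := by
  apply op_inj b
  rw [op_rm, op_th, op_th, rk_mul, ContinuousLinearMap.adjoint_adjoint]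

theorem rm_lm (b : HilbertBasis ι ℂ H) (a c : H →L[ℂ] H) (Θ : HS H ι) :
    rm b c (lm a Θ) = lm a (rm b c Θ) := by
  apply op_inj b
  rw [op_rm, op_lm, op_lm, op_rm, mul_assoc]

theorem rm_add (b : HilbertBasis ι ℂ H) (x y : H →L[ℂ] H) : rm b (x + y) = rm b x + rm b y := by
  ext1 Θ
  apply op_inj b
  rw [_root_.add_apply, op_add, op_rm, op_rm, op_rm, map_add, mul_add]

theorem rm_smul (b : HilbertBasis ι ℂ H) (c : ℂ) (x : H →L[ℂ] H) :
    rm b (c • x) = conj c • rm b x := by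
  ext1 Θ
  apply op_inj b
  change op b (rm b (c • x) Θ) = op b (conj c • rm b x Θ)
  rw [op_smul, op_rm, op_rm, map_smulₛₗ, mul_smul_comm]

theorem rm_one (b : HilbertBasis ι ℂ H) : rm b 1 = 1 := by
  ext1 Θ
  apply op_inj b
  rw [op_rm]
  have : ContinuousLinearMap.adjoint (1 : H →L[ℂ] H) = 1 := by
    rw [← ContinuousLinearMap.star_eq_adjoint, star_one]
  rw [this, mul_one]
  rfl

theorem rm_zero (b : HilbertBasis ι ℂ H) : rm b 0 = 0 := by
  ext1 Θ
  apply op_inj b
  rw [op_rm, map_zero, mul_zero]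
  exact (op_zero b).symm

theorem rm_sum {τ : Type*} (b : HilbertBasis ι ℂ H) (s : Finset τ) (f : τ → (H →L[ℂ] H)) :
    rm b (∑ i ∈ s, f i) = ∑ i ∈ s, rm b (f i) := by
  classical
  induction s using Finset.induction_on with
  | empty => simp [rm_zero]
  | insert a s ha ih => rw [Finset.sum_insert ha, Finset.sum_insert ha, rm_add, ih]

theorem lm_add (x y : H →L[ℂ] H) : (lm (x + y) : HS H ι →L[ℂ] HS H ι) = lm x + lm y := by
  ext1 Θ
  apply lp.ext
  funext q
  rfl

theorem lm_smul (c : ℂ) (x : H →L[ℂ] H) : (lm (c • x) : HS H ι →L[ℂ] HS H ι) = c • lm x := by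
  ext1 Θ
  apply lp.ext
  funext q
  rfl

theorem lm_one : (lm (1 : H →L[ℂ] H) : HS H ι →L[ℂ] HS H ι) = 1 := by
  ext1 Θ
  apply lp.ext
  funext q
  rfl

theorem lm_zero : (lm (0 : H →L[ℂ] H) : HS H ι →L[ℂ] HS H ι) = 0 := by
  ext1 Θ
  apply lp.ext
  funext q
  rfl

/-- tracial situation -/
structure Tr (M : Set (H →L[ℂ] H)) (ξ : H) : Prop where
  dc : Set.centralizer (Set.centralizer M) = M
  star_mem : ∀ a ∈ M, star a ∈ M
  norm_one : ‖ξ‖ = 1
  dense : Dense ((fun x : H →L[ℂ] H => x ξ) '' M)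
  tr : ∀ a ∈ M, ∀ c ∈ M, ⟪(a * c) ξ, ξ⟫_ℂ = ⟪(c * a) ξ, ξ⟫_ℂ

section tr

variable {M : Set (H →L[ℂ] H)} {ξ : H}

theorem Tr.swap (h : Tr M ξ) {a c : H →L[ℂ] H} (ha : a ∈ M) (hc : c ∈ M) :
    ⟪a ξ, c ξ⟫_ℂ = ⟪(star c) ξ, (star a) ξ⟫_ℂ := by
  have e1 : ⟪a ξ, c ξ⟫_ℂ = ⟪(star c * a) ξ, ξ⟫_ℂ := by
    rw [ContinuousLinearMap.star_eq_adjoint]
    change _ = ⟪ContinuousLinearMap.adjoint c (a ξ), ξ⟫_ℂ
    rw [ContinuousLinearMap.adjoint_inner_left]
  have e2 : ⟪(star c) ξ, (star a) ξ⟫_ℂ = ⟪(a * star c) ξ, ξ⟫_ℂ := by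
    rw [ContinuousLinearMap.star_eq_adjoint a, ContinuousLinearMap.adjoint_inner_right]
    rfl
  rw [e1, e2, h.tr _ (h.star_mem c hc) a ha]

theorem Tr.tv (h : Tr M ξ) : TV M ξ where
  dense := h.dense
  star_mem := h.star_mem
  norm_star := by
    intro a ha
    have := h.swap (h.star_mem a ha) (h.star_mem a ha)
    rw [star_star, ise, ise] at this
    have h2 : ‖(star a) ξ‖ ^ 2 = ‖a ξ‖ ^ 2 := by exact_mod_cast this
    exact (sq_eq_sq₀ (norm_nonneg _) (norm_nonneg _)).1 h2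
  norm_one := h.norm_one

theorem Tr.mul_mem (h : Tr M ξ) {a c : H →L[ℂ] H} (ha : a ∈ M) (hc : c ∈ M) : a * c ∈ M := by
  rw [← h.dc] at ha hc ⊢
  exact Set.mul_mem_centralizer ha hc

theorem Tr.add_mem (h : Tr M ξ) {a c : H →L[ℂ] H} (ha : a ∈ M) (hc : c ∈ M) : a + c ∈ M := by
  rw [← h.dc] at ha hc ⊢
  exact Set.add_mem_centralizer ha hc

theorem Tr.one_mem (h : Tr M ξ) : (1 : H →L[ℂ] H) ∈ M := by
  rw [← h.dc]
  exact Set.one_mem_centralizer

theorem Tr.zero_mem (h : Tr M ξ) : (0 : H →L[ℂ] H) ∈ M := by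
  rw [← h.dc]
  exact Set.zero_mem_centralizer

theorem Tr.smul_mem (h : Tr M ξ) (c : ℂ) {a : H →L[ℂ] H} (ha : a ∈ M) : c • a ∈ M := by
  rw [← h.dc] at ha ⊢
  exact cent_smul c ha

/-- the operators from left and right multiplications -/
def AN (b : HilbertBasis ι ℂ H) (M : Set (H →L[ℂ] H)) : Set (HS H ι →L[ℂ] HS H ι) :=
  {x | ∃ (p : ℕ) (a c : Fin p → (H →L[ℂ] H)), (∀ i, a i ∈ M) ∧ (∀ i, c i ∈ M) ∧
    x = ∑ i, (lm (a i)).comp (rm b (c i))}

theorem AN_mk (b : HilbertBasis ι ℂ H) {a c : H →L[ℂ] H} (ha : a ∈ M) (hc : c ∈ M) :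
    (lm a).comp (rm b c) ∈ AN b M :=
  ⟨1, fun _ => a, fun _ => c, fun _ => ha, fun _ => hc, by simp⟩

theorem AN_apply_th (b : HilbertBasis ι ℂ H) {p : ℕ} (a c : Fin p → (H →L[ℂ] H)) (u v : H) :
    (∑ i, (lm (a i)).comp (rm b (c i))) (th b u v) = ∑ i, th b (a i u) (c i v) := by
  rw [_root_.sum_apply]
  refine Finset.sum_congr rfl fun i _ => ?_
  rw [ContinuousLinearMap.comp_apply, rm_th, lm_th]

theorem star_lr (b : HilbertBasis ι ℂ H) (a c : H →L[ℂ] H) :
    star ((lm a).comp (rm b c)) = (lm (star a)).comp (rm b (star c)) := by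
  rw [ContinuousLinearMap.star_eq_adjoint, ContinuousLinearMap.adjoint_comp, lm_adj, rm_adj,
    ContinuousLinearMap.star_eq_adjoint, ContinuousLinearMap.star_eq_adjoint]
  ext1 Θ
  rw [ContinuousLinearMap.comp_apply, ContinuousLinearMap.comp_apply, rm_lm]

theorem star_sum_lr (b : HilbertBasis ι ℂ H) {p : ℕ} (a c : Fin p → (H →L[ℂ] H)) :
    star (∑ i, (lm (a i)).comp (rm b (c i))) = ∑ i, (lm (star (a i))).comp (rm b (star (c i))) := by
  rw [star_sum]
  exact Finset.sum_congr rfl fun i _ => star_lr b _ _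

theorem AN_tv (b : HilbertBasis ι ℂ H) (h : Tr M ξ) : TV (AN b M) (th b ξ ξ) where
  dense := by
    have h1 : Dense ((Submodule.span ℂ {Θ | ∃ a ∈ M, ∃ c ∈ M, Θ = th b (a ξ) (c ξ)} :
        Submodule ℂ (HS H ι)) : Set (HS H ι)) := by
      rw [Submodule.dense_iff_topologicalClosure_eq_top, Submodule.topologicalClosure_eq_top_iff,
        Submodule.eq_bot_iff]
      intro Θ hΘ
      refine th_total_dense b h.dense h.dense ?_
      rintro _ ⟨a, ha, rfl⟩ _ ⟨c, hc, rfl⟩
      rw [← inner_conj_symm]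
      have : ⟪th b (a ξ) (c ξ), Θ⟫_ℂ = 0 := hΘ _ (Submodule.subset_span ⟨a, ha, c, hc, rfl⟩)
      rw [this, map_zero]
    refine h1.mono ?_
    intro Θ hΘ
    induction hΘ using Submodule.span_induction with
    | mem Θ hΘ =>
      obtain ⟨a, ha, c, hc, rfl⟩ := hΘ
      refine ⟨_, AN_mk b ha hc, ?_⟩
      change lm a (rm b c (th b ξ ξ)) = _
      rw [rm_th, lm_th]
    | zero =>
      refine ⟨_, AN_mk b h.zero_mem h.zero_mem, ?_⟩
      change lm 0 (rm b 0 (th b ξ ξ)) = _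
      rw [rm_zero, _root_.zero_apply, map_zero]
    | add x y _ _ hx hy =>
      obtain ⟨_, ⟨p, a, c, ha, hc, rfl⟩, rfl⟩ := hx
      obtain ⟨_, ⟨p', a', c', ha', hc', rfl⟩, rfl⟩ := hy
      refine ⟨_, ⟨p + p', Fin.append a a', Fin.append c c', ?_, ?_, rfl⟩, ?_⟩
      · intro i
        refine Fin.addCases (fun i => ?_) (fun i => ?_) i
        · rw [Fin.append_left]; exact ha i
        · rw [Fin.append_right]; exact ha' i
      · intro i
        refine Fin.addCases (fun i => ?_) (fun i => ?_) i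
        · rw [Fin.append_left]; exact hc i
        · rw [Fin.append_right]; exact hc' i
      · change (∑ i, (lm (Fin.append a a' i)).comp (rm b (Fin.append c c' i))) (th b ξ ξ) = _
        rw [Fin.sum_univ_add]
        simp only [Fin.append_left, Fin.append_right]
        rfl
    | smul z x _ hx =>
      obtain ⟨_, ⟨p, a, c, ha, hc, rfl⟩, rfl⟩ := hx
      refine ⟨_, ⟨p, fun i => z • a i, c, fun i => h.smul_mem z (ha i), hc, rfl⟩, ?_⟩
      change (∑ i, (lm (z • a i)).comp (rm b (c i))) (th b ξ ξ) = _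
      rw [AN_apply_th]
      change _ = z • (∑ i, (lm (a i)).comp (rm b (c i))) (th b ξ ξ)
      rw [AN_apply_th, Finset.smul_sum]
      refine Finset.sum_congr rfl fun i _ => ?_
      rw [← th_smul_left]
      rfl
  star_mem := by
    rintro _ ⟨p, a, c, ha, hc, rfl⟩
    exact ⟨p, fun i => star (a i), fun i => star (c i), fun i => h.star_mem _ (ha i),
      fun i => h.star_mem _ (hc i), star_sum_lr b a c⟩
  norm_star := by
    rintro _ ⟨p, a, c, ha, hc, rfl⟩
    rw [star_sum_lr, AN_apply_th, AN_apply_th]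
    have h1 : ⟪∑ i, th b ((star (a i)) ξ) ((star (c i)) ξ),
        ∑ i, th b ((star (a i)) ξ) ((star (c i)) ξ)⟫_ℂ
        = ⟪∑ i, th b (a i ξ) (c i ξ), ∑ i, th b (a i ξ) (c i ξ)⟫_ℂ := by
      simp only [sum_inner, inner_sum, th_inner]
      rw [Finset.sum_comm]
      refine Finset.sum_congr rfl fun i _ => Finset.sum_congr rfl fun j _ => ?_
      rw [h.swap (h.star_mem _ (ha i)) (h.star_mem _ (ha j)),
        h.swap (h.star_mem _ (hc j)) (h.star_mem _ (hc i))]
      simp only [star_star]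
    rw [ise, ise] at h1
    have h2 : ‖∑ i, th b ((star (a i)) ξ) ((star (c i)) ξ)‖ ^ 2 = ‖∑ i, th b (a i ξ) (c i ξ)‖ ^ 2 := by
      exact_mod_cast h1
    exact (sq_eq_sq₀ (norm_nonneg _) (norm_nonneg _)).1 h2
  norm_one := by rw [th_norm, h.norm_one, one_mul]

theorem lm_cent (b : HilbertBasis ι ℂ H) {x : H →L[ℂ] H} (hx : x ∈ Set.centralizer M) :
    (lm x : HS H ι →L[ℂ] HS H ι) ∈ Set.centralizer (AN b M) := by
  rw [Set.mem_centralizer_iff]
  rintro _ ⟨p, a, c, ha, hc, rfl⟩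
  rw [Finset.sum_mul, Finset.mul_sum]
  refine Finset.sum_congr rfl fun i _ => ?_
  ext1 Θ
  change lm (a i) (rm b (c i) (lm x Θ)) = lm x (lm (a i) (rm b (c i) Θ))
  rw [rm_lm, lm_comp, lm_comp, (Set.mem_centralizer_iff.1 hx) _ (ha i)]

theorem rm_comp (b : HilbertBasis ι ℂ H) (x y : H →L[ℂ] H) (Θ : HS H ι) :
    rm b x (rm b y Θ) = rm b (x * y) Θ := by
  rw [rm_apply, rm_apply, rm_apply, J_J, lm_comp]

theorem rm_cent (b : HilbertBasis ι ℂ H) {x : H →L[ℂ] H} (hx : x ∈ Set.centralizer M) :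
    rm b x ∈ Set.centralizer (AN b M) := by
  rw [Set.mem_centralizer_iff]
  rintro _ ⟨p, a, c, ha, hc, rfl⟩
  rw [Finset.sum_mul, Finset.mul_sum]
  refine Finset.sum_congr rfl fun i _ => ?_
  ext1 Θ
  change lm (a i) (rm b (c i) (rm b x Θ)) = rm b x (lm (a i) (rm b (c i) Θ))
  rw [rm_lm, rm_comp, rm_comp, (Set.mem_centralizer_iff.1 hx) _ (hc i)]

/-- invariance for the bimodule action -/
theorem inv_AN {κ : Type*} [Fintype κ] (b : HilbertBasis ι ℂ H) {E : Submodule ℂ (Md (HS H ι) κ)}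
    (hl : ∀ a ∈ M, ∀ x ∈ E, dg (lm a) x ∈ E) (hr : ∀ c ∈ M, ∀ x ∈ E, dg (rm b c) x ∈ E) :
    Inv (AN b M) E := by
  rintro _ ⟨p, a, c, ha, hc, rfl⟩ x hx
  have : dg (∑ i, (lm (a i)).comp (rm b (c i))) x = ∑ i, dg (lm (a i)) (dg (rm b (c i)) x) := by
    apply md_ext
    intro k
    rw [dg_apply, _root_.sum_apply, md_sum_apply]
    refine Finset.sum_congr rfl fun i _ => ?_
    rw [dg_apply, dg_apply]
    rfl
  rw [this]
  exact Submodule.sum_mem _ fun i _ => hl _ (ha i) _ (hr _ (hc i) _ hx)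

end tr

end Pool.Agent.Y325.DD
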