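import Pool.Agent.Y325.DD.A5

/-!
# Right multiplications, finite rank operators, and the non-degenerate case
-/

set_option autoImplicit false
set_option linter.unusedSectionVars false
set_option linter.unnecessarySimpa false

open scoped InnerProductSpace Topology ENNReal ComplexConjugate
open Filter Finset

noncomputable section

namespace Pool.Agent.Y325.DD

variable {H ι : Type} [NormedAddCommGroup H] [InnerProductSpace ℂ H] [CompleteSpace H]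
variable {M : Set (H →L[ℂ] H)} {ξ : H}

theorem sep (h : TV M ξ) {r r' : H →L[ℂ] H} (hr : r ∈ Set.centralizer M)
    (hr' : r' ∈ Set.centralizer M) (he : r ξ = r' ξ) : r = r' := by
  apply ContinuousLinearMap.ext
  intro v
  have hc : IsClosed {x : H | r x = r' x} := isClosed_eq (by fun_prop) (by fun_prop)
  refine hc.closure_subset_iff.2 ?_ (h.dense v)
  rintro _ ⟨a, ha, rfl⟩
  change r (a ξ) = r' (a ξ)
  rw [cent_comm hr ha, cent_comm hr' ha, he]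

theorem Tr.norm_mul_right (h : Tr M ξ) {a x : H →L[ℂ] H} (ha : a ∈ M) (hx : x ∈ M) :
    ‖(x * a) ξ‖ ≤ ‖a‖ * ‖x ξ‖ := by
  have h1 := h.tv.norm_star (x * a) (h.mul_mem hx ha)
  have h2 := h.tv.norm_star x hx
  rw [← h1, ← h2, star_mul]
  change ‖(star a) ((star x) ξ)‖ ≤ _
  have := (star a).le_opNorm ((star x) ξ)
  rwa [norm_star] at this

theorem Tr.rho_exists (h : Tr M ξ) {a : H →L[ℂ] H} (ha : a ∈ M) :
    ∃ r ∈ Set.centralizer M, r ξ = a ξ := by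
  let E := Subalgebra.centralizer ℂ (Set.centralizer M)
  have hE : ∀ x : E, (x : H →L[ℂ] H) ∈ M := by
    intro x
    have := x.2
    have h2 : (x : H →L[ℂ] H) ∈ Set.centralizer (Set.centralizer M) := this
    rwa [h.dc] at h2
  have hE' : ∀ x ∈ M, x ∈ E := by
    intro x hx
    rw [← h.dc] at hx
    exact hx
  let e : E →ₗ[ℂ] H :=
    { toFun := fun x => (x : H →L[ℂ] H) ξ
      map_add' := fun x y => rfl
      map_smul' := fun c x => rfl }
  let f : E →ₗ[ℂ] H :=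
    { toFun := fun x => ((x : H →L[ℂ] H) * a) ξ
      map_add' := fun x y => rfl
      map_smul' := fun c x => rfl }
  have hd : DenseRange e := by
    intro v
    refine closure_mono ?_ (h.dense v)
    rintro _ ⟨x, hx, rfl⟩
    exact ⟨⟨x, hE' x hx⟩, rfl⟩
  have hn : ∀ x, ‖f x‖ ≤ ‖a‖ * ‖e x‖ := fun x => h.norm_mul_right ha (hE x)
  have hr : ∀ x, f.extendOfNorm e (e x) = f x :=
    fun x => LinearMap.extendOfNorm_eq hd ⟨‖a‖, hn⟩ x
  refine ⟨f.extendOfNorm e, ?_, ?_⟩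
  · rw [Set.mem_centralizer_iff]
    intro c hc
    apply ContinuousLinearMap.ext
    intro v
    change c (f.extendOfNorm e v) = f.extendOfNorm e (c v)
    have hcl : IsClosed {v : H | c (f.extendOfNorm e v) = f.extendOfNorm e (c v)} :=
      isClosed_eq (by fun_prop) (by fun_prop)
    refine hcl.closure_subset_iff.2 ?_ (h.dense v)
    rintro _ ⟨x, hx, rfl⟩
    change c (f.extendOfNorm e (x ξ)) = f.extendOfNorm e (c (x ξ))
    have e1 : x ξ = e ⟨x, hE' x hx⟩ := rfl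
    have e2 : c (x ξ) = e ⟨c * x, hE' _ (h.mul_mem hc hx)⟩ := rfl
    rw [e2, hr, e1, hr]
    rfl
  · have e1 : ξ = e ⟨1, hE' 1 h.one_mem⟩ := rfl
    conv_lhs => rw [e1]
    rw [hr]
    change (1 * a) ξ = a ξ
    rw [one_mul]

theorem Tr.rho_sa (h : Tr M ξ) {a r : H →L[ℂ] H} (ha : a ∈ M) (hs : star a = a)
    (hr : r ∈ Set.centralizer M) (he : r ξ = a ξ) : star r = r := by
  apply sep h.tv (h.tv.star_cent hr) hr
  have h1 : ∀ v, ⟪(star r) ξ, v⟫_ℂ = ⟪a ξ, v⟫_ℂ := by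
    intro v
    have hc : IsClosed {v : H | ⟪(star r) ξ, v⟫_ℂ = ⟪a ξ, v⟫_ℂ} :=
      isClosed_eq (by fun_prop) (by fun_prop)
    refine hc.closure_subset_iff.2 ?_ (h.dense v)
    rintro _ ⟨x, hx, rfl⟩
    change ⟪(star r) ξ, x ξ⟫_ℂ = ⟪a ξ, x ξ⟫_ℂ
    rw [ContinuousLinearMap.star_eq_adjoint, ContinuousLinearMap.adjoint_inner_left,
      cent_comm hr hx, he, h.swap ha hx, hs, ContinuousLinearMap.star_eq_adjoint,
      ContinuousLinearMap.adjoint_inner_left]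
  rw [he]
  exact ext_inner_right ℂ h1

/-- finite rank -/
def FR (T : H →L[ℂ] H) : Prop :=
  FiniteDimensional ℂ (LinearMap.range ((T : H →L[ℂ] H) : H →ₗ[ℂ] H))

theorem FR.zero : FR (0 : H →L[ℂ] H) := by
  unfold FR
  have : LinearMap.range ((0 : H →L[ℂ] H) : H →ₗ[ℂ] H) = ⊥ := by
    rw [eq_bot_iff]
    rintro _ ⟨x, rfl⟩
    simp
  rw [this]
  infer_instance

theorem FR.add {S T : H →L[ℂ] H} (hS : FR S) (hT : FR T) : FR (S + T) := by
  unfold FR at *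
  have h1 : LinearMap.range ((S + T : H →L[ℂ] H) : H →ₗ[ℂ] H)
      ≤ LinearMap.range (S : H →ₗ[ℂ] H) ⊔ LinearMap.range (T : H →ₗ[ℂ] H) := by
    rintro _ ⟨x, rfl⟩
    exact Submodule.add_mem_sup ⟨x, rfl⟩ ⟨x, rfl⟩
  exact Submodule.finiteDimensional_of_le h1

theorem FR.mul_left {T : H →L[ℂ] H} (a : H →L[ℂ] H) (hT : FR T) : FR (a * T) := by
  unfold FR at *
  have h1 : LinearMap.range ((a * T : H →L[ℂ] H) : H →ₗ[ℂ] H)
      ≤ (LinearMap.range (T : H →ₗ[ℂ] H)).map (a : H →ₗ[ℂ] H) := by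
    rintro _ ⟨x, rfl⟩
    exact ⟨T x, ⟨x, rfl⟩, rfl⟩
  exact Submodule.finiteDimensional_of_le h1

theorem FR.mul_right {T : H →L[ℂ] H} (a : H →L[ℂ] H) (hT : FR T) : FR (T * a) := by
  unfold FR at *
  have h1 : LinearMap.range ((T * a : H →L[ℂ] H) : H →ₗ[ℂ] H)
      ≤ LinearMap.range (T : H →ₗ[ℂ] H) := by
    rintro _ ⟨x, rfl⟩
    exact ⟨a x, rfl⟩
  exact Submodule.finiteDimensional_of_le h1

theorem FR.smul {T : H →L[ℂ] H} (c : ℂ) (hT : FR T) : FR (c • T) := by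
  have := hT.mul_left (c • 1)
  rwa [smul_mul_assoc, one_mul] at this

theorem FR_rk (u v : H) : FR (rk u v) := by
  unfold FR
  have h1 : LinearMap.range ((rk u v : H →L[ℂ] H) : H →ₗ[ℂ] H)
      ≤ Submodule.span ℂ {u} := by
    rintro _ ⟨x, rfl⟩
    change rk u v x ∈ _
    rw [rk_apply]
    exact Submodule.smul_mem _ _ (Submodule.mem_span_singleton_self u)
  exact Submodule.finiteDimensional_of_le h1

theorem FR.sum {τ : Type*} (s : Finset τ) {f : τ → (H →L[ℂ] H)} (hf : ∀ i ∈ s, FR (f i)) :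
    FR (∑ i ∈ s, f i) := by
  classical
  induction s using Finset.induction_on with
  | empty => simpa using FR.zero
  | insert a s ha ih =>
    rw [Finset.sum_insert ha]
    exact (hf a (Finset.mem_insert_self a s)).add
      (ih fun i hi => hf i (Finset.mem_insert_of_mem hi))

theorem FR.vec (b : HilbertBasis ι ℂ H) {T : H →L[ℂ] H} (hT : FR T) : ∃ Θ : HS H ι, op b Θ = T := by
  have : FiniteDimensional ℂ (LinearMap.range ((T : H →L[ℂ] H) : H →ₗ[ℂ] H)) := hT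
  let e := stdOrthonormalBasis ℂ (LinearMap.range ((T : H →L[ℂ] H) : H →ₗ[ℂ] H))
  refine ⟨∑ i, th b (e i : H) (ContinuousLinearMap.adjoint T (e i : H)), ?_⟩
  rw [op_sum]
  apply ContinuousLinearMap.ext
  intro x
  rw [_root_.sum_apply]
  have h1 := e.sum_repr' ⟨T x, ⟨x, rfl⟩⟩
  have h2 := congrArg Subtype.val h1
  change _ = T x
  rw [show T x = ((⟨T x, ⟨x, rfl⟩⟩ : LinearMap.range ((T : H →L[ℂ] H) : H →ₗ[ℂ] H)) : H) from rfl,
    ← h2, AddSubmonoidClass.coe_finsetSum]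
  refine Finset.sum_congr rfl fun i _ => ?_
  rw [op_th, rk_apply, ContinuousLinearMap.adjoint_inner_left]
  rfl

/-- the cost -/
def cost {m : ℕ} (b : HilbertBasis ι ℂ H) (ξ : H) (T : Fin m → (H →L[ℂ] H)) (j : Fin m) : ℝ :=
  ∑ k : Fin m, ∑' i : ι, ‖(T k) (b i) - (if k = j then ⟪ξ, b i⟫_ℂ • ξ else 0)‖ ^ 2

theorem cost_eq {m : ℕ} (b : HilbertBasis ι ℂ H) (ξ : H) (T : Fin m → (H →L[ℂ] H)) (j : Fin m)
    (x : Md (HS H ι) (Fin m)) (hx : ∀ k, op b (x k) = T k) :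
    cost b ξ T j = ‖x - inc j (th b ξ ξ)‖ ^ 2 := by
  classical
  rw [PiLp.norm_sq_eq_of_L2]
  unfold cost
  refine Finset.sum_congr rfl fun k _ => ?_
  rw [hs_norm_sq b]
  refine tsum_congr fun i => ?_
  have e1 : (x - inc j (th b ξ ξ)) k = x k - (if k = j then th b ξ ξ else 0) := by
    rw [PiLp.sub_apply, inc_apply]
    by_cases hk : k = j
    · rw [if_pos hk, if_pos hk]
    · rw [if_neg hk, if_neg hk]
  rw [e1, op_sub, hx]
  by_cases hk : k = j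
  · rw [if_pos hk, if_pos hk, op_th]
    change _ = ‖T k (b i) - rk ξ ξ (b i)‖ ^ 2
    rw [rk_apply]
  · rw [if_neg hk, if_neg hk, op_zero]
    rfl

/-- the constraint set -/
def KK (M : Set (H →L[ℂ] H)) (ξ : H) {m : ℕ} (z : Fin m → (H →L[ℂ] H))
    (T : Fin m → (H →L[ℂ] H)) : Prop :=
  (∀ k, FiniteDimensional ℂ (LinearMap.range ((T k : H →L[ℂ] H) : H →ₗ[ℂ] H))) ∧
    ∃ r : Fin m → (H →L[ℂ] H),
      (∀ k, r k ∈ Set.centralizer M ∧ r k ξ = z k ξ) ∧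
      ∑ k, (T k * r k - r k * T k) = 0

theorem KK.vec (b : HilbertBasis ι ℂ H) {m : ℕ} {z T : Fin m → (H →L[ℂ] H)} (hT : KK M ξ z T) :
    ∃ x : Md (HS H ι) (Fin m), ∀ k, op b (x k) = T k := by
  choose f hf using fun k => FR.vec b (hT.1 k)
  exact ⟨WithLp.toLp 2 f, fun k => hf k⟩

theorem KK.lr (h : Tr M ξ) {m : ℕ} {z T : Fin m → (H →L[ℂ] H)} (hT : KK M ξ z T)
    {a c : H →L[ℂ] H} (ha : a ∈ M) (hc : c ∈ M) : KK M ξ z (fun k => a * T k * c) := by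
  obtain ⟨h1, r, hr, h2⟩ := hT
  refine ⟨fun k => FR.mul_right c (FR.mul_left a (h1 k)), r, hr, ?_⟩
  have : ∀ k, a * T k * c * r k - r k * (a * T k * c) = a * (T k * r k - r k * T k) * c := by
    intro k
    have e1 := (Set.mem_centralizer_iff.1 (hr k).1) c hc
    have e2 := (Set.mem_centralizer_iff.1 (hr k).1) a ha
    rw [mul_sub, sub_mul, mul_assoc (a * T k), e1, ← mul_assoc (a * T k), ← mul_assoc (r k),
      ← mul_assoc (r k), ← e2]
    noncomm_ring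
  rw [Finset.sum_congr rfl fun k _ => this k, ← Finset.sum_mul, ← Finset.mul_sum, h2]
  simp

theorem KK.smul {m : ℕ} {z T : Fin m → (H →L[ℂ] H)} (c : ℂ) (hT : KK M ξ z T) :
    KK M ξ z (fun k => c • T k) := by
  obtain ⟨h1, r, hr, h2⟩ := hT
  refine ⟨fun k => FR.smul c (h1 k), r, hr, ?_⟩
  have : ∀ k, c • T k * r k - r k * (c • T k) = c • (T k * r k - r k * T k) := by
    intro k
    rw [smul_mul_assoc, mul_smul_comm, smul_sub]
  rw [Finset.sum_congr rfl fun k _ => this k, ← Finset.smul_sum, h2, smul_zero]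

theorem KK.zero (h : Tr M ξ) {m : ℕ} {z : Fin m → (H →L[ℂ] H)} (hz : ∀ k, z k ∈ M) :
    KK M ξ z (fun _ => 0) := by
  choose r hr using fun k => h.rho_exists (hz k)
  exact ⟨fun k => FR.zero, r, fun k => hr k, by simp⟩

/-- a small real inequality -/
theorem quad_zero {V : Type*} [NormedAddCommGroup V] [InnerProductSpace ℂ V] {x p : V}
    (hp : ‖p‖ = 1) (h : ∀ c : ℂ, 1 ≤ ‖c • x - p‖ ^ 2) : ⟪x, p⟫_ℂ = 0 := by
  by_contra hw
  set w := ⟪x, p⟫_ℂ with hwdef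
  have hw0 : 0 < ‖w‖ ^ 2 := by positivity
  have hx0 : 0 < ‖x‖ ^ 2 := by
    have : x ≠ 0 := by
      rintro rfl
      apply hw
      rw [hwdef, inner_zero_left]
    positivity
  have key : ∀ t : ℝ, 0 ≤ t ^ 2 * ‖w‖ ^ 2 * ‖x‖ ^ 2 - 2 * t * ‖w‖ ^ 2 := by
    intro t
    have h1 := h ((t : ℂ) * w)
    rw [norm_sub_sq (𝕜 := ℂ), norm_smul, hp] at h1
    have e1 : RCLike.re ⟪((t : ℂ) * w) • x, p⟫_ℂ = t * ‖w‖ ^ 2 := by
      rw [inner_smul_left, ← hwdef]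
      have : conj ((t : ℂ) * w) * w = ((t * ‖w‖ ^ 2 : ℝ) : ℂ) := by
        rw [map_mul, Complex.conj_ofReal, mul_assoc, Complex.conj_mul']
        push_cast
        ring
      rw [this]
      exact Complex.ofReal_re _
    have e2 : ‖(t : ℂ) * w‖ = |t| * ‖w‖ := by
      rw [norm_mul, Complex.norm_real, Real.norm_eq_abs]
    rw [e1, e2] at h1
    have e3 : (|t| * ‖w‖ * ‖x‖) ^ 2 = t ^ 2 * ‖w‖ ^ 2 * ‖x‖ ^ 2 := by
      rw [mul_pow, mul_pow, sq_abs]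
    rw [e3] at h1
    linarith
  have h2 := key (1 / ‖x‖ ^ 2)
  have e4 : (1 / ‖x‖ ^ 2) ^ 2 * ‖w‖ ^ 2 * ‖x‖ ^ 2 - 2 * (1 / ‖x‖ ^ 2) * ‖w‖ ^ 2
      = - (‖w‖ ^ 2 / ‖x‖ ^ 2) := by
    field_simp
    ring
  rw [e4] at h2
  have : 0 < ‖w‖ ^ 2 / ‖x‖ ^ 2 := by positivity
  linarith

theorem cost_zero {m : ℕ} (b : HilbertBasis ι ℂ H) (hξ : ‖ξ‖ = 1) (j : Fin m) :
    cost b ξ (fun _ => (0 : H →L[ℂ] H)) j = 1 := by
  rw [cost_eq b ξ _ j 0 (fun k => op_zero b), zero_sub, norm_neg, norm_inc, th_norm, hξ]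
  norm_num

theorem cost_nonneg {m : ℕ} (b : HilbertBasis ι ℂ H) (T : Fin m → (H →L[ℂ] H)) (j : Fin m) :
    0 ≤ cost b ξ T j := by
  unfold cost
  exact Finset.sum_nonneg fun _ _ => tsum_nonneg fun _ => sq_nonneg _

theorem inf_le {m : ℕ} (b : HilbertBasis ι ℂ H) {z T : Fin m → (H →L[ℂ] H)} (hT : KK M ξ z T)
    (j : Fin m) : ⨅ T : {T : Fin m → (H →L[ℂ] H) // KK M ξ z T}, cost b ξ T.1 j ≤ cost b ξ T j := by
  have hb : BddBelow (Set.range fun T : {T : Fin m → (H →L[ℂ] H) // KK M ξ z T} =>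
      cost b ξ T.1 j) := ⟨0, by rintro _ ⟨T, rfl⟩; exact cost_nonneg b _ j⟩
  exact ciInf_le hb ⟨T, hT⟩

/-- the non-degenerate case: no nonzero finite rank solution -/
theorem inj_of_full (b : HilbertBasis ι ℂ H) (h : Tr M ξ) {n : ℕ} {y : Fin n → (H →L[ℂ] H)}
    (hy : ∀ k, y k ∈ M)
    (hfull : ∑ j : Fin n, ⨅ T : {T : Fin n → (H →L[ℂ] H) // KK M ξ y T}, cost b ξ T.1 j = n)
    {T : Fin n → (H →L[ℂ] H)} (hT : KK M ξ y T) (j : Fin n) : T j = 0 := by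
  have hle : ∀ j : Fin n, ⨅ T : {T : Fin n → (H →L[ℂ] H) // KK M ξ y T}, cost b ξ T.1 j ≤ 1 := by
    intro j
    have := inf_le b (KK.zero h hy) j
    rwa [cost_zero b h.norm_one] at this
  have heq : ∀ j : Fin n, 1 ≤ ⨅ T : {T : Fin n → (H →L[ℂ] H) // KK M ξ y T}, cost b ξ T.1 j := by
    by_contra hcon
    push Not at hcon
    obtain ⟨j, hj⟩ := hcon
    have : ∑ j : Fin n, ⨅ T : {T : Fin n → (H →L[ℂ] H) // KK M ξ y T}, cost b ξ T.1 j
        < ∑ _j : Fin n, (1 : ℝ) :=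
      Finset.sum_lt_sum (fun j _ => hle j) ⟨j, Finset.mem_univ _, hj⟩
    rw [hfull] at this
    simp at this
  have hone : ∀ (j : Fin n) (T : Fin n → (H →L[ℂ] H)), KK M ξ y T → ⟪T j ξ, ξ⟫_ℂ = 0 := by
    intro j T hT
    obtain ⟨x, hx⟩ := hT.vec b
    have h1 : ⟪x, inc j (th b ξ ξ)⟫_ℂ = 0 := by
      apply quad_zero
      · rw [norm_inc, th_norm, h.norm_one, one_mul]
      · intro c
        rw [← cost_eq b ξ (fun k => c • T k) j (c • x) (fun k => by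
          rw [PiLp.smul_apply, op_smul, hx])]
        exact (heq j).trans (inf_le b (hT.smul c) j)
    rw [inner_inc_right, ← op_inner, hx] at h1
    exact h1
  apply ContinuousLinearMap.ext
  intro v
  refine ext_inner_right ℂ fun w => ?_
  have hc1 : ∀ c ∈ M, ∀ w, ⟪T j (c ξ), w⟫_ℂ = 0 := by
    intro c hc w
    have hcl : IsClosed {w : H | ⟪T j (c ξ), w⟫_ℂ = 0} := isClosed_eq (by fun_prop) (by fun_prop)
    refine hcl.closure_subset_iff.2 ?_ (h.dense w)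
    rintro _ ⟨a, ha, rfl⟩
    change ⟪T j (c ξ), a ξ⟫_ℂ = 0
    rw [← ContinuousLinearMap.adjoint_inner_left, ← ContinuousLinearMap.star_eq_adjoint]
    exact hone j _ (hT.lr h (h.star_mem a ha) hc)
  have hcl : IsClosed {v : H | ⟪T j v, w⟫_ℂ = 0} := isClosed_eq (by fun_prop) (by fun_prop)
  have : ⟪T j v, w⟫_ℂ = 0 := by
    refine hcl.closure_subset_iff.2 ?_ (h.dense v)
    rintro _ ⟨c, hc, rfl⟩
    exact hc1 c hc w
  rw [this]
  simp

/-- injectivity of the commutator map on finite rank tuples -/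
def Inj {n : ℕ} (ρ : Fin n → (H →L[ℂ] H)) : Prop :=
  ∀ S : Fin n → (H →L[ℂ] H), (∀ k, FR (S k)) → ∑ k, (S k * ρ k - ρ k * S k) = 0 → ∀ k, S k = 0

theorem Inj_of_full (b : HilbertBasis ι ℂ H) (h : Tr M ξ) {n : ℕ} {y : Fin n → (H →L[ℂ] H)}
    (hy : ∀ k, y k ∈ M)
    (hfull : ∑ j : Fin n, ⨅ T : {T : Fin n → (H →L[ℂ] H) // KK M ξ y T}, cost b ξ T.1 j = n)
    {ρ : Fin n → (H →L[ℂ] H)} (hρ : ∀ k, ρ k ∈ Set.centralizer M ∧ ρ k ξ = y k ξ) : Inj ρ :=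
  fun _ hS h0 j => inj_of_full b h hy hfull ⟨hS, ρ, hρ, h0⟩ j

end Pool.Agent.Y325.DD
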