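import Pool.Agent.Y325.DD.A6

/-!
# Integrality of the dimension of kernels of linear pencils
-/

set_option autoImplicit false
set_option linter.unusedSectionVars false
set_option linter.unnecessarySimpa false

open scoped InnerProductSpace Topology ENNReal ComplexConjugate
open Filter Finset

noncomputable section

namespace Pool.Agent.Y325.DD

variable {H : Type} [NormedAddCommGroup H] [InnerProductSpace ℂ H] [CompleteSpace H]
variable {M : Set (H →L[ℂ] H)} {ξ : H} {n : ℕ}

/-- the generators together with the identity -/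
def rr (ρ : Fin n → (H →L[ℂ] H)) (o : Option (Fin n)) : H →L[ℂ] H := o.elim 1 ρ

theorem rr_none (ρ : Fin n → (H →L[ℂ] H)) (x : H) : rr ρ none x = x := rfl
theorem rr_some (ρ : Fin n → (H →L[ℂ] H)) (i : Fin n) (x : H) : rr ρ (some i) x = ρ i x := rfl

theorem rr_cent {ρ : Fin n → (H →L[ℂ] H)} (hρ : ∀ k, ρ k ∈ Set.centralizer M)
    (o : Option (Fin n)) : rr ρ o ∈ Set.centralizer M := by
  cases o with
  | none => exact Set.one_mem_centralizer
  | some i => exact hρ i

section pencil

variable {κ σ : Type} [Fintype κ] [Fintype σ]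

/-- a linear pencil -/
def pen (ρ : Fin n → (H →L[ℂ] H)) (c : Option (Fin n) → σ → κ → ℂ) : Md H κ →L[ℂ] Md H σ :=
  mt (fun a b => ∑ o, c o a b • rr ρ o)

theorem pen_apply (ρ : Fin n → (H →L[ℂ] H)) (c : Option (Fin n) → σ → κ → ℂ) (x : Md H κ) (a : σ) :
    pen ρ c x a = ∑ b, ∑ o, c o a b • rr ρ o (x b) := by
  unfold pen
  rw [mt_apply]
  refine Finset.sum_congr rfl fun b _ => ?_
  rw [_root_.sum_apply]
  rfl

theorem pen_lin {ρ : Fin n → (H →L[ℂ] H)} (hρ : ∀ k, ρ k ∈ Set.centralizer M)
    (c : Option (Fin n) → σ → κ → ℂ) : Lin M (pen ρ c) :=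
  lin_mt fun _ _ => cent_sum _ _ fun o _ => cent_smul _ (rr_cent hρ o)

/-- scalar matrices -/
def sc {V : Type*} [NormedAddCommGroup V] [InnerProductSpace ℂ V] [CompleteSpace V]
    (s : σ → κ → ℂ) : Md V κ →L[ℂ] Md V σ :=
  mt (fun a b => s a b • (1 : V →L[ℂ] V))

theorem sc_apply {V : Type*} [NormedAddCommGroup V] [InnerProductSpace ℂ V] [CompleteSpace V]
    (s : σ → κ → ℂ) (x : Md V κ) (a : σ) : sc s x a = ∑ b, s a b • x b := by
  unfold sc
  rw [mt_apply]
  rfl

theorem sc_lin {V : Type*} [NormedAddCommGroup V] [InnerProductSpace ℂ V] [CompleteSpace V]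
    {𝓐 : Set (V →L[ℂ] V)} (s : σ → κ → ℂ) : Lin 𝓐 (sc s : Md V κ →L[ℂ] Md V σ) :=
  lin_mt fun _ _ => cent_smul _ Set.one_mem_centralizer

/-- the slices vanish -/
theorem slices {ρ : Fin n → (H →L[ℂ] H)} (hI : Inj ρ) (c : Option (Fin n) → σ → κ → ℂ)
    {t : Md H κ} (ht : pen ρ c t = 0) {f : Md H σ} (hf : ∀ v, ⟪f, pen ρ c v⟫_ℂ = 0)
    (o : Option (Fin n)) (u : H) : ∑ a, ∑ b, (c o a b * ⟪f a, u⟫_ℂ) • t b = 0 := by
  classical
  set S : Option (Fin n) → (H →L[ℂ] H) := fun o => ∑ a, ∑ b, c o a b • rk (t b) (f a) with hS
  have hSa : ∀ o x, S o x = ∑ a, ∑ b, (c o a b * ⟪f a, x⟫_ℂ) • t b := by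
    intro o x
    rw [hS]
    simp only [_root_.sum_apply]
    refine Finset.sum_congr rfl fun a _ => Finset.sum_congr rfl fun b _ => ?_
    change c o a b • rk (t b) (f a) x = _
    rw [rk_apply, smul_smul]
  have h1 : ∑ o, rr ρ o * S o = 0 := by
    apply ContinuousLinearMap.ext
    intro x
    rw [_root_.sum_apply]
    change ∑ o, rr ρ o (S o x) = 0
    have e1 : ∀ a, ⟪f a, x⟫_ℂ • (pen ρ c t) a = 0 := by
      intro a
      rw [ht, PiLp.zero_apply, smul_zero]
    have e2 : ∑ a, ⟪f a, x⟫_ℂ • (pen ρ c t) a = ∑ o, rr ρ o (S o x) := by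
      simp only [hSa, pen_apply, map_sum, map_smul, Finset.smul_sum, smul_smul]
      rw [Finset.sum_comm (s := (univ : Finset (Option (Fin n))))]
      refine Finset.sum_congr rfl fun a _ => ?_
      rw [Finset.sum_comm (s := (univ : Finset (Option (Fin n))))]
      refine Finset.sum_congr rfl fun b _ => Finset.sum_congr rfl fun o _ => ?_
      rw [mul_comm]
    rw [← e2]
    exact Finset.sum_eq_zero fun a _ => e1 a
  have h2 : ∑ o, S o * rr ρ o = 0 := by
    apply ContinuousLinearMap.ext
    intro x
    rw [_root_.sum_apply]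
    change ∑ o, S o (rr ρ o x) = 0
    have e1 : ∀ b, ⟪f, pen ρ c (inc b x)⟫_ℂ = ∑ o, ∑ a, c o a b * ⟪f a, rr ρ o x⟫_ℂ := by
      intro b
      rw [md_inner, Finset.sum_comm]
      refine Finset.sum_congr rfl fun a _ => ?_
      rw [pen_apply, Finset.sum_eq_single b]
      · rw [inner_sum]
        refine Finset.sum_congr rfl fun o _ => ?_
        rw [inc_apply, if_pos rfl, inner_smul_right]
      · intro b' _ hb'
        refine Finset.sum_eq_zero fun o _ => ?_
        rw [inc_apply, if_neg hb', map_zero, smul_zero]
      · intro h; exact absurd (Finset.mem_univ _) h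
    have e2 : ∑ o, S o (rr ρ o x) = ∑ b, (∑ o, ∑ a, c o a b * ⟪f a, rr ρ o x⟫_ℂ) • t b := by
      simp only [hSa, Finset.sum_smul]
      rw [Finset.sum_comm (s := (univ : Finset κ))]
      refine Finset.sum_congr rfl fun o _ => ?_
      rw [Finset.sum_comm]
    rw [e2]
    refine Finset.sum_eq_zero fun b _ => ?_
    rw [← e1, hf, zero_smul]
  have h3 : ∑ i : Fin n, (S (some i) * ρ i - ρ i * S (some i)) = 0 := by
    rw [Fintype.sum_option] at h1 h2
    rw [Finset.sum_sub_distrib]
    have e1 : rr ρ none * S none = S none := one_mul _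
    have e2 : S none * rr ρ none = S none := mul_one _
    rw [e1] at h1
    rw [e2] at h2
    have e3 : ∑ i : Fin n, S (some i) * rr ρ (some i) = ∑ i : Fin n, rr ρ (some i) * S (some i) := by
      rw [← h1] at h2
      exact add_left_cancel h2
    exact sub_eq_zero.2 e3
  have h4 : ∀ i : Fin n, S (some i) = 0 := by
    apply hI _ _ h3
    intro i
    exact FR.sum _ fun a _ => FR.sum _ fun b _ => FR.smul _ (FR_rk _ _)
  have h5 : S none = 0 := by
    rw [Fintype.sum_option] at h1
    have e1 : rr ρ none * S none = S none := one_mul _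
    rw [e1, Finset.sum_eq_zero, add_zero] at h1
    · exact h1
    · intro i _
      rw [h4 i, mul_zero]
  rw [← hSa]
  cases o with
  | none => rw [h5]; rfl
  | some i => rw [h4 i]; rfl

end pencil

/-- integrality -/
theorem pen_int (h : TV M ξ) {ρ : Fin n → (H →L[ℂ] H)} (hρ : ∀ k, ρ k ∈ Set.centralizer M)
    (hI : Inj ρ) : ∀ (N : ℕ) (κ σ : Type) [Fintype κ] [Fintype σ],
    Fintype.card κ + Fintype.card σ = N → ∀ c : Option (Fin n) → σ → κ → ℂ,
    ∃ z : ℤ, dm ξ (LinearMap.ker (pen ρ c : Md H κ →ₗ[ℂ] Md H σ)) = z := by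
  classical
  intro N
  induction N using Nat.strong_induction_on with
  | _ N ih =>
  intro κ σ _ _ hN c
  by_cases hk : LinearMap.ker (ContinuousLinearMap.adjoint (pen ρ c) : Md H σ →ₗ[ℂ] Md H κ) = ⊥
  · have h1 := index_thm h (pen_lin hρ c)
    rw [hk, dm_bot, add_zero] at h1
    refine ⟨(Fintype.card κ : ℤ) - Fintype.card σ, ?_⟩
    push_cast
    linarith
  · obtain ⟨f, hf, hf0⟩ := (Submodule.ne_bot_iff _).1 hk
    have hf' : ∀ v, ⟪f, pen ρ c v⟫_ℂ = 0 := by
      intro v
      rw [← ContinuousLinearMap.adjoint_inner_left]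
      have : ContinuousLinearMap.adjoint (pen ρ c) f = 0 := hf
      rw [this, inner_zero_left]
    obtain ⟨a0, ha0⟩ : ∃ a0, f a0 ≠ 0 := by
      by_contra hcon
      push Not at hcon
      exact hf0 (md_ext hcon)
    set y : σ → ℂ := fun a => ⟪f a, f a0⟫_ℂ with hy
    have hy0 : y a0 ≠ 0 := by
      rw [hy]
      simpa using ha0
    set γ : Option (Fin n) → κ → ℂ := fun o b => ∑ a, c o a b * y a with hγ
    have hrel : ∀ t, pen ρ c t = 0 → ∀ o, ∑ b, γ o b • t b = 0 := by
      intro t ht o
      have := slices hI c ht hf' o (f a0)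
      rw [Finset.sum_comm] at this
      simpa only [hγ, Finset.sum_smul] using this
    by_cases hz : ∀ o b, γ o b = 0
    · -- drop a row
      let σ' := {a : σ // a ≠ a0}
      let c' : Option (Fin n) → σ' → κ → ℂ := fun o a b => c o a.1 b
      have hcard : Fintype.card σ' < Fintype.card σ :=
        Fintype.card_subtype_lt (x := a0) (by simp)
      have hker : LinearMap.ker (pen ρ c : Md H κ →ₗ[ℂ] Md H σ)
          = LinearMap.ker (pen ρ c' : Md H κ →ₗ[ℂ] Md H σ') := by
        ext x
        constructor
        · intro hx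
          have hx' : pen ρ c x = 0 := hx
          change pen ρ c' x = 0
          apply md_ext
          intro a
          have := congrArg (fun v : Md H σ => v a.1) hx'
          simp only [pen_apply] at this ⊢
          exact this
        · intro hx
          have hx' : pen ρ c' x = 0 := hx
          change pen ρ c x = 0
          have e1 : ∀ a, a ≠ a0 → pen ρ c x a = 0 := by
            intro a ha
            have := congrArg (fun v : Md H σ' => v ⟨a, ha⟩) hx'
            simp only [pen_apply] at this ⊢
            exact this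
          have e2 : ∑ a, y a • pen ρ c x a = 0 := by
            simp only [pen_apply, Finset.smul_sum, smul_smul]
            rw [Finset.sum_comm]
            refine Finset.sum_eq_zero fun b _ => ?_
            rw [Finset.sum_comm]
            refine Finset.sum_eq_zero fun o _ => ?_
            rw [← Finset.sum_smul]
            have := hz o b
            simp only [hγ] at this
            rw [Finset.sum_congr rfl fun a _ => mul_comm (y a) (c o a b), this, zero_smul]
          rw [Finset.sum_eq_single a0 (fun a _ ha => by rw [e1 a ha, smul_zero])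
            (fun h => absurd (Finset.mem_univ _) h)] at e2
          apply md_ext
          intro a
          by_cases ha : a = a0
          · rw [ha]
            exact (smul_eq_zero.1 e2).resolve_left hy0
          · exact e1 a ha
      obtain ⟨z, hz'⟩ := ih (Fintype.card κ + Fintype.card σ') (by omega) κ σ' rfl c'
      exact ⟨z, by rw [hker]; exact hz'⟩
    · -- eliminate a variable
      push Not at hz
      obtain ⟨o0, b0, hb0⟩ := hz
      let κ' := {b : κ // b ≠ b0}
      have hcard : Fintype.card κ' < Fintype.card κ :=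
        Fintype.card_subtype_lt (x := b0) (by simp)
      let q : κ' → ℂ := fun b => -(γ o0 b.1 / γ o0 b0)
      let c' : Option (Fin n) → σ → κ' → ℂ := fun o a b => c o a b.1 + q b * c o a b0
      let s : κ → κ' → ℂ := fun b b' => if b = b0 then q b' else if b = b'.1 then 1 else 0
      have hs0 : ∀ x : Md H κ', sc s x b0 = ∑ b', q b' • x b' := by
        intro x
        rw [sc_apply]
        refine Finset.sum_congr rfl fun b' _ => ?_
        simp only [s]
        rw [if_pos trivial]
      have hs1 : ∀ (x : Md H κ') (b : κ'), sc s x b.1 = x b := by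
        intro x b
        rw [sc_apply, Finset.sum_eq_single b]
        · simp only [s]
          rw [if_neg b.2, if_pos trivial, one_smul]
        · intro b' _ hb'
          simp only [s]
          rw [if_neg b.2, if_neg, zero_smul]
          intro he
          exact hb' (Subtype.ext he.symm)
        · intro h; exact absurd (Finset.mem_univ _) h
      have hsum : ∀ F : κ → H, ∑ b, F b = F b0 + ∑ b' : κ', F b'.1 := by
        intro F
        rw [← Finset.add_sum_erase _ _ (Finset.mem_univ b0)]
        congr 1
        refine (Finset.sum_subtype (univ.erase b0) (p := fun b => b ≠ b0) ?_ F)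
        intro b
        simp
      have hpc : ∀ x : Md H κ', pen ρ c (sc s x) = pen ρ c' x := by
        intro x
        apply md_ext
        intro a
        rw [pen_apply, pen_apply, hsum, hs0]
        simp only [hs1]
        have e1 : ∑ o, c o a b0 • rr ρ o (∑ b', q b' • x b')
            = ∑ b' : κ', ∑ o, (q b' * c o a b0) • rr ρ o (x b') := by
          rw [Finset.sum_comm]
          refine Finset.sum_congr rfl fun o _ => ?_
          rw [map_sum, Finset.smul_sum]
          refine Finset.sum_congr rfl fun b' _ => ?_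
          rw [map_smul, smul_smul, mul_comm]
        rw [e1, ← Finset.sum_add_distrib]
        refine Finset.sum_congr rfl fun b' _ => ?_
        rw [← Finset.sum_add_distrib]
        refine Finset.sum_congr rfl fun o _ => ?_
        simp only [c']
        rw [← add_smul, add_comm]
      have hker : LinearMap.ker (pen ρ c : Md H κ →ₗ[ℂ] Md H σ)
          = (LinearMap.ker (pen ρ c' : Md H κ' →ₗ[ℂ] Md H σ)).map
            ((sc s : Md H κ' →L[ℂ] Md H κ) : Md H κ' →ₗ[ℂ] Md H κ) := by
        ext t
        constructor
        · intro ht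
          have ht' : pen ρ c t = 0 := ht
          let x : Md H κ' := WithLp.toLp 2 (fun b => t b.1)
          have hx : sc s x = t := by
            apply md_ext
            intro b
            by_cases hb : b = b0
            · rw [hb, hs0]
              have h1 := hrel t ht' o0
              rw [hsum] at h1
              have h2 : t b0 = -((γ o0 b0)⁻¹ • ∑ b' : κ', γ o0 b'.1 • t b'.1) := by
                have h3 : γ o0 b0 • t b0 = -∑ b' : κ', γ o0 b'.1 • t b'.1 :=
                  eq_neg_of_add_eq_zero_left h1
                rw [← smul_neg, ← h3, smul_smul, inv_mul_cancel₀ hb0, one_smul]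
              rw [h2, Finset.smul_sum, ← Finset.sum_neg_distrib]
              refine Finset.sum_congr rfl fun b' _ => ?_
              simp only [q]
              rw [smul_smul, ← neg_smul]
              congr 1
              field_simp
            · exact hs1 x ⟨b, hb⟩
          refine ⟨x, ?_, hx⟩
          change pen ρ c' x = 0
          rw [← hpc, hx, ht']
        · rintro ⟨x, hx, rfl⟩
          have hx' : pen ρ c' x = 0 := hx
          change pen ρ c (sc s x) = 0
          rw [hpc, hx']
      obtain ⟨z, hz'⟩ := ih (Fintype.card κ' + Fintype.card σ) (by omega) κ' σ rfl c'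
      refine ⟨z, ?_⟩
      rw [hker, dm_map_inj h (sc_lin s) (Inv.ker (pen_lin hρ c')) (pen ρ c').isClosed_ker, hz']
      intro x _ hx
      apply md_ext
      intro b
      rw [← hs1 x b, hx]
      rfl

end Pool.Agent.Y325.DD
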