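import Pool.Agent.Y325.DD.A7

/-!
# Rational subspaces: solution spaces of polynomial conditions
-/

set_option autoImplicit false
set_option linter.unusedSectionVars false
set_option linter.unnecessarySimpa false

open scoped InnerProductSpace Topology ENNReal ComplexConjugate
open Filter Finset

noncomputable section

namespace Pool.Agent.Y325.DD

variable {H : Type} [NormedAddCommGroup H] [InnerProductSpace ℂ H] [CompleteSpace H]
variable {M : Set (H →L[ℂ] H)} {ξ : H} {n : ℕ}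

/-- restriction of coordinates -/
def restr {V : Type*} [NormedAddCommGroup V] [InnerProductSpace ℂ V]
    {κ N : Type*} [Fintype κ] [Fintype N] (e : κ → N) (x : Md V N) : Md V κ :=
  WithLp.toLp 2 (fun k => x (e k))

theorem restr_apply {V : Type*} [NormedAddCommGroup V] [InnerProductSpace ℂ V]
    {κ N : Type*} [Fintype κ] [Fintype N] (e : κ → N) (x : Md V N) (k : κ) :
    restr e x k = x (e k) := rfl

theorem sc_restr {V : Type*} [NormedAddCommGroup V] [InnerProductSpace ℂ V] [CompleteSpace V]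
    {κ N : Type} [Fintype κ] [Fintype N] [DecidableEq N] (e : κ → N) (x : Md V N) :
    sc (fun k m => if e k = m then (1 : ℂ) else 0) x = restr e x := by
  apply md_ext
  intro k
  rw [sc_apply, Finset.sum_eq_single (e k)]
  · rw [if_pos rfl, one_smul, restr_apply]
  · intro m _ hm
    rw [if_neg (Ne.symm hm), zero_smul]
  · intro h; exact absurd (Finset.mem_univ _) h

/-- pencil-like functionals -/
def PL (ρ : Fin n → (H →L[ℂ] H)) {N : Type} [Fintype N] (φ : Md H N → H) : Prop :=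
  ∃ c : Option (Fin n) → N → ℂ, ∀ x, φ x = ∑ b, ∑ o, c o b • rr ρ o (x b)

section pl

variable {ρ : Fin n → (H →L[ℂ] H)} {N : Type} [Fintype N]

theorem PL.rr_coord (o : Option (Fin n)) (b : N) : PL ρ (fun x : Md H N => rr ρ o (x b)) := by
  classical
  refine ⟨fun o' b' => if o' = o ∧ b' = b then 1 else 0, fun x => ?_⟩
  symm
  rw [Finset.sum_eq_single b]
  · rw [Finset.sum_eq_single o]
    · beta_reduce
      rw [if_pos ⟨rfl, rfl⟩, one_smul]
    · intro o' _ ho'
      beta_reduce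
      rw [if_neg (fun h => ho' h.1), zero_smul]
    · intro h; exact absurd (Finset.mem_univ _) h
  · intro b' _ hb'
    refine Finset.sum_eq_zero fun o' _ => ?_
    beta_reduce
    rw [if_neg (fun h => hb' h.2), zero_smul]
  · intro h; exact absurd (Finset.mem_univ _) h

theorem PL.coord (b : N) : PL ρ (fun x : Md H N => x b) := PL.rr_coord none b

theorem PL.rho (i : Fin n) (b : N) : PL ρ (fun x : Md H N => ρ i (x b)) := PL.rr_coord (some i) b

theorem PL.zero : PL ρ (fun _ : Md H N => (0 : H)) := ⟨fun _ _ => 0, fun x => by simp⟩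

theorem PL.add {φ ψ : Md H N → H} (h1 : PL ρ φ) (h2 : PL ρ ψ) : PL ρ (fun x => φ x + ψ x) := by
  obtain ⟨c, hc⟩ := h1
  obtain ⟨d, hd⟩ := h2
  refine ⟨fun o b => c o b + d o b, fun x => ?_⟩
  simp only [hc, hd, add_smul, Finset.sum_add_distrib]

theorem PL.smul {φ : Md H N → H} (s : ℂ) (h1 : PL ρ φ) : PL ρ (fun x => s • φ x) := by
  obtain ⟨c, hc⟩ := h1
  refine ⟨fun o b => s * c o b, fun x => ?_⟩
  simp only [hc, Finset.smul_sum, smul_smul]

theorem PL.sub {φ ψ : Md H N → H} (h1 : PL ρ φ) (h2 : PL ρ ψ) : PL ρ (fun x => φ x - ψ x) := by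
  obtain ⟨c, hc⟩ := h1
  obtain ⟨d, hd⟩ := h2
  refine ⟨fun o b => c o b - d o b, fun x => ?_⟩
  simp only [hc, hd, sub_smul, Finset.sum_sub_distrib]

theorem PL.sum {τ : Type*} (s : Finset τ) {φ : τ → Md H N → H} (h : ∀ i ∈ s, PL ρ (φ i)) :
    PL ρ (fun x => ∑ i ∈ s, φ i x) := by
  classical
  induction s using Finset.induction_on with
  | empty => simpa using PL.zero
  | insert a s ha ih =>
    simp only [Finset.sum_insert ha]
    exact (h a (Finset.mem_insert_self a s)).add (ih fun i hi => h i (Finset.mem_insert_of_mem hi))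

end pl

/-- rational subspaces -/
def Rat (ρ : Fin n → (H →L[ℂ] H)) {κ : Type} [Fintype κ] (E : Submodule ℂ (Md H κ)) : Prop :=
  ∃ (N τ : Type) (_ : Fintype N) (_ : Fintype τ) (c : Option (Fin n) → τ → N → ℂ) (e : κ → N),
    (∀ x, pen ρ c x = 0 → restr e x ∈ E) ∧ (∀ t ∈ E, ∃ x, pen ρ c x = 0 ∧ restr e x = t) ∧
    (∀ x, pen ρ c x = 0 → restr e x = 0 → x = 0)

theorem Rat.of_PL {ρ : Fin n → (H →L[ℂ] H)} {κ : Type} [Fintype κ] {E : Submodule ℂ (Md H κ)}
    {N τ : Type} [Fintype N] [Fintype τ] {φ : τ → Md H N → H} (hφ : ∀ s, PL ρ (φ s)) (e : κ → N)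
    (h1 : ∀ x, (∀ s, φ s x = 0) → restr e x ∈ E)
    (h2 : ∀ t ∈ E, ∃ x, (∀ s, φ s x = 0) ∧ restr e x = t)
    (h3 : ∀ x, (∀ s, φ s x = 0) → restr e x = 0 → x = 0) : Rat ρ E := by
  choose c hc using hφ
  have key : ∀ x, pen ρ (fun o s b => c s o b) x = 0 ↔ ∀ s, φ s x = 0 := by
    intro x
    constructor
    · intro h s
      have := congrArg (fun v : Md H τ => v s) h
      simp only [pen_apply] at this
      rw [hc]
      exact this
    · intro h
      apply md_ext
      intro s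
      rw [pen_apply, ← hc, h]
      rfl
  refine ⟨N, τ, inferInstance, inferInstance, fun o s b => c s o b, e, ?_, ?_, ?_⟩
  · intro x hx; exact h1 x ((key x).1 hx)
  · intro t ht
    obtain ⟨x, hx, hx'⟩ := h2 t ht
    exact ⟨x, (key x).2 hx, hx'⟩
  · intro x hx; exact h3 x ((key x).1 hx)

theorem Rat.dm_int (h : TV M ξ) {ρ : Fin n → (H →L[ℂ] H)} (hρ : ∀ k, ρ k ∈ Set.centralizer M)
    (hI : Inj ρ) {κ : Type} [Fintype κ] {E : Submodule ℂ (Md H κ)} (hE : Rat ρ E) :
    ∃ z : ℤ, dm ξ E = z := by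
  classical
  obtain ⟨N, τ, _, _, c, e, h1, h2, h3⟩ := hE
  obtain ⟨z, hz⟩ := pen_int h hρ hI _ N τ rfl c
  refine ⟨z, ?_⟩
  rw [← hz]
  have : E = (LinearMap.ker (pen ρ c : Md H N →ₗ[ℂ] Md H τ)).map
      ((sc (fun k m => if e k = m then (1 : ℂ) else 0) : Md H N →L[ℂ] Md H κ) :
        Md H N →ₗ[ℂ] Md H κ) := by
    ext t
    constructor
    · intro ht
      obtain ⟨x, hx, hx'⟩ := h2 t ht
      refine ⟨x, hx, ?_⟩
      change sc (fun k m => if e k = m then (1 : ℂ) else 0) x = t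
      rw [sc_restr, hx']
    · rintro ⟨x, hx, rfl⟩
      change sc (fun k m => if e k = m then (1 : ℂ) else 0) x ∈ E
      rw [sc_restr]
      exact h1 x hx
  rw [this, dm_map_inj h (sc_lin _) (Inv.ker (pen_lin hρ c)) (pen ρ c).isClosed_ker]
  intro x hx hx'
  rw [sc_restr] at hx'
  exact h3 x hx hx'

/-- words -/
def wd (ρ : Fin n → (H →L[ℂ] H)) (w : List (Fin n)) : H →L[ℂ] H := (w.map ρ).prod

theorem wd_nil (ρ : Fin n → (H →L[ℂ] H)) (x : H) : wd ρ [] x = x := by
  unfold wd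
  simp

theorem wd_cons (ρ : Fin n → (H →L[ℂ] H)) (i : Fin n) (w : List (Fin n)) (x : H) :
    wd ρ (i :: w) x = ρ i (wd ρ w x) := by
  unfold wd
  rw [List.map_cons, List.prod_cons]
  rfl

theorem adjoin_words (ρ : Fin n → (H →L[ℂ] H)) {X : H →L[ℂ] H}
    (hX : X ∈ Algebra.adjoin ℂ (Set.range ρ)) :
    ∃ α : List (Fin n) →₀ ℂ, (α.sum fun w a => a • wd ρ w) = X := by
  rw [← Finsupp.mem_span_range_iff_exists_finsupp]
  have h1 : X ∈ Subalgebra.toSubmodule (Algebra.adjoin ℂ (Set.range ρ)) := hX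
  rw [Algebra.adjoin_eq_span] at h1
  refine Submodule.span_mono ?_ h1
  intro Y hY
  obtain ⟨l, hl, rfl⟩ := Submonoid.exists_list_of_mem_closure hY
  induction l with
  | nil => exact ⟨[], rfl⟩
  | cons a l ih =>
    obtain ⟨w, hw⟩ := ih (fun y hy => hl y (List.mem_cons_of_mem _ hy)) (by
      rw [SetLike.mem_coe]
      exact Submonoid.list_prod_mem _ fun y hy => Submonoid.subset_closure (hl y (List.mem_cons_of_mem _ hy)))
    obtain ⟨i, hi⟩ := hl a List.mem_cons_self
    refine ⟨i :: w, ?_⟩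
    rw [List.prod_cons, ← hw, ← hi]
    unfold wd
    rw [List.map_cons, List.prod_cons]

/-- solution spaces of polynomial conditions are rational -/
theorem rat_cond (ρ : Fin n → (H →L[ℂ] H)) {κ F : Type} [Fintype κ] [Fintype F]
    {X : F → (H →L[ℂ] H)} (hX : ∀ s, X s ∈ Algebra.adjoin ℂ (Set.range ρ)) {I : Type*}
    (c : I → F → κ → ℂ) {E : Submodule ℂ (Md H κ)}
    (hE : ∀ t, t ∈ E ↔ ∀ i, ∑ b, ∑ s, c i s b • X s (t b) = 0) : Rat ρ E := by
  classical
  choose α hα using fun s => adjoin_words ρ (hX s)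
  let d : ℕ := univ.sup fun s => (α s).support.sup List.length
  let W : Finset (List (Fin n)) := (List.finite_length_le (Fin n) d).toFinset
  have hW : ∀ w, w ∈ W ↔ w.length ≤ d := fun w => by simp [W]
  have hsub : ∀ s, (α s).support ⊆ W := by
    intro s w hw
    rw [hW]
    exact (Finset.le_sup (f := List.length) hw).trans
      (Finset.le_sup (f := fun s => (α s).support.sup List.length) (Finset.mem_univ s))
  have hXs : ∀ s v, X s v = ∑ w : W, α s w.1 • wd ρ w.1 v := by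
    intro s v
    rw [← hα s, Finsupp.sum_of_support_subset (α s) (hsub s) (fun w a => a • wd ρ w)
      (fun w _ => zero_smul _ _), _root_.sum_apply, ← Finset.sum_coe_sort]
    rfl
  have hnil : [] ∈ W := by rw [hW]; simp
  -- finitely many conditions suffice
  obtain ⟨I0, hI0, hspan⟩ := (Submodule.fg_span_iff_fg_span_finset_subset (R := ℂ)
    (Set.range c)).1 (IsNoetherian.noetherian _)
  have hfin : ∀ t : Md H κ, (∀ i, ∑ b, ∑ s, c i s b • X s (t b) = 0) ↔
      ∀ g : I0, ∑ b, ∑ s, g.1 s b • X s (t b) = 0 := by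
    intro t
    constructor
    · rintro h ⟨g, hg⟩
      obtain ⟨i, hi⟩ := hI0 hg
      change ∑ b, ∑ s, g s b • X s (t b) = 0
      rw [← hi]
      exact h i
    · intro h i
      have h1 : c i ∈ Submodule.span ℂ (I0 : Set (F → κ → ℂ)) := by
        rw [← hspan]
        exact Submodule.subset_span ⟨i, rfl⟩
      have h2 : ∀ g ∈ Submodule.span ℂ (I0 : Set (F → κ → ℂ)),
          ∑ b, ∑ s, g s b • X s (t b) = 0 := by
        intro g hg
        induction hg using Submodule.span_induction with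
        | mem g hg => exact h ⟨g, hg⟩
        | zero => simp
        | add g g' _ _ hg hg' =>
          simp only [Pi.add_apply, add_smul, Finset.sum_add_distrib]
          rw [hg, hg', add_zero]
        | smul a g _ hg =>
          simp only [Pi.smul_apply, smul_eq_mul, ← smul_smul, ← Finset.smul_sum]
          rw [hg, smul_zero]
      exact h2 _ h1
  let N := κ × W
  let τ₂ := {p : κ × Fin n × W // (p.2.1 :: p.2.2.1) ∈ W}
  let φ : (I0 ⊕ τ₂) → Md H N → H := fun s x =>
    match s with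
    | Sum.inl g => ∑ b, ∑ s, ∑ w : W, (g.1 s b * α s w.1) • x (b, w)
    | Sum.inr p => x (p.1.1, ⟨p.1.2.1 :: p.1.2.2.1, p.2⟩) - ρ p.1.2.1 (x (p.1.1, p.1.2.2))
  have hφ : ∀ s, PL ρ (φ s) := by
    rintro (g | p)
    · exact PL.sum _ fun b _ => PL.sum _ fun s _ => PL.sum _ fun w _ => (PL.coord (b, w)).smul _
    · exact (PL.coord _).sub (PL.rho _ _)
  have hword : ∀ x : Md H N, (∀ s, φ s x = 0) → ∀ (w : List (Fin n)) (hw : w ∈ W) (b : κ),
      x (b, ⟨w, hw⟩) = wd ρ w (x (b, ⟨[], hnil⟩)) := by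
    intro x hx w
    induction w with
    | nil => intro hw b; rw [wd_nil]
    | cons i w ih =>
      intro hw b
      have hw' : w ∈ W := by
        rw [hW] at hw ⊢
        exact (Nat.le_succ _).trans hw
      have h1 := hx (Sum.inr ⟨(b, i, ⟨w, hw'⟩), hw⟩)
      have h2 : x (b, ⟨i :: w, hw⟩) = ρ i (x (b, ⟨w, hw'⟩)) := sub_eq_zero.1 h1
      rw [h2, ih hw' b, wd_cons]
  have hrow : ∀ x : Md H N, (∀ (w : List (Fin n)) (hw : w ∈ W) (b : κ),
      x (b, ⟨w, hw⟩) = wd ρ w (x (b, ⟨[], hnil⟩))) → ∀ g : I0,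
      φ (Sum.inl g) x = ∑ b, ∑ s, g.1 s b • X s (x (b, ⟨[], hnil⟩)) := by
    intro x hx g
    change ∑ b, ∑ s, ∑ w : W, (g.1 s b * α s w.1) • x (b, w) = _
    refine Finset.sum_congr rfl fun b _ => Finset.sum_congr rfl fun s _ => ?_
    rw [hXs, Finset.smul_sum]
    refine Finset.sum_congr rfl fun w _ => ?_
    rw [hx w.1 w.2 b, smul_smul]
  refine Rat.of_PL hφ (fun b => (b, ⟨[], hnil⟩)) ?_ ?_ ?_
  · intro x hx
    rw [hE, hfin]
    intro g
    rw [← hx (Sum.inl g), hrow x (hword x hx) g]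
    rfl
  · intro t ht
    rw [hE, hfin] at ht
    let x : Md H N := WithLp.toLp 2 (fun p => wd ρ p.2.1 (t p.1))
    have hx : ∀ (w : List (Fin n)) (hw : w ∈ W) (b : κ),
        x (b, ⟨w, hw⟩) = wd ρ w (x (b, ⟨[], hnil⟩)) := by
      intro w hw b
      change wd ρ w (t b) = wd ρ w (wd ρ [] (t b))
      rw [wd_nil]
    refine ⟨x, ?_, ?_⟩
    · rintro (g | p)
      · rw [hrow x hx g]
        have e1 : ∀ b, x (b, ⟨[], hnil⟩) = t b := fun b => wd_nil ρ (t b)
        simp only [e1]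
        exact ht g
      · change wd ρ (p.1.2.1 :: p.1.2.2.1) (t p.1.1) - ρ p.1.2.1 (wd ρ p.1.2.2.1 (t p.1.1)) = 0
        rw [wd_cons, sub_self]
    · apply md_ext
      intro b
      exact wd_nil ρ (t b)
  · intro x hx h0
    apply md_ext
    rintro ⟨b, w, hw⟩
    rw [hword x hx w hw b]
    have : x (b, ⟨[], hnil⟩) = 0 := congrArg (fun v : Md H κ => v b) h0
    rw [this, map_zero]
    rfl

end Pool.Agent.Y325.DD
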