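import Pool.Agent.Y325.DD.A8

/-!
# Greedy selection of rows and coordinates; polynomial lifts
-/

set_option autoImplicit false
set_option linter.unusedSectionVars false
set_option linter.unnecessarySimpa false

open scoped InnerProductSpace Topology ENNReal ComplexConjugate
open Filter Finset

noncomputable section

namespace Pool.Agent.Y325.DD

variable {H : Type} [NormedAddCommGroup H] [InnerProductSpace ℂ H] [CompleteSpace H]
variable {M : Set (H →L[ℂ] H)} {ξ : H} {n : ℕ}

/-- polynomial lifts -/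
theorem poly_lift (h : Tr M ξ) {y ρ : Fin n → (H →L[ℂ] H)} (hy : ∀ k, y k ∈ M)
    (hρ : ∀ k, ρ k ∈ Set.centralizer M ∧ ρ k ξ = y k ξ) (P : FreeAlgebra ℂ (Fin n)) :
    FreeAlgebra.lift ℂ y P ∈ M ∧ ∃ r ∈ Algebra.adjoin ℂ (Set.range ρ),
      r ∈ Set.centralizer M ∧ r ξ = FreeAlgebra.lift ℂ y P ξ := by
  induction P using FreeAlgebra.induction with
  | grade0 c =>
    rw [AlgHom.commutes]
    refine ⟨?_, algebraMap ℂ _ c, Subalgebra.algebraMap_mem _ c, ?_, rfl⟩
    · rw [Algebra.algebraMap_eq_smul_one]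
      exact h.smul_mem c h.one_mem
    · rw [Algebra.algebraMap_eq_smul_one]
      exact cent_smul c Set.one_mem_centralizer
  | grade1 i =>
    rw [FreeAlgebra.lift_ι_apply]
    exact ⟨hy i, ρ i, Algebra.subset_adjoin ⟨i, rfl⟩, (hρ i).1, (hρ i).2⟩
  | mul a b iha ihb =>
    obtain ⟨ha, r, hr1, hr2, hr3⟩ := iha
    obtain ⟨hb, s, hs1, hs2, hs3⟩ := ihb
    rw [map_mul]
    refine ⟨h.mul_mem ha hb, s * r, mul_mem hs1 hr1, cent_mul hs2 hr2, ?_⟩
    change s (r ξ) = FreeAlgebra.lift ℂ y a (FreeAlgebra.lift ℂ y b ξ)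
    rw [hr3, cent_comm hs2 ha, hs3]
  | add a b iha ihb =>
    obtain ⟨ha, r, hr1, hr2, hr3⟩ := iha
    obtain ⟨hb, s, hs1, hs2, hs3⟩ := ihb
    rw [map_add]
    refine ⟨h.add_mem ha hb, r + s, add_mem hr1 hs1, cent_add hr2 hs2, ?_⟩
    change r ξ + s ξ = FreeAlgebra.lift ℂ y a ξ + FreeAlgebra.lift ℂ y b ξ
    rw [hr3, hs3]

/-- subspaces defined by polynomial conditions -/
def RC {κ : Type} [Fintype κ] (E : Submodule ℂ (Md H κ)) (F : Type)
    [Fintype F] (X : F → (H →L[ℂ] H)) : Prop :=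
  ∃ (I : Type) (c : I → F → κ → ℂ), ∀ t, t ∈ E ↔ ∀ i, ∑ b, ∑ s, c i s b • X s (t b) = 0

theorem RC.rat {ρ : Fin n → (H →L[ℂ] H)} {κ : Type} [Fintype κ] {E : Submodule ℂ (Md H κ)}
    {F : Type} [Fintype F] {X : F → (H →L[ℂ] H)} (hE : RC E F X)
    (hX : ∀ s, X s ∈ Algebra.adjoin ℂ (Set.range ρ)) : Rat ρ E := by
  obtain ⟨I, c, hc⟩ := hE
  exact rat_cond ρ hX c hc

theorem RC.comap {κ κ' : Type} [Fintype κ] [Fintype κ']
    {E : Submodule ℂ (Md H κ)} {F : Type} [Fintype F] {X : F → (H →L[ℂ] H)} (hE : RC E F X)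
    {J : Type} (s : J → κ → κ' → ℂ) {E' : Submodule ℂ (Md H κ')}
    (hE' : ∀ t, t ∈ E' ↔ ∀ j, sc (s j) t ∈ E) : RC E' F X := by
  obtain ⟨I, c, hc⟩ := hE
  refine ⟨J × I, fun p f b => ∑ a, c p.2 f a * s p.1 a b, fun t => ?_⟩
  rw [hE']
  have key : ∀ j i, ∑ b, ∑ f, (∑ a, c i f a * s j a b) • X f (t b)
      = ∑ a, ∑ f, c i f a • X f (sc (s j) t a) := by
    intro j i
    simp only [sc_apply, map_sum, map_smul, Finset.smul_sum, smul_smul, Finset.sum_smul]
    rw [Finset.sum_comm]
    conv_rhs => rw [Finset.sum_comm]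
    refine Finset.sum_congr rfl fun f _ => ?_
    rw [Finset.sum_comm]
  constructor
  · rintro h ⟨j, i⟩
    change ∑ b, ∑ f, (∑ a, c i f a * s j a b) • X f (t b) = 0
    rw [key]
    exact (hc _).1 (h j) i
  · intro h j
    rw [hc]
    intro i
    rw [← key]
    exact h (j, i)

section greedy

variable {N τ : Type} [Fintype N] [Fintype τ]

/-- solutions of the rows in a finite set -/
def kJ (ρ : Fin n → (H →L[ℂ] H)) (c : Option (Fin n) → τ → N → ℂ) (J : Finset τ) :
    Submodule ℂ (Md H N) :=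
  LinearMap.ker (pen ρ (fun o (a : J) b => c o a.1 b) : Md H N →ₗ[ℂ] Md H J)

theorem mem_kJ (ρ : Fin n → (H →L[ℂ] H)) (c : Option (Fin n) → τ → N → ℂ) (J : Finset τ)
    (x : Md H N) : x ∈ kJ ρ c J ↔ ∀ a ∈ J, pen ρ c x a = 0 := by
  constructor
  · intro hx a ha
    have hx' : pen ρ (fun o (a : J) b => c o a.1 b) x = 0 := hx
    have := congrArg (fun v : Md H J => v ⟨a, ha⟩) hx'
    simp only [pen_apply] at this ⊢
    exact this
  · intro hx
    change pen ρ (fun o (a : J) b => c o a.1 b) x = 0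
    apply md_ext
    rintro ⟨a, ha⟩
    have := hx a ha
    rw [pen_apply] at this ⊢
    exact this

theorem greedy (h : TV M ξ) {ρ : Fin n → (H →L[ℂ] H)} (hρ : ∀ k, ρ k ∈ Set.centralizer M)
    (hI : Inj ρ) (c : Option (Fin n) → τ → N → ℂ) {J0 R : Finset τ} (hJ0 : J0 ⊆ R)
    (hd : dm ξ (kJ ρ c J0) + J0.card = Fintype.card N) :
    ∃ J, J0 ⊆ J ∧ J ⊆ R ∧ dm ξ (kJ ρ c J) + J.card = Fintype.card N ∧ kJ ρ c J ≤ kJ ρ c R := by
  classical
  obtain ⟨J, hJ, hmax⟩ := Finset.exists_max_image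
    (R.powerset.filter fun J => J0 ⊆ J ∧ dm ξ (kJ ρ c J) + J.card = Fintype.card N)
    Finset.card ⟨J0, by
      rw [Finset.mem_filter, Finset.mem_powerset]
      exact ⟨hJ0, Finset.Subset.refl _, hd⟩⟩
  rw [Finset.mem_filter, Finset.mem_powerset] at hJ
  obtain ⟨hJR, hJ0J, hJd⟩ := hJ
  refine ⟨J, hJ0J, hJR, hJd, ?_⟩
  intro x hx
  rw [mem_kJ]
  intro a ha
  by_cases haJ : a ∈ J
  · exact (mem_kJ ρ c J x).1 hx a haJ
  · let row : Option (Fin n) → Unit → N → ℂ := fun o _ b => c o a b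
    have hins : kJ ρ c (insert a J)
        = kJ ρ c J ⊓ LinearMap.ker (pen ρ row : Md H N →ₗ[ℂ] Md H Unit) := by
      ext v
      rw [mem_kJ, Submodule.mem_inf, mem_kJ]
      have e1 : v ∈ LinearMap.ker (pen ρ row : Md H N →ₗ[ℂ] Md H Unit) ↔ pen ρ c v a = 0 := by
        constructor
        · intro hv
          have hv' : pen ρ row v = 0 := hv
          have := congrArg (fun w : Md H Unit => w ()) hv'
          simp only [pen_apply] at this ⊢
          exact this
        · intro hv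
          change pen ρ row v = 0
          apply md_ext
          intro u
          rw [pen_apply] at hv ⊢
          exact hv
      rw [e1]
      constructor
      · intro hv
        exact ⟨fun b hb => hv b (Finset.mem_insert_of_mem hb), hv a (Finset.mem_insert_self a J)⟩
      · rintro ⟨hv1, hv2⟩ b hb
        rcases Finset.mem_insert.1 hb with rfl | hb
        · exact hv2
        · exact hv1 b hb
    have hcl : IsClosed (kJ ρ c J : Set (Md H N)) :=
      (pen ρ (fun o (a : J) b => c o a.1 b)).isClosed_ker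
    have hcl' : IsClosed (kJ ρ c (insert a J) : Set (Md H N)) :=
      (pen ρ (fun o (a : (insert a J : Finset τ)) b => c o a.1 b)).isClosed_ker
    have hinv : Inv M (kJ ρ c J) := Inv.ker (pen_lin hρ _)
    have hinv' : Inv M (kJ ρ c (insert a J)) := Inv.ker (pen_lin hρ _)
    have h1 := dm_inf_ker_ge h (pen_lin hρ row) hinv hcl
    rw [← hins, Fintype.card_unit] at h1
    have hle : kJ ρ c (insert a J) ≤ kJ ρ c J := by rw [hins]; exact inf_le_left
    obtain ⟨z, hz⟩ : ∃ z : ℤ, dm ξ (kJ ρ c (insert a J)) = z := pen_int h hρ hI _ _ _ rfl _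
    by_cases hlt : dm ξ (kJ ρ c (insert a J)) < dm ξ (kJ ρ c J)
    · exfalso
      have h2 : dm ξ (kJ ρ c (insert a J)) + (insert a J).card = Fintype.card N := by
        rw [Finset.card_insert_of_notMem haJ]
        have h3 : dm ξ (kJ ρ c J) = (Fintype.card N : ℝ) - J.card := by linarith
        rw [hz, h3] at h1 hlt
        have h4 : z < (Fintype.card N : ℤ) - J.card := by exact_mod_cast hlt
        have h5 : (Fintype.card N : ℤ) - J.card - 1 ≤ z := by exact_mod_cast h1
        have h6 : z = (Fintype.card N : ℤ) - J.card - 1 := by omega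
        rw [hz, h6]
        push_cast
        ring
      have h3 := hmax (insert a J) (by
        rw [Finset.mem_filter, Finset.mem_powerset]
        exact ⟨Finset.insert_subset ha hJR, hJ0J.trans (Finset.subset_insert _ _), h2⟩)
      rw [Finset.card_insert_of_notMem haJ] at h3
      omega
    · have h2 := dm_strict h hinv' hinv hle (not_lt.1 hlt)
      rw [hcl.submodule_topologicalClosure_eq, hcl'.submodule_topologicalClosure_eq] at h2
      rw [← h2] at hx
      exact (mem_kJ ρ c _ x).1 hx a (Finset.mem_insert_self a J)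

/-- completing a pencil with nonzero kernel to an injective square pencil -/
theorem square_exists (h : TV M ξ) {ρ : Fin n → (H →L[ℂ] H)} (hρ : ∀ k, ρ k ∈ Set.centralizer M)
    (hI : Inj ρ) (c : Option (Fin n) → τ → N → ℂ) (hk : ∃ x, pen ρ c x = 0 ∧ x ≠ 0) :
    ∃ (L : Type) (_ : Fintype L) (q : Option (Fin n) → L → N → ℂ) (i1 : L),
      Fintype.card L = Fintype.card N ∧ (∀ x : Md H N, pen ρ q x = 0 → x = 0) ∧
      (∀ x : Md H N, (∀ l, l ≠ i1 → pen ρ q x l = 0) → pen ρ c x = 0) := by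
  classical
  let c' : Option (Fin n) → (τ ⊕ N) → N → ℂ := fun o a b =>
    match a with
    | Sum.inl a => c o a b
    | Sum.inr k => if o = none ∧ b = k then 1 else 0
  have hinl : ∀ x a, pen ρ c' x (Sum.inl a) = pen ρ c x a := by
    intro x a
    rw [pen_apply, pen_apply]
  have hinr : ∀ x k, pen ρ c' x (Sum.inr k) = x k := by
    intro x k
    rw [pen_apply, Finset.sum_eq_single k, Finset.sum_eq_single none]
    · simp only [c']
      rw [if_pos ⟨trivial, trivial⟩, one_smul]
      rfl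
    · intro o _ ho
      simp only [c']
      rw [if_neg (fun h => ho h.1), zero_smul]
    · intro h; exact absurd (Finset.mem_univ _) h
    · intro b _ hb
      refine Finset.sum_eq_zero fun o _ => ?_
      simp only [c']
      rw [if_neg (fun h => hb h.2), zero_smul]
    · intro h; exact absurd (Finset.mem_univ _) h
  have h0 : dm ξ (kJ ρ c' ∅) + (∅ : Finset (τ ⊕ N)).card = Fintype.card N := by
    have : kJ ρ c' ∅ = ⊤ := by
      rw [eq_top_iff]
      intro x _
      rw [mem_kJ]
      intro a ha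
      simp at ha
    rw [this, dm_top h]
    simp
  obtain ⟨J1, -, hJ1R, hJ1d, hJ1k⟩ := greedy h hρ hI c'
    (Finset.empty_subset ((univ : Finset τ).map Function.Embedding.inl)) h0
  obtain ⟨J2, hJ12, -, hJ2d, hJ2k⟩ := greedy h hρ hI c' (Finset.subset_univ J1) hJ1d
  have hk2 : kJ ρ c' J2 = ⊥ := by
    rw [eq_bot_iff]
    intro x hx
    have h1 := (mem_kJ ρ c' univ x).1 (hJ2k hx)
    rw [Submodule.mem_bot]
    apply md_ext
    intro k
    rw [← hinr x k, h1 _ (Finset.mem_univ _)]
    rfl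
  have hcard : Fintype.card J2 = Fintype.card N := by
    rw [hk2, dm_bot, zero_add] at hJ2d
    rw [Fintype.card_coe]
    exact_mod_cast hJ2d
  -- the kernel of the first family
  have hc1 : ∀ x, x ∈ kJ ρ c' J1 ↔ pen ρ c x = 0 := by
    intro x
    constructor
    · intro hx
      have h1 := (mem_kJ ρ c' _ x).1 (hJ1k hx)
      apply md_ext
      intro a
      rw [← hinl]
      exact h1 _ (by simp)
    · intro hx
      rw [mem_kJ]
      intro a ha
      have := hJ1R ha
      rw [Finset.mem_map] at this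
      obtain ⟨a', _, rfl⟩ := this
      change pen ρ c' x (Sum.inl a') = 0
      rw [hinl, hx]
      rfl
  have hne : kJ ρ c' J1 ≠ ⊥ := by
    obtain ⟨x, hx, hx0⟩ := hk
    intro hbot
    have := (hc1 x).2 hx
    rw [hbot, Submodule.mem_bot] at this
    exact hx0 this
  have hpos : 0 < dm ξ (kJ ρ c' J1) := by
    rcases (dm_nonneg (Ω := ξ) (kJ ρ c' J1)).lt_or_eq with h1 | h1
    · exact h1
    · exact absurd (dm_eq_zero h (Inv.ker (pen_lin hρ _)) h1.symm) hne
  have hlt : J1.card < J2.card := by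
    rw [Fintype.card_coe] at hcard
    have h1 : (J1.card : ℝ) < Fintype.card N := by linarith
    rw [hcard]
    exact_mod_cast h1
  obtain ⟨i1, hi1, hi1'⟩ := Finset.exists_mem_notMem_of_card_lt_card hlt
  refine ⟨J2, inferInstance, fun o (a : J2) b => c' o a.1 b, ⟨i1, hi1⟩, hcard, ?_, ?_⟩
  · intro x hx
    have : x ∈ kJ ρ c' J2 := hx
    rw [hk2, Submodule.mem_bot] at this
    exact this
  · intro x hx
    rw [← hc1, mem_kJ]
    intro a ha
    have h1 := hx ⟨a, hJ12 ha⟩ (by
      intro he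
      have : a = i1 := congrArg Subtype.val he
      exact hi1' (this ▸ ha))
    rw [pen_apply] at h1 ⊢
    exact h1

end greedy

end Pool.Agent.Y325.DD
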