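import Pool.Agent.Y325.DD.A9

/-!
# Finite rank solutions and the completed pencil
-/

set_option autoImplicit false
set_option linter.unusedSectionVars false
set_option linter.unnecessarySimpa false

open scoped InnerProductSpace Topology ENNReal ComplexConjugate
open Filter Finset

noncomputable section

namespace Pool.Agent.Y325.DD

variable {H : Type} [NormedAddCommGroup H] [InnerProductSpace ℂ H] [CompleteSpace H]
variable {M : Set (H →L[ℂ] H)} {ξ : H} {n m : ℕ}

theorem rk_adjoint (u v : H) : ContinuousLinearMap.adjoint (rk u v) = rk v u := by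
  symm
  rw [ContinuousLinearMap.eq_adjoint_iff]
  intro x y
  rw [rk_apply, rk_apply, inner_smul_left, inner_smul_right, inner_conj_symm]
  ring

theorem FR.sum_rk {T : H →L[ℂ] H} (hT : FR T) :
    ∃ (d : ℕ) (u v : Fin d → H), T = ∑ i, rk (u i) (v i) := by
  have : FiniteDimensional ℂ (LinearMap.range ((T : H →L[ℂ] H) : H →ₗ[ℂ] H)) := hT
  let e := stdOrthonormalBasis ℂ (LinearMap.range ((T : H →L[ℂ] H) : H →ₗ[ℂ] H))
  refine ⟨_, fun i => (e i : H), fun i => ContinuousLinearMap.adjoint T (e i : H), ?_⟩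
  apply ContinuousLinearMap.ext
  intro x
  rw [_root_.sum_apply]
  have h1 := e.sum_repr' ⟨T x, ⟨x, rfl⟩⟩
  have h2 := congrArg Subtype.val h1
  rw [show T x = ((⟨T x, ⟨x, rfl⟩⟩ : LinearMap.range ((T : H →L[ℂ] H) : H →ₗ[ℂ] H)) : H) from rfl,
    ← h2, AddSubmonoidClass.coe_finsetSum]
  refine Finset.sum_congr rfl fun i _ => ?_
  rw [rk_apply, ContinuousLinearMap.adjoint_inner_left]
  rfl

theorem FR.adjoint {T : H →L[ℂ] H} (hT : FR T) : FR (ContinuousLinearMap.adjoint T) := by
  obtain ⟨d, u, v, rfl⟩ := hT.sum_rk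
  rw [map_sum]
  refine FR.sum _ fun i _ => ?_
  rw [rk_adjoint]
  exact FR_rk _ _

theorem fr_decomp {T : Fin m → (H →L[ℂ] H)} (hT : ∀ j, FR (T j)) :
    ∃ (d : ℕ) (η : Fin d → H) (t : Fin d → Fin m → H),
      (∀ j, T j = ∑ k, rk (t k j) (η k)) ∧
      (∀ c : Fin d → ℂ, (∀ j, ∑ k, c k • t k j = 0) → ∀ k, c k = 0) := by
  let U : Submodule ℂ H :=
    ⨆ j, LinearMap.range ((ContinuousLinearMap.adjoint (T j) : H →L[ℂ] H) : H →ₗ[ℂ] H)
  have hfd : ∀ j, FiniteDimensional ℂ
      (LinearMap.range ((ContinuousLinearMap.adjoint (T j) : H →L[ℂ] H) : H →ₗ[ℂ] H)) :=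
    fun j => (hT j).adjoint
  have : FiniteDimensional ℂ U := Submodule.finiteDimensional_iSup _
  let e := stdOrthonormalBasis ℂ U
  have hcl : IsClosed (U : Set H) := U.closed_of_finiteDimensional
  have hkill : ∀ j x, (∀ u ∈ U, ⟪x, u⟫_ℂ = 0) → T j x = 0 := by
    intro j x hx
    refine ext_inner_right ℂ fun w => ?_
    rw [← ContinuousLinearMap.adjoint_inner_right, inner_zero_left]
    apply hx
    exact Submodule.mem_iSup_of_mem j ⟨w, rfl⟩
  refine ⟨_, fun k => (e k : H), fun k j => T j (e k : H), ?_, ?_⟩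
  · intro j
    apply ContinuousLinearMap.ext
    intro x
    have h1 : T j x = T j (PP U x) := by
      rw [← sub_eq_zero, ← map_sub]
      exact hkill j _ fun u hu => PP_inner U x (Submodule.le_topologicalClosure _ hu)
    have h2 := e.sum_repr' ⟨PP U x, PP_mem_of_closed hcl x⟩
    have h3 := congrArg Subtype.val h2
    rw [AddSubmonoidClass.coe_finsetSum] at h3
    rw [h1, _root_.sum_apply]
    change T j (((⟨PP U x, PP_mem_of_closed hcl x⟩ : U) : H)) = _
    rw [← h3, map_sum]
    refine Finset.sum_congr rfl fun k _ => ?_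
    rw [rk_apply]
    change T j (⟪(e k : H), PP U x⟫_ℂ • (e k : H)) = _
    rw [map_smul, ← PP_symm, PP_self (Submodule.le_topologicalClosure _ (e k).2)]
  · intro c hc k
    set w : U := ∑ k, c k • e k with hw
    have h1 : (w : H) = ∑ k, c k • (e k : H) := by
      rw [hw, AddSubmonoidClass.coe_finsetSum]
      rfl
    have h2 : ∀ j, T j (w : H) = 0 := by
      intro j
      rw [h1, map_sum]
      simp only [map_smul]
      exact hc j
    have h3 : ∀ u ∈ U, ⟪(w : H), u⟫_ℂ = 0 := by
      have hle : U ≤ (Submodule.span ℂ {(w : H)})ᗮ := by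
        refine iSup_le fun j => ?_
        rintro _ ⟨x, rfl⟩
        rw [Submodule.mem_orthogonal_singleton_iff_inner_right]
        change ⟪(w : H), ContinuousLinearMap.adjoint (T j) x⟫_ℂ = 0
        rw [ContinuousLinearMap.adjoint_inner_right, h2, inner_zero_left]
      intro u hu
      exact Submodule.mem_orthogonal_singleton_iff_inner_right.1 (hle hu)
    have h4 : (w : H) = 0 := inner_self_eq_zero.1 (h3 _ w.2)
    have h5 : w = 0 := Subtype.ext h4
    have h6 := (e.toBasis.linearIndependent)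
    rw [Fintype.linearIndependent_iff] at h6
    apply h6
    rw [← h5, hw]
    simp

/-- right factor sums -/
def bet {A : Type*} [Fintype A] (t : Md H (Fin m × A)) (g : A → H) (j : Fin m) : H →L[ℂ] H :=
  ∑ a, rk (t (j, a)) (g a)

/-- the commutator sum -/
def com {A : Type*} [Fintype A] (r : Fin m → (H →L[ℂ] H)) (t : Md H (Fin m × A)) (g : A → H) :
    H →L[ℂ] H := ∑ j, (bet t (fun a => r j (g a)) j - r j * bet t g j)

section com

variable {A : Type*} [Fintype A]

theorem bet_apply (t : Md H (Fin m × A)) (g : A → H) (j : Fin m) (u : H) :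
    bet t g j u = ∑ a, ⟪g a, u⟫_ℂ • t (j, a) := by
  unfold bet
  rw [_root_.sum_apply]
  exact Finset.sum_congr rfl fun a _ => rk_apply _ _ _

theorem com_apply (r : Fin m → (H →L[ℂ] H)) (t : Md H (Fin m × A)) (g : A → H) (u : H) :
    com r t g u = ∑ j, ∑ a, (⟪r j (g a), u⟫_ℂ • t (j, a) - ⟪g a, u⟫_ℂ • r j (t (j, a))) := by
  unfold com
  rw [_root_.sum_apply]
  refine Finset.sum_congr rfl fun j _ => ?_
  change bet t (fun a => r j (g a)) j u - r j (bet t g j u) = _
  rw [bet_apply, bet_apply, map_sum, ← Finset.sum_sub_distrib]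
  refine Finset.sum_congr rfl fun a _ => ?_
  rw [map_smul]

theorem com_eq {r : Fin m → (H →L[ℂ] H)} (hs : ∀ j, star (r j) = r j) (t : Md H (Fin m × A))
    (g : A → H) : com r t g = ∑ j, (bet t g j * r j - r j * bet t g j) := by
  unfold com
  refine Finset.sum_congr rfl fun j _ => ?_
  congr 1
  unfold bet
  rw [Finset.sum_mul]
  refine Finset.sum_congr rfl fun a _ => ?_
  rw [rk_mul, ← ContinuousLinearMap.star_eq_adjoint, hs]

theorem KK_bet {r z : Fin m → (H →L[ℂ] H)} (hs : ∀ j, star (r j) = r j)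
    (hr : ∀ k, r k ∈ Set.centralizer M ∧ r k ξ = z k ξ) {t : Md H (Fin m × A)}
    {g : A → H} (h0 : com r t g = 0) : KK M ξ z (bet t g) := by
  refine ⟨fun k => FR.sum _ fun a _ => FR_rk _ _, r, hr, ?_⟩
  rw [← com_eq hs, h0]

/-- adjoint form -/
theorem com_adj_inner (r : Fin m → (H →L[ℂ] H)) (t : Md H (Fin m × A)) (g : A → H) (u v : H) :
    ⟪∑ a, ∑ j, (⟪t (j, a), u⟫_ℂ • r j (g a) - ⟪r j (t (j, a)), u⟫_ℂ • g a), v⟫_ℂ
      = ⟪u, com r t g v⟫_ℂ := by
  rw [com_apply]
  simp only [sum_inner, inner_sum, inner_sub_left, inner_sub_right, inner_smul_left,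
    inner_smul_right, inner_conj_symm]
  rw [Finset.sum_comm]
  refine Finset.sum_congr rfl fun j _ => Finset.sum_congr rfl fun a _ => ?_
  ring

theorem com_zero_iff (r : Fin m → (H →L[ℂ] H)) (t : Md H (Fin m × A)) (g : A → H) :
    com r t g = 0 ↔
      ∀ u, ∑ a, ∑ j, (⟪t (j, a), u⟫_ℂ • r j (g a) - ⟪r j (t (j, a)), u⟫_ℂ • g a) = 0 := by
  constructor
  · intro h u
    refine ext_inner_right ℂ fun v => ?_
    rw [com_adj_inner, h]
    simp
  · intro h
    apply ContinuousLinearMap.ext
    intro v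
    refine ext_inner_left ℂ fun u => ?_
    rw [← com_adj_inner, h u]
    simp

end com

/-- polynomial coefficient family `1, r_1, .., r_m` -/
def XX (r : Fin m → (H →L[ℂ] H)) (s : Option (Fin m)) : H →L[ℂ] H := s.elim 1 r

theorem sum_XX (r : Fin m → (H →L[ℂ] H)) (c : Option (Fin m) → ℂ) (x : H) :
    ∑ s, c s • XX r s x = c none • x + ∑ j, c (some j) • r j x := by
  rw [Fintype.sum_option]
  rfl

section G

variable {N L : Type} [Fintype N] [Fintype L]

/-- entries of a pencil -/
def qe (ρ : Fin n → (H →L[ℂ] H)) (q : Option (Fin n) → L → N → ℂ) (l : L) (k : N) : H →L[ℂ] H :=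
  ∑ o, q o l k • rr ρ o

theorem qe_apply (ρ : Fin n → (H →L[ℂ] H)) (q : Option (Fin n) → L → N → ℂ) (l : L) (k : N)
    (x : H) : qe ρ q l k x = ∑ o, q o l k • rr ρ o x := by
  unfold qe
  rw [_root_.sum_apply]
  rfl

theorem pen_qe (ρ : Fin n → (H →L[ℂ] H)) (q : Option (Fin n) → L → N → ℂ) (x : Md H N) (l : L) :
    pen ρ q x l = ∑ k, qe ρ q l k (x k) := by
  rw [pen_apply]
  simp only [qe_apply]

theorem qe_cent {ρ : Fin n → (H →L[ℂ] H)} (hρ : ∀ k, ρ k ∈ Set.centralizer M)
    (q : Option (Fin n) → L → N → ℂ) (l : L) (k : N) : qe ρ q l k ∈ Set.centralizer M :=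
  cent_sum _ _ fun o _ => cent_smul _ (rr_cent hρ o)

open Classical in
/-- the matrix defining `G` -/
def lamG (ρ : Fin n → (H →L[ℂ] H)) (q : Option (Fin n) → L → N → ℂ) :
    L × L → Option (N × L) → (H →L[ℂ] H) := fun p w =>
  match w with
  | none => if p.1 = p.2 then -1 else 0
  | some (k, q') => if p.2 = q' then qe ρ q p.1 k else 0

/-- columns of the inverse of the pencil -/
def GG (ρ : Fin n → (H →L[ℂ] H)) (q : Option (Fin n) → L → N → ℂ) :
    Submodule ℂ (Md H (Option (N × L))) :=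
  LinearMap.ker (mt (lamG ρ q) : Md H (Option (N × L)) →ₗ[ℂ] Md H (L × L))

theorem lamG_apply [DecidableEq L] (ρ : Fin n → (H →L[ℂ] H)) (q : Option (Fin n) → L → N → ℂ)
    (g : Md H (Option (N × L))) (l q' : L) :
    mt (lamG ρ q) g (l, q') = ∑ k, qe ρ q l k (g (some (k, q')))
      - (if l = q' then g none else 0) := by
  classical
  rw [mt_apply, Fintype.sum_option, Fintype.sum_prod_type]
  have e1 : ∀ k : N, ∑ y : L, lamG ρ q (l, q') (some (k, y)) (g (some (k, y)))
      = qe ρ q l k (g (some (k, q'))) := by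
    intro k
    rw [Finset.sum_eq_single q']
    · simp only [lamG]
      rw [if_pos trivial]
    · intro y _ hy
      simp only [lamG]
      rw [if_neg (Ne.symm hy)]
      rfl
    · intro h; exact absurd (Finset.mem_univ _) h
  rw [Finset.sum_congr rfl fun k _ => e1 k]
  simp only [lamG]
  by_cases hl : l = q'
  · rw [if_pos hl, if_pos hl]
    change -(g none) + _ = _
    abel
  · rw [if_neg hl, if_neg hl]
    change (0 : H) + _ = _
    rw [zero_add, sub_zero]

theorem mem_GG [DecidableEq L] (ρ : Fin n → (H →L[ℂ] H)) (q : Option (Fin n) → L → N → ℂ)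
    (g : Md H (Option (N × L))) : g ∈ GG ρ q ↔
      ∀ l q', ∑ k, qe ρ q l k (g (some (k, q'))) = if l = q' then g none else 0 := by
  constructor
  · intro hg l q'
    have hg' : mt (lamG ρ q) g = 0 := hg
    have := congrArg (fun v : Md H (L × L) => v (l, q')) hg'
    change mt (lamG ρ q) g (l, q') = 0 at this
    rw [lamG_apply, sub_eq_zero] at this
    exact this
  · intro hg
    change mt (lamG ρ q) g = 0
    apply md_ext
    rintro ⟨l, q'⟩
    rw [lamG_apply, hg, sub_self]
    rfl

theorem lamG_lin {ρ : Fin n → (H →L[ℂ] H)} (hρ : ∀ k, ρ k ∈ Set.centralizer M)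
    (q : Option (Fin n) → L → N → ℂ) : Lin M (mt (lamG ρ q)) := by
  classical
  apply lin_mt
  rintro p (_ | ⟨k, q'⟩)
  · simp only [lamG]
    split_ifs
    · exact cent_neg Set.one_mem_centralizer
    · exact cent_zero
  · simp only [lamG]
    split_ifs
    · exact qe_cent hρ q _ _
    · exact cent_zero

end G

/-- the main data extracted from a nonzero finite rank solution -/
theorem data_exists (h : TV M ξ) {ρ : Fin n → (H →L[ℂ] H)} (hρ : ∀ k, ρ k ∈ Set.centralizer M)
    (hI : Inj ρ) {r : Fin m → (H →L[ℂ] H)} (hs : ∀ j, star (r j) = r j)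
    (hr : ∀ j, r j ∈ Algebra.adjoin ℂ (Set.range ρ)) {T : Fin m → (H →L[ℂ] H)}
    (hT : ∀ j, FR (T j)) (hcom : ∑ j, (T j * r j - r j * T j) = 0) (hT0 : ∃ j, T j ≠ 0) :
    ∃ (N L : Type) (_ : Fintype N) (_ : Fintype L) (q : Option (Fin n) → L → N → ℂ),
      Fintype.card L = Fintype.card N ∧ (∀ x : Md H N, pen ρ q x = 0 → x = 0) ∧
      ∃ tW : Md H (Fin m × Option (N × L)), (∀ g ∈ GG ρ q, com r tW g = 0) ∧
        (∀ g ∈ GG ρ q, (∀ j, bet tW g j = 0) → g none = 0) := by
  classical
  obtain ⟨d, η, t, hTd, htind⟩ := fr_decomp hT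
  let t' : Md H (Fin m × Fin d) := WithLp.toLp 2 (fun p => t p.2 p.1)
  let η' : Md H (Fin d) := WithLp.toLp 2 η
  have hbet : ∀ j, bet t' η' j = T j := fun j => (hTd j).symm
  have hcom' : com r t' η' = 0 := by
    rw [com_eq hs, ← hcom]
    refine Finset.sum_congr rfl fun j _ => ?_
    rw [hbet]
  have hη : η' ≠ 0 := by
    intro h0
    obtain ⟨j, hj⟩ := hT0
    apply hj
    rw [hTd j]
    refine Finset.sum_eq_zero fun k _ => ?_
    have : η k = 0 := congrArg (fun v : Md H (Fin d) => v k) h0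
    rw [this]
    apply ContinuousLinearMap.ext
    intro x
    rw [rk_apply, inner_zero_left, zero_smul]
    rfl
  -- the rational space
  let E : Submodule ℂ (Md H (Fin d)) :=
    { carrier := {g | com r t' g = 0}
      add_mem' := by
        intro g g' hg hg'
        rw [Set.mem_ofPred_eq, com_zero_iff] at hg hg' ⊢
        intro u
        have h1 := hg u
        have h2 := hg' u
        have h3 : ∑ a, ∑ j, (⟪t' (j, a), u⟫_ℂ • r j ((g + g') a) - ⟪r j (t' (j, a)), u⟫_ℂ • (g + g') a)
            = ∑ a, ∑ j, (⟪t' (j, a), u⟫_ℂ • r j (g a) - ⟪r j (t' (j, a)), u⟫_ℂ • g a)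
              + ∑ a, ∑ j, (⟪t' (j, a), u⟫_ℂ • r j (g' a) - ⟪r j (t' (j, a)), u⟫_ℂ • g' a) := by
          rw [← Finset.sum_add_distrib]
          refine Finset.sum_congr rfl fun a _ => ?_
          rw [← Finset.sum_add_distrib]
          refine Finset.sum_congr rfl fun j _ => ?_
          rw [PiLp.add_apply, map_add, smul_add, smul_add]
          abel
        rw [h3, h1, h2, add_zero]
      zero_mem' := by
        rw [Set.mem_ofPred_eq, com_zero_iff]
        intro u
        refine Finset.sum_eq_zero fun a _ => Finset.sum_eq_zero fun j _ => ?_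
        rw [PiLp.zero_apply, map_zero, smul_zero, smul_zero, sub_zero]
      smul_mem' := by
        intro c g hg
        rw [Set.mem_ofPred_eq, com_zero_iff] at hg ⊢
        intro u
        have h1 := hg u
        have h3 : ∑ a, ∑ j, (⟪t' (j, a), u⟫_ℂ • r j ((c • g) a) - ⟪r j (t' (j, a)), u⟫_ℂ • (c • g) a)
            = c • ∑ a, ∑ j, (⟪t' (j, a), u⟫_ℂ • r j (g a) - ⟪r j (t' (j, a)), u⟫_ℂ • g a) := by
          rw [Finset.smul_sum]
          refine Finset.sum_congr rfl fun a _ => ?_
          rw [Finset.smul_sum]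
          refine Finset.sum_congr rfl fun j _ => ?_
          rw [PiLp.smul_apply, map_smul, smul_sub, smul_comm c, smul_comm c]
        rw [h3, h1, smul_zero] }
  have hE : RC E (Option (Fin m)) (XX r) := by
    refine ⟨H, fun u s a => s.elim (-∑ j, ⟪r j (t' (j, a)), u⟫_ℂ) (fun j => ⟪t' (j, a), u⟫_ℂ),
      fun g => ?_⟩
    change com r t' g = 0 ↔ _
    rw [com_zero_iff]
    refine forall_congr' fun u => ?_
    have : ∑ a, ∑ s, (Option.elim s (-∑ j, ⟪r j (t' (j, a)), u⟫_ℂ) (fun j => ⟪t' (j, a), u⟫_ℂ)) •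
        XX r s (g a) = ∑ a, ∑ j, (⟪t' (j, a), u⟫_ℂ • r j (g a) - ⟪r j (t' (j, a)), u⟫_ℂ • g a) := by
      refine Finset.sum_congr rfl fun a _ => ?_
      rw [sum_XX, Finset.sum_sub_distrib, ← Finset.sum_smul]
      change (-∑ j, ⟪r j (t' (j, a)), u⟫_ℂ) • g a + ∑ j, ⟪t' (j, a), u⟫_ℂ • r j (g a) = _
      rw [neg_smul]
      abel
    rw [this]
  have hXX : ∀ s, XX r s ∈ Algebra.adjoin ℂ (Set.range ρ) := by
    intro s
    cases s with
    | none => exact one_mem _
    | some j => exact hr j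
  obtain ⟨N, τ, _, _, c, e, h1, h2, h3⟩ := hE.rat hXX
  obtain ⟨x0, hx0, hx0'⟩ := h2 η' hcom'
  obtain ⟨L, _, q, i1, hcard, hinj, hcol⟩ := square_exists h hρ hI c ⟨x0, hx0, by
    rintro rfl
    apply hη
    rw [← hx0']
    rfl⟩
  refine ⟨N, L, inferInstance, inferInstance, q, hcard, hinj, ?_⟩
  let tW : Md H (Fin m × Option (N × L)) := WithLp.toLp 2 (fun p =>
    p.2.elim 0 (fun p' => if p'.2 = i1 then ∑ k, (if e k = p'.1 then t k p.1 else 0) else 0))
  have hbW : ∀ (g' : Option (N × L) → H) (j : Fin m),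
      bet tW g' j = ∑ k, rk (t k j) (g' (some (e k, i1))) := by
    intro g' j
    apply ContinuousLinearMap.ext
    intro u
    rw [bet_apply, _root_.sum_apply, Fintype.sum_option, Fintype.sum_prod_type]
    have e0 : tW (j, none) = 0 := rfl
    have e1 : ∀ (k' : N), ∑ y : L, ⟪g' (some (k', y)), u⟫_ℂ • tW (j, some (k', y))
        = ∑ k, (if e k = k' then ⟪g' (some (k', i1)), u⟫_ℂ • t k j else 0) := by
      intro k'
      rw [Finset.sum_eq_single i1]
      · change ⟪g' (some (k', i1)), u⟫_ℂ • (if i1 = i1 then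
          ∑ k, (if e k = k' then t k j else 0) else 0) = _
        rw [if_pos rfl, Finset.smul_sum]
        refine Finset.sum_congr rfl fun k _ => ?_
        split_ifs
        · rfl
        · exact smul_zero _
      · intro y _ hy
        change ⟪g' (some (k', y)), u⟫_ℂ • (if y = i1 then
          ∑ k, (if e k = k' then t k j else 0) else 0) = 0
        rw [if_neg hy, smul_zero]
      · intro h; exact absurd (Finset.mem_univ _) h
    rw [e0, smul_zero, zero_add, Finset.sum_congr rfl fun k' _ => e1 k', Finset.sum_comm]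
    refine Finset.sum_congr rfl fun k _ => ?_
    rw [Finset.sum_ite_eq, if_pos (Finset.mem_univ _), rk_apply]
  have hcolG : ∀ g ∈ GG ρ q, pen ρ c (WithLp.toLp 2 (fun k => g (some (k, i1)))) = 0 := by
    intro g hg
    apply hcol
    intro l hl
    rw [pen_qe]
    have := (mem_GG ρ q g).1 hg l i1
    rw [if_neg hl] at this
    exact this
  refine ⟨tW, ?_, ?_⟩
  · intro g hg
    have h4 : com r t' (restr e (WithLp.toLp 2 (fun k => g (some (k, i1))) : Md H N)) = 0 :=
      h1 _ (hcolG g hg)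
    rw [← h4]
    unfold com
    refine Finset.sum_congr rfl fun j _ => ?_
    rw [hbW, hbW]
    rfl
  · intro g hg hb
    have h5 : restr e (WithLp.toLp 2 (fun k => g (some (k, i1))) : Md H N) = 0 := by
      apply md_ext
      intro k
      change g (some (e k, i1)) = 0
      refine ext_inner_left ℂ fun u => ?_
      rw [inner_zero_right]
      have h6 := htind (fun k => ⟪g (some (e k, i1)), u⟫_ℂ) (by
        intro j
        have h7 := congrArg (fun f : H →L[ℂ] H => f u) (hb j)
        simp only [hbW, _root_.sum_apply, rk_apply] at h7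
        exact h7) k
      rw [← inner_conj_symm, h6, map_zero]
    have h6 := h3 _ (hcolG g hg) h5
    have h7 := (mem_GG ρ q g).1 hg i1 i1
    rw [if_pos rfl] at h7
    rw [← h7]
    refine Finset.sum_eq_zero fun k _ => ?_
    have : g (some (k, i1)) = 0 := congrArg (fun v : Md H N => v k) h6
    rw [this, map_zero]

end Pool.Agent.Y325.DD
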