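import Pool.Agent.Y325.DD.B1

/-!
# Density lemmas, the dual column space, and the spaces `KW`, `KL`
-/

set_option autoImplicit false
set_option linter.unusedSectionVars false
set_option linter.unnecessarySimpa false

open scoped InnerProductSpace Topology ENNReal ComplexConjugate
open Filter Finset

noncomputable section

namespace Pool.Agent.Y325.DD

section general

variable {V : Type*} [NormedAddCommGroup V] [InnerProductSpace ℂ V] [CompleteSpace V]
variable {𝓐 : Set (V →L[ℂ] V)} {Ω : V}

/-- an injective map from a large space has dense range -/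
theorem dense_of_dm (h : TV 𝓐 Ω) {κ σ : Type*} [Fintype κ] [Fintype σ]
    {T : Md V κ →L[ℂ] Md V σ} (hT : Lin 𝓐 T) {E : Submodule ℂ (Md V κ)} (hE : Inv 𝓐 E)
    (hc : IsClosed (E : Set (Md V κ))) (hi : ∀ x ∈ E, T x = 0 → x = 0)
    (hd : (Fintype.card σ : ℝ) ≤ dm Ω E) :
    (E.map (T : Md V κ →ₗ[ℂ] Md V σ)).topologicalClosure = ⊤ := by
  have h1 := dm_map_inj h hT hE hc hi
  have h2 := dm_strict h (hE.map hT) Inv.top le_top (by rw [h1, dm_top h]; exact hd)
  rw [h2]
  exact isClosed_univ.submodule_topologicalClosure_eq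

/-- coordinate version -/
theorem dense_coord (h : TV 𝓐 Ω) {W : Type} [Fintype W] {E : Submodule ℂ (Md V W)}
    (hE : Inv 𝓐 E) (hc : IsClosed (E : Set (Md V W))) (w0 : W) (hi : ∀ x ∈ E, x w0 = 0 → x = 0)
    (hd : 1 ≤ dm Ω E) : Dense {v : V | ∃ g ∈ E, g w0 = v} := by
  classical
  have h1 := dense_of_dm h (T := sc (fun (_ : Unit) m => if w0 = m then (1 : ℂ) else 0))
    (sc_lin _) hE hc (by
      intro x hx h0
      apply hi x hx
      rw [sc_restr (fun _ : Unit => w0)] at h0
      exact congrArg (fun v : Md V Unit => v ()) h0) (by simpa using hd)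
  intro v
  have h2 : (WithLp.toLp 2 (fun _ => v) : Md V Unit) ∈
      (E.map ((sc (fun (_ : Unit) m => if w0 = m then (1 : ℂ) else 0) : Md V W →L[ℂ] Md V Unit) :
        Md V W →ₗ[ℂ] Md V Unit)).topologicalClosure := by
    rw [h1]; exact Submodule.mem_top
  have h3 : (pr () : Md V Unit →L[ℂ] V) (WithLp.toLp 2 (fun _ => v)) = v := rfl
  have h4 := map_mem_closure (pr () : Md V Unit →L[ℂ] V).continuous h2 (t := {v : V | ∃ g ∈ E, g w0 = v}) (by
    rintro _ ⟨g, hg, rfl⟩
    refine ⟨g, hg, ?_⟩
    change _ = (sc (fun (_ : Unit) m => if w0 = m then (1 : ℂ) else 0) g) ()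
    rw [sc_restr (fun _ : Unit => w0)]
    rfl)
  rwa [h3] at h4

theorem dm_le_one (h : TV 𝓐 Ω) {W : Type} [Fintype W] {E : Submodule ℂ (Md V W)}
    (hE : Inv 𝓐 E) (hc : IsClosed (E : Set (Md V W))) (w0 : W) (hi : ∀ x ∈ E, x w0 = 0 → x = 0) :
    dm Ω E ≤ 1 := by
  classical
  have h1 := dm_map_inj h (T := sc (fun (_ : Unit) m => if w0 = m then (1 : ℂ) else 0))
    (sc_lin _) hE hc (by
      intro x hx h0
      apply hi x hx
      rw [sc_restr (fun _ : Unit => w0)] at h0
      exact congrArg (fun v : Md V Unit => v ()) h0)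
  rw [← h1]
  have := dm_le h (E.map ((sc (fun (_ : Unit) m => if w0 = m then (1 : ℂ) else 0) :
    Md V W →L[ℂ] Md V Unit) : Md V W →ₗ[ℂ] Md V Unit))
  simpa using this

open Classical in
/-- the matrix for the nice vectors -/
def nmat {W σ : Type} (A : σ → W → (V →L[ℂ] V)) (w0 : W) {p : ℕ} (x : Fin p → (V →L[ℂ] V)) :
    ((Option (Fin p) × σ) ⊕ Fin p) → (Option (Fin p) × W) → (V →L[ℂ] V) := fun a b =>
  match a with
  | Sum.inl s => if s.1 = b.1 then A s.2 b.2 else 0
  | Sum.inr j => if b.2 = w0 then (b.1.elim (-x j) (fun j' => if j' = j then 1 else 0)) else 0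

/-- nice vectors are dense -/
theorem nice_dense (h : TV 𝓐 Ω) {W σ : Type} [Fintype W] [Fintype σ] {A : σ → W → (V →L[ℂ] V)}
    (hA : ∀ s w, A s w ∈ Set.centralizer 𝓐) (hcard : Fintype.card W = Fintype.card σ + 1) (w0 : W)
    (hi : ∀ g : Md V W, mt A g = 0 → g w0 = 0 → g = 0) {p : ℕ} {x : Fin p → (V →L[ℂ] V)}
    (hx : ∀ j, x j ∈ Set.centralizer 𝓐) {g : Md V W} (hg : mt A g = 0) :
    g ∈ closure {g : Md V W | mt A g = 0 ∧ ∀ j, ∃ g', mt A g' = 0 ∧ g' w0 = x j (g w0)} := by
  classical
  have hn : ∀ a b, nmat A w0 x a b ∈ Set.centralizer 𝓐 := by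
    rintro (s | j) ⟨o, w⟩
    · simp only [nmat]
      split_ifs
      · exact hA _ _
      · exact cent_zero
    · simp only [nmat]
      split_ifs
      · cases o with
        | none => exact cent_neg (hx j)
        | some j' =>
          simp only [Option.elim_some]
          split_ifs
          · exact Set.one_mem_centralizer
          · exact cent_zero
      · exact cent_zero
  have hL : Lin 𝓐 (mt (nmat A w0 x)) := lin_mt hn
  let GP : Submodule ℂ (Md V (Option (Fin p) × W)) :=
    LinearMap.ker (mt (nmat A w0 x) : Md V (Option (Fin p) × W) →ₗ[ℂ]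
      Md V ((Option (Fin p) × σ) ⊕ Fin p))
  have hGP : ∀ f, f ∈ GP ↔ (∀ o, mt A (WithLp.toLp 2 (fun w => f (o, w))) = 0) ∧
      ∀ j, f (some j, w0) = x j (f (none, w0)) := by
    intro f
    have e1 : ∀ o s, mt (nmat A w0 x) f (Sum.inl (o, s))
        = mt A (WithLp.toLp 2 (fun w => f (o, w))) s := by
      intro o s
      rw [mt_apply, mt_apply, Fintype.sum_prod_type, Finset.sum_eq_single o]
      · refine Finset.sum_congr rfl fun w _ => ?_
        simp only [nmat]
        rw [if_pos trivial]
      · intro o' _ ho'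
        refine Finset.sum_eq_zero fun w _ => ?_
        simp only [nmat]
        rw [if_neg (Ne.symm ho')]
        rfl
      · intro h; exact absurd (Finset.mem_univ _) h
    have e2 : ∀ j, mt (nmat A w0 x) f (Sum.inr j) = f (some j, w0) - x j (f (none, w0)) := by
      intro j
      have e3 : ∀ o, ∑ w, nmat A w0 x (Sum.inr j) (o, w) (f (o, w))
          = (o.elim (-x j) (fun j' => if j' = j then 1 else 0) : V →L[ℂ] V) (f (o, w0)) := by
        intro o
        rw [Finset.sum_eq_single w0]
        · simp only [nmat]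
          rw [if_pos trivial]
        · intro w _ hw
          simp only [nmat]
          rw [if_neg hw]
          rfl
        · intro h; exact absurd (Finset.mem_univ _) h
      rw [mt_apply, Fintype.sum_prod_type, Finset.sum_congr rfl fun o _ => e3 o,
        Fintype.sum_option, Finset.sum_eq_single j]
      · simp only [Option.elim_none, Option.elim_some]
        rw [if_pos trivial]
        change -(x j (f (none, w0))) + f (some j, w0) = _
        abel
      · intro j' _ hj'
        simp only [Option.elim_some]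
        rw [if_neg hj']
        rfl
      · intro h; exact absurd (Finset.mem_univ _) h
    constructor
    · intro hf
      have hf' : mt (nmat A w0 x) f = 0 := hf
      refine ⟨fun o => ?_, fun j => ?_⟩
      · apply md_ext
        intro s
        rw [← e1, hf']
        rfl
      · rw [← sub_eq_zero, ← e2, hf']
        rfl
    · rintro ⟨h1, h2⟩
      change mt (nmat A w0 x) f = 0
      apply md_ext
      rintro (⟨o, s⟩ | j)
      · rw [e1, h1]
        rfl
      · rw [e2, h2, sub_self]
        rfl
  have hd1 : (1 : ℝ) ≤ dm Ω GP := by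
    have := dm_ker_ge h hL
    refine le_trans (le_of_eq ?_) this
    rw [Fintype.card_sum, Fintype.card_prod, Fintype.card_prod, Fintype.card_option,
      Fintype.card_fin, hcard]
    push_cast
    ring
  have hclosed : IsClosed (GP : Set (Md V (Option (Fin p) × W))) :=
    (mt (nmat A w0 x)).isClosed_ker
  let T : Md V (Option (Fin p) × W) →L[ℂ] Md V W :=
    sc (fun w m => if (none, w) = m then (1 : ℂ) else 0)
  have hTa : ∀ f, T f = restr (fun w => (none, w)) f := fun f => sc_restr _ f
  have h1 := dm_map_inj h (T := T) (sc_lin _) (Inv.ker hL) hclosed (by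
    intro f hf h0
    obtain ⟨hf1, hf2⟩ := (hGP f).1 hf
    rw [hTa] at h0
    have h00 : ∀ w, f (none, w) = 0 := fun w => congrArg (fun v : Md V W => v w) h0
    apply md_ext
    rintro ⟨o, w⟩
    cases o with
    | none => exact h00 w
    | some j =>
      have h2 : f (some j, w0) = 0 := by rw [hf2, h00, map_zero]
      have h3 := hi _ (hf1 (some j)) h2
      exact congrArg (fun v : Md V W => v w) h3)
  have hle : GP.map (T : Md V (Option (Fin p) × W) →ₗ[ℂ] Md V W)
      ≤ LinearMap.ker (mt A : Md V W →ₗ[ℂ] Md V σ) := by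
    rintro _ ⟨f, hf, rfl⟩
    change mt A (T f) = 0
    rw [hTa]
    exact ((hGP f).1 hf).1 none
  have h2 := dm_le_one h (Inv.ker (lin_mt hA)) (mt A).isClosed_ker w0 (fun g hg h0 => hi g hg h0)
  have h3 := dm_strict h ((Inv.ker hL).map (sc_lin _)) (Inv.ker (lin_mt hA)) hle (by
    rw [h1]
    exact h2.trans hd1)
  have h4 : g ∈ (GP.map (T : Md V (Option (Fin p) × W) →ₗ[ℂ] Md V W)).topologicalClosure := by
    rw [h3]
    exact Submodule.le_topologicalClosure _ hg
  refine closure_mono ?_ h4
  rintro _ ⟨f, hf, rfl⟩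
  obtain ⟨hf1, hf2⟩ := (hGP f).1 hf
  change mt A (T f) = 0 ∧ ∀ j, ∃ g', mt A g' = 0 ∧ g' w0 = x j ((T f) w0)
  rw [hTa]
  exact ⟨hf1 none, fun j => ⟨_, hf1 (some j), hf2 j⟩⟩

end general

end Pool.Agent.Y325.DD
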