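import Pool.Agent.Y325.DD.B2

/-!
# The spaces `KW` and `KL`
-/

set_option autoImplicit false
set_option linter.unusedSectionVars false
set_option linter.unnecessarySimpa false

open scoped InnerProductSpace Topology ENNReal ComplexConjugate
open Filter Finset

noncomputable section

namespace Pool.Agent.Y325.DD

variable {H : Type} [NormedAddCommGroup H] [InnerProductSpace ℂ H] [CompleteSpace H]
variable {M : Set (H →L[ℂ] H)} {ξ : H} {n m : ℕ}
variable {N L : Type} [Fintype N] [Fintype L]

/-- the standing assumptions -/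
structure Pk (M : Set (H →L[ℂ] H)) (ξ : H) (ρ : Fin n → (H →L[ℂ] H))
    (r : Fin m → (H →L[ℂ] H)) (q : Option (Fin n) → L → N → ℂ) : Prop where
  tr : Tr M ξ
  rho : ∀ k, ρ k ∈ Set.centralizer M
  rho_sa : ∀ k, star (ρ k) = ρ k
  inj : Inj ρ
  r_ad : ∀ j, r j ∈ Algebra.adjoin ℂ (Set.range ρ)
  r_cent : ∀ j, r j ∈ Set.centralizer M
  r_sa : ∀ j, star (r j) = r j
  card : Fintype.card L = Fintype.card N
  q_inj : ∀ x : Md H N, pen ρ q x = 0 → x = 0

variable {ρ : Fin n → (H →L[ℂ] H)} {r : Fin m → (H →L[ℂ] H)} {q : Option (Fin n) → L → N → ℂ}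

theorem Pk.adj_rho (P : Pk M ξ ρ r q) (k : Fin n) : ContinuousLinearMap.adjoint (ρ k) = ρ k := by
  rw [← ContinuousLinearMap.star_eq_adjoint]
  exact P.rho_sa k

theorem Pk.adj_r (P : Pk M ξ ρ r q) (k : Fin m) : ContinuousLinearMap.adjoint (r k) = r k := by
  rw [← ContinuousLinearMap.star_eq_adjoint]
  exact P.r_sa k

theorem Pk.adj_rr (P : Pk M ξ ρ r q) (o : Option (Fin n)) :
    ContinuousLinearMap.adjoint (rr ρ o) = rr ρ o := by
  cases o with
  | none =>
    change ContinuousLinearMap.adjoint (1 : H →L[ℂ] H) = 1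
    rw [← ContinuousLinearMap.star_eq_adjoint, star_one]
  | some i => exact P.adj_rho i

theorem Pk.GG_zero (P : Pk M ξ ρ r q) {g : Md H (Option (N × L))} (hg : g ∈ GG ρ q)
    (h0 : g none = 0) : g = 0 := by
  classical
  apply md_ext
  intro w
  cases w with
  | none => exact h0
  | some p =>
    obtain ⟨k, l⟩ := p
    have h1 : pen ρ q (WithLp.toLp 2 (fun k => g (some (k, l)))) = 0 := by
      apply md_ext
      intro l'
      rw [pen_qe]
      have := (mem_GG ρ q g).1 hg l' l
      rw [h0, ite_self] at this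
      exact this
    have h2 := P.q_inj _ h1
    exact congrArg (fun v : Md H N => v k) h2

theorem GG_closed : IsClosed (GG ρ q : Set (Md H (Option (N × L)))) := (mt (lamG ρ q)).isClosed_ker

theorem Pk.GG_inv (P : Pk M ξ ρ r q) : Inv M (GG ρ q) := Inv.ker (lamG_lin P.rho q)

theorem Pk.GG_dim (P : Pk M ξ ρ r q) : 1 ≤ dm ξ (GG ρ q) := by
  have := dm_ker_ge P.tr.tv (lamG_lin P.rho q)
  refine le_trans (le_of_eq ?_) this
  rw [Fintype.card_option, Fintype.card_prod, Fintype.card_prod, P.card]
  push_cast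
  ring

theorem Pk.GG_dense (P : Pk M ξ ρ r q) : Dense {v : H | ∃ g ∈ GG ρ q, g none = v} :=
  dense_coord P.tr.tv P.GG_inv GG_closed none (fun _ hg h0 => P.GG_zero hg h0) P.GG_dim

/-- the adjoint pencil is injective -/
theorem Pk.adj_inj (P : Pk M ξ ρ r q) {x : Md H L}
    (hx : ContinuousLinearMap.adjoint (pen ρ q) x = 0) : x = 0 := by
  have h1 := index_thm P.tr.tv (pen_lin P.rho q)
  have h2 : LinearMap.ker (pen ρ q : Md H N →ₗ[ℂ] Md H L) = ⊥ := by
    rw [eq_bot_iff]
    intro x hx
    exact P.q_inj x hx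
  rw [h2, dm_bot, P.card, zero_add] at h1
  have h3 : dm ξ (LinearMap.ker (ContinuousLinearMap.adjoint (pen ρ q) : Md H L →ₗ[ℂ] Md H N)) = 0 := by
    linarith
  have h4 := dm_eq_zero P.tr.tv (Inv.ker ((pen_lin P.rho q).adjoint P.tr.tv)) h3
  have : x ∈ LinearMap.ker (ContinuousLinearMap.adjoint (pen ρ q) : Md H L →ₗ[ℂ] Md H N) := hx
  rw [h4, Submodule.mem_bot] at this
  exact this

open Classical in
/-- the matrix defining the dual space -/
def lamD (ρ : Fin n → (H →L[ℂ] H)) (q : Option (Fin n) → L → N → ℂ) :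
    N × N → Option (N × L) → (H →L[ℂ] H) := fun p w =>
  match w with
  | none => if p.1 = p.2 then -1 else 0
  | some (k, q') => if p.2 = k then ContinuousLinearMap.adjoint (qe ρ q q' p.1) else 0

theorem lamD_apply [DecidableEq N] (g : Md H (Option (N × L))) (l k : N) :
    mt (lamD ρ q) g (l, k)
      = ∑ p, ContinuousLinearMap.adjoint (qe ρ q p l) (g (some (k, p)))
      - (if l = k then g none else 0) := by
  classical
  rw [mt_apply, Fintype.sum_option, Fintype.sum_prod_type, Finset.sum_eq_single k]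
  · have e1 : ∀ y : L, lamD ρ q (l, k) (some (k, y)) (g (some (k, y)))
        = ContinuousLinearMap.adjoint (qe ρ q y l) (g (some (k, y))) := by
      intro y
      simp only [lamD]
      rw [if_pos trivial]
    rw [Finset.sum_congr rfl fun y _ => e1 y]
    simp only [lamD]
    by_cases hl : l = k
    · rw [if_pos hl, if_pos hl]
      change -(g none) + _ = _
      abel
    · rw [if_neg hl, if_neg hl]
      change (0 : H) + _ = _
      rw [zero_add, sub_zero]
  · intro k' _ hk'
    refine Finset.sum_eq_zero fun y _ => ?_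
    simp only [lamD]
    rw [if_neg (Ne.symm hk')]
    rfl
  · intro h; exact absurd (Finset.mem_univ _) h

theorem mem_GD [DecidableEq N] (g : Md H (Option (N × L))) : mt (lamD ρ q) g = 0 ↔
      ∀ l k, ∑ p, ContinuousLinearMap.adjoint (qe ρ q p l) (g (some (k, p)))
        = if l = k then g none else 0 := by
  constructor
  · intro hg' l k
    have := congrArg (fun v : Md H (N × N) => v (l, k)) hg'
    change mt (lamD ρ q) g (l, k) = 0 at this
    rw [lamD_apply, sub_eq_zero] at this
    exact this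
  · intro hg
    apply md_ext
    rintro ⟨l, k⟩
    rw [lamD_apply, hg, sub_self]
    rfl

theorem Pk.lamD_cent (P : Pk M ξ ρ r q) (s : N × N) (w : Option (N × L)) :
    lamD ρ q s w ∈ Set.centralizer M := by
  classical
  rcases w with _ | ⟨k, q'⟩
  · simp only [lamD]
    split_ifs
    · exact cent_neg Set.one_mem_centralizer
    · exact cent_zero
  · simp only [lamD]
    split_ifs
    · rw [← ContinuousLinearMap.star_eq_adjoint]
      exact P.tr.tv.star_cent (qe_cent P.rho q _ _)
    · exact cent_zero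

theorem pen_adj_apply (x : Md H L) (k : N) :
    ContinuousLinearMap.adjoint (pen ρ q) x k
      = ∑ p, ContinuousLinearMap.adjoint (qe ρ q p k) (x p) := by
  unfold pen
  rw [mt_adjoint, mt_apply]
  rfl

theorem Pk.GD_zero (P : Pk M ξ ρ r q) {g : Md H (Option (N × L))} (hg : mt (lamD ρ q) g = 0)
    (h0 : g none = 0) : g = 0 := by
  classical
  apply md_ext
  intro w
  cases w with
  | none => exact h0
  | some p =>
    obtain ⟨k, l⟩ := p
    have h1 : ContinuousLinearMap.adjoint (pen ρ q) (WithLp.toLp 2 (fun l => g (some (k, l)))) = 0 := by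
      apply md_ext
      intro l'
      rw [pen_adj_apply]
      have := (mem_GD g).1 hg l' k
      rw [h0, ite_self] at this
      exact this
    have h2 := P.adj_inj h1
    exact congrArg (fun v : Md H L => v l) h2

theorem Pk.GD_card (P : Pk M ξ ρ r q) :
    Fintype.card (Option (N × L)) = Fintype.card (N × N) + 1 := by
  rw [Fintype.card_option, Fintype.card_prod, Fintype.card_prod, P.card]

theorem Pk.GG_card (P : Pk M ξ ρ r q) :
    Fintype.card (Option (N × L)) = Fintype.card (L × L) + 1 := by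
  rw [Fintype.card_option, Fintype.card_prod, Fintype.card_prod, P.card]

theorem Pk.GD_dense (P : Pk M ξ ρ r q) :
    Dense {v : H | ∃ g : Md H (Option (N × L)), mt (lamD ρ q) g = 0 ∧ g none = v} := by
  have hL : Lin M (mt (lamD ρ q)) := lin_mt P.lamD_cent
  have h1 := dense_coord P.tr.tv (Inv.ker hL) (mt (lamD ρ q)).isClosed_ker none
    (fun _ hg h0 => P.GD_zero hg h0) (by
      have := dm_ker_ge P.tr.tv hL
      refine le_trans (le_of_eq ?_) this
      rw [P.GD_card]
      push_cast
      ring)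
  exact h1

/-- the nice dual vectors have dense values -/
theorem Pk.nice_dense (P : Pk M ξ ρ r q) :
    Dense {v : H | ∃ g : Md H (Option (N × L)), mt (lamD ρ q) g = 0 ∧ g none = v ∧
      ∀ j, ∃ g' : Md H (Option (N × L)), mt (lamD ρ q) g' = 0 ∧ g' none = r j v} := by
  have h1 := P.GD_dense
  refine dense_closure.1 (h1.mono ?_)
  rintro v ⟨g, hg, rfl⟩
  have h2 := DD.nice_dense P.tr.tv P.lamD_cent P.GD_card none
    (fun g hg h0 => P.GD_zero hg h0) P.r_cent hg
  exact map_mem_closure (f := fun x : Md H (Option (N × L)) => x none) (by fun_prop) h2 (by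
    rintro g' ⟨hg', hj⟩
    exact ⟨g', hg', rfl, hj⟩)

/-- pairing between the two column spaces -/
theorem pairing {g h : Md H (Option (N × L))} (hg : g ∈ GG ρ q) (hh : mt (lamD ρ q) h = 0)
    (k : N) (l : L) : ⟪h none, g (some (k, l))⟫_ℂ = ⟪h (some (k, l)), g none⟫_ℂ := by
  classical
  have h1 : ⟪h none, g (some (k, l))⟫_ℂ = ∑ k', ⟪if k' = k then h none else 0, g (some (k', l))⟫_ℂ := by
    rw [Finset.sum_eq_single k]
    · rw [if_pos rfl]
    · intro k' _ hk'
      rw [if_neg hk', inner_zero_left]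
    · intro h; exact absurd (Finset.mem_univ _) h
  have h2 : ⟪h (some (k, l)), g none⟫_ℂ = ∑ p, ⟪h (some (k, p)), if p = l then g none else 0⟫_ℂ := by
    rw [Finset.sum_eq_single l]
    · rw [if_pos rfl]
    · intro k' _ hk'
      rw [if_neg hk', inner_zero_right]
    · intro h; exact absurd (Finset.mem_univ _) h
  rw [h1, h2]
  simp only [← (mem_GD h).1 hh, ← (mem_GG ρ q g).1 hg, sum_inner, inner_sum,
    ContinuousLinearMap.adjoint_inner_left]
  rw [Finset.sum_comm]

/-- the right relation -/
theorem Pk.right_rel (P : Pk M ξ ρ r q) [DecidableEq N] {g : Md H (Option (N × L))}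
    (hg : g ∈ GG ρ q) {g' : Fin n → Md H (Option (N × L))} (hg' : ∀ i, g' i ∈ GG ρ q)
    (hn : ∀ i, g' i none = ρ i (g none)) (k l : N) :
    ∑ i, ∑ p, q (some i) p l • g' i (some (k, p)) + ∑ p, q none p l • g (some (k, p))
      = if k = l then g none else 0 := by
  classical
  let x : Md H N := WithLp.toLp 2 (fun k =>
    ∑ i, ∑ p, q (some i) p l • g' i (some (k, p)) + ∑ p, q none p l • g (some (k, p))
      - if k = l then g none else 0)
  have hx : pen ρ q x = 0 := by
    apply md_ext
    intro a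
    rw [pen_qe]
    change ∑ k, qe ρ q a k (∑ i, ∑ p, q (some i) p l • g' i (some (k, p))
      + ∑ p, q none p l • g (some (k, p)) - if k = l then g none else 0) = 0
    have e1 : ∀ k, qe ρ q a k (∑ i, ∑ p, q (some i) p l • g' i (some (k, p))
        + ∑ p, q none p l • g (some (k, p)) - if k = l then g none else 0)
        = ∑ i, ∑ p, q (some i) p l • qe ρ q a k (g' i (some (k, p)))
          + ∑ p, q none p l • qe ρ q a k (g (some (k, p)))
          - (if k = l then qe ρ q a k (g none) else 0) := by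
      intro k
      rw [map_sub, map_add, map_sum, map_sum]
      simp only [map_sum, map_smul]
      congr 1
      split_ifs
      · rfl
      · exact map_zero _
    rw [Finset.sum_congr rfl fun k _ => e1 k, Finset.sum_sub_distrib, Finset.sum_add_distrib,
      Finset.sum_ite_eq', if_pos (Finset.mem_univ _)]
    have e2 : ∑ k, ∑ i, ∑ p, q (some i) p l • qe ρ q a k (g' i (some (k, p)))
        = ∑ i, q (some i) a l • ρ i (g none) := by
      rw [Finset.sum_comm]
      refine Finset.sum_congr rfl fun i _ => ?_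
      rw [Finset.sum_comm]
      have : ∀ p, ∑ k, q (some i) p l • qe ρ q a k (g' i (some (k, p)))
          = if a = p then q (some i) p l • ρ i (g none) else 0 := by
        intro p
        rw [← Finset.smul_sum, (mem_GG ρ q (g' i)).1 (hg' i) a p, hn]
        split_ifs
        · rfl
        · exact smul_zero _
      rw [Finset.sum_congr rfl fun p _ => this p, Finset.sum_ite_eq, if_pos (Finset.mem_univ _)]
    have e3 : ∑ k, ∑ p, q none p l • qe ρ q a k (g (some (k, p))) = q none a l • g none := by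
      rw [Finset.sum_comm]
      have : ∀ p, ∑ k, q none p l • qe ρ q a k (g (some (k, p)))
          = if a = p then q none p l • g none else 0 := by
        intro p
        rw [← Finset.smul_sum, (mem_GG ρ q g).1 hg a p]
        split_ifs
        · rfl
        · exact smul_zero _
      rw [Finset.sum_congr rfl fun p _ => this p, Finset.sum_ite_eq, if_pos (Finset.mem_univ _)]
    rw [e2, e3, qe_apply, Fintype.sum_option, rr_none]
    simp only [rr_some]
    rw [add_comm, sub_self]
  have h0 := P.q_inj x hx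
  have h1 : x k = 0 := congrArg (fun v : Md H N => v k) h0
  exact sub_eq_zero.1 h1


/-- block diagonal matrices -/
def bd {X : Type*} [Zero X] {σ κ : Type*} (m : ℕ) (A : σ → κ → X) : (Fin m × σ) → (Fin m × κ) → X :=
  fun p p' => if p.1 = p'.1 then A p.2 p'.2 else 0

theorem mt_bd {V : Type*} [NormedAddCommGroup V] [InnerProductSpace ℂ V] [CompleteSpace V]
    {σ κ : Type*} [Fintype σ] [Fintype κ] (A : σ → κ → (V →L[ℂ] V)) (x : Md V (Fin m × κ))
    (j : Fin m) (a : σ) : mt (bd m A) x (j, a) = ∑ b, A a b (x (j, b)) := by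
  rw [mt_apply, Fintype.sum_prod_type, Finset.sum_eq_single j]
  · refine Finset.sum_congr rfl fun b _ => ?_
    unfold bd
    rw [if_pos rfl]
  · intro j' _ hj'
    refine Finset.sum_eq_zero fun b _ => ?_
    unfold bd
    rw [if_neg (Ne.symm hj')]
    rfl
  · intro h; exact absurd (Finset.mem_univ _) h

theorem sc_bd {V : Type*} [NormedAddCommGroup V] [InnerProductSpace ℂ V] [CompleteSpace V]
    {σ κ : Type} [Fintype σ] [Fintype κ] (s : σ → κ → ℂ) (x : Md V (Fin m × κ))
    (j : Fin m) (a : σ) : sc (bd m s) x (j, a) = ∑ b, s a b • x (j, b) := by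
  rw [sc_apply, Fintype.sum_prod_type, Finset.sum_eq_single j]
  · refine Finset.sum_congr rfl fun b _ => ?_
    unfold bd
    rw [if_pos rfl]
  · intro j' _ hj'
    refine Finset.sum_eq_zero fun b _ => ?_
    unfold bd
    rw [if_neg (Ne.symm hj'), zero_smul]
  · intro h; exact absurd (Finset.mem_univ _) h

open Classical in
/-- scalar parts of the pencil, `i ≥ 1` -/
def cLi (q : Option (Fin n) → L → N → ℂ) (i : Fin n) : Option (N × L) → N × N → ℂ := fun w p =>
  match w with
  | none => 0
  | some (k, l) => if k = p.1 then conj (q (some i) l p.2) else 0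

open Classical in
/-- scalar part of the pencil, constant term -/
def cL0 (q : Option (Fin n) → L → N → ℂ) : Option (N × L) → N × N → ℂ := fun w p =>
  match w with
  | none => if p.1 = p.2 then 1 else 0
  | some (k, l) => if k = p.1 then -conj (q none l p.2) else 0

section evalL

variable {V : Type*} [NormedAddCommGroup V] [InnerProductSpace ℂ V] [CompleteSpace V]

theorem cLi_none (i : Fin n) (x : Md V (Fin m × (N × N))) (j : Fin m) :
    sc (bd m (cLi q i)) x (j, none) = 0 := by
  rw [sc_bd]
  refine Finset.sum_eq_zero fun p _ => ?_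
  simp only [cLi, zero_smul]

theorem cLi_some (i : Fin n) (x : Md V (Fin m × (N × N))) (j : Fin m) (k : N) (p : L) :
    sc (bd m (cLi q i)) x (j, some (k, p)) = ∑ l, conj (q (some i) p l) • x (j, (k, l)) := by
  rw [sc_bd, Fintype.sum_prod_type, Finset.sum_eq_single k]
  · refine Finset.sum_congr rfl fun l _ => ?_
    simp only [cLi]
    rw [if_pos trivial]
  · intro k' _ hk'
    refine Finset.sum_eq_zero fun l _ => ?_
    simp only [cLi]
    rw [if_neg (Ne.symm hk'), zero_smul]
  · intro h; exact absurd (Finset.mem_univ _) h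

theorem cL0_none (x : Md V (Fin m × (N × N))) (j : Fin m) :
    sc (bd m (cL0 q)) x (j, none) = ∑ k, x (j, (k, k)) := by
  rw [sc_bd, Fintype.sum_prod_type]
  refine Finset.sum_congr rfl fun k _ => ?_
  rw [Finset.sum_eq_single k]
  · simp only [cL0]
    rw [if_pos trivial, one_smul]
  · intro l _ hl
    simp only [cL0]
    rw [if_neg (Ne.symm hl), zero_smul]
  · intro h; exact absurd (Finset.mem_univ _) h

theorem cL0_some (x : Md V (Fin m × (N × N))) (j : Fin m) (k : N) (p : L) :
    sc (bd m (cL0 q)) x (j, some (k, p)) = -∑ l, conj (q none p l) • x (j, (k, l)) := by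
  rw [sc_bd, Fintype.sum_prod_type, Finset.sum_eq_single k, ← Finset.sum_neg_distrib]
  · refine Finset.sum_congr rfl fun l _ => ?_
    simp only [cL0]
    rw [if_pos trivial, neg_smul]
  · intro k' _ hk'
    refine Finset.sum_eq_zero fun l _ => ?_
    simp only [cL0]
    rw [if_neg (Ne.symm hk'), zero_smul]
  · intro h; exact absurd (Finset.mem_univ _) h

end evalL

theorem com_add_left {A : Type*} [Fintype A] (r : Fin m → (H →L[ℂ] H)) (t t' : Md H (Fin m × A))
    (g : A → H) : com r (t + t') g = com r t g + com r t' g := by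
  apply ContinuousLinearMap.ext
  intro u
  rw [_root_.add_apply, com_apply, com_apply, com_apply, ← Finset.sum_add_distrib]
  refine Finset.sum_congr rfl fun j _ => ?_
  rw [← Finset.sum_add_distrib]
  refine Finset.sum_congr rfl fun a _ => ?_
  rw [PiLp.add_apply, map_add, smul_add, smul_add]
  abel

theorem com_smul_left {A : Type*} [Fintype A] (r : Fin m → (H →L[ℂ] H)) (c : ℂ)
    (t : Md H (Fin m × A)) (g : A → H) : com r (c • t) g = c • com r t g := by
  apply ContinuousLinearMap.ext
  intro u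
  change com r (c • t) g u = c • com r t g u
  rw [com_apply, com_apply, Finset.smul_sum]
  refine Finset.sum_congr rfl fun j _ => ?_
  rw [Finset.smul_sum]
  refine Finset.sum_congr rfl fun a _ => ?_
  rw [PiLp.smul_apply, map_smul, smul_sub, smul_comm c, smul_comm c]

theorem com_zero_left {A : Type*} [Fintype A] (r : Fin m → (H →L[ℂ] H)) (g : A → H) :
    com r (0 : Md H (Fin m × A)) g = 0 := by
  have := com_smul_left r 0 (0 : Md H (Fin m × A)) g
  rwa [zero_smul, zero_smul] at this

/-- the space `KW` -/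
def KW (ρ : Fin n → (H →L[ℂ] H)) (r : Fin m → (H →L[ℂ] H)) (q : Option (Fin n) → L → N → ℂ) :
    Submodule ℂ (Md H (Fin m × Option (N × L))) where
  carrier := {t | ∀ g ∈ GG ρ q, com r t g = 0}
  add_mem' := by
    intro t t' ht ht' g hg
    rw [com_add_left, ht g hg, ht' g hg, add_zero]
  zero_mem' := fun g _ => com_zero_left r g
  smul_mem' := by
    intro c t ht g hg
    rw [com_smul_left, ht g hg, smul_zero]

theorem mem_KW {t : Md H (Fin m × Option (N × L))} :
    t ∈ KW ρ r q ↔ ∀ g ∈ GG ρ q, com r t g = 0 := Iff.rfl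

/-- the space `KL` -/
def KL (ρ : Fin n → (H →L[ℂ] H)) (r : Fin m → (H →L[ℂ] H)) (q : Option (Fin n) → L → N → ℂ) :
    Submodule ℂ (Md H (Fin m × (N × N))) where
  carrier := {s | ∀ i, sc (bd m (cLi q i)) s ∈ KW ρ r q}
  add_mem' := by
    intro t t' ht ht' i
    rw [map_add]
    exact add_mem (ht i) (ht' i)
  zero_mem' := by
    intro i
    rw [map_zero]
    exact zero_mem _
  smul_mem' := by
    intro c t ht i
    rw [map_smul]
    exact Submodule.smul_mem _ _ (ht i)

theorem mem_KL {t : Md H (Fin m × (N × N))} :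
    t ∈ KL ρ r q ↔ ∀ i, sc (bd m (cLi q i)) t ∈ KW ρ r q := Iff.rfl

theorem KW_RC : RC (KW ρ r q) (Option (Fin m)) (XX r) := by
  refine ⟨(GG ρ q) × H, fun p s b => s.elim ⟪r b.1 (p.1.1 b.2), p.2⟫_ℂ
    (fun j => if j = b.1 then -⟪p.1.1 b.2, p.2⟫_ℂ else 0), fun t => ?_⟩
  have key : ∀ p : (GG ρ q) × H, ∑ b : Fin m × Option (N × L),
      ∑ s, (Option.elim s ⟪r b.1 (p.1.1 b.2), p.2⟫_ℂ
        (fun j => if j = b.1 then -⟪p.1.1 b.2, p.2⟫_ℂ else 0)) • XX r s (t b)
      = com r t p.1.1 p.2 := by
    intro p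
    rw [com_apply, Fintype.sum_prod_type]
    refine Finset.sum_congr rfl fun j _ => Finset.sum_congr rfl fun a _ => ?_
    rw [sum_XX, Option.elim_none, Finset.sum_eq_single j]
    · rw [Option.elim_some, if_pos rfl, neg_smul, sub_eq_add_neg]
    · intro j' _ hj'
      rw [Option.elim_some, if_neg hj', zero_smul]
    · intro h; exact absurd (Finset.mem_univ _) h
  constructor
  · intro ht p
    change ∑ b : Fin m × Option (N × L), ∑ s, (Option.elim s ⟪r b.1 (p.1.1 b.2), p.2⟫_ℂ
        (fun j => if j = b.1 then -⟪p.1.1 b.2, p.2⟫_ℂ else 0)) • XX r s (t b) = 0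
    rw [key, ht p.1.1 p.1.2]
    rfl
  · intro h g hg
    apply ContinuousLinearMap.ext
    intro u
    have := h (⟨g, hg⟩, u)
    change ∑ b : Fin m × Option (N × L), ∑ s, (Option.elim s ⟪r b.1 (g b.2), u⟫_ℂ
        (fun j => if j = b.1 then -⟪g b.2, u⟫_ℂ else 0)) • XX r s (t b) = 0 at this
    rw [key (⟨g, hg⟩, u)] at this
    exact this

theorem KL_RC : RC (KL ρ r q) (Option (Fin m)) (XX r) :=
  RC.comap KW_RC (fun i => bd m (cLi q i)) fun _ => Iff.rfl

theorem Pk.XX_ad (P : Pk M ξ ρ r q) (s : Option (Fin m)) :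
    XX r s ∈ Algebra.adjoin ℂ (Set.range ρ) := by
  cases s with
  | none => exact one_mem _
  | some j => exact P.r_ad j

theorem Pk.KW_int (P : Pk M ξ ρ r q) : ∃ z : ℤ, dm ξ (KW ρ r q) = z :=
  (KW_RC.rat P.XX_ad).dm_int P.tr.tv P.rho P.inj

theorem Pk.KL_int (P : Pk M ξ ρ r q) : ∃ z : ℤ, dm ξ (KL ρ r q) = z :=
  (KL_RC.rat P.XX_ad).dm_int P.tr.tv P.rho P.inj

theorem KW_closed : IsClosed (KW ρ r q : Set (Md H (Fin m × Option (N × L)))) := by
  have : (KW ρ r q : Set (Md H (Fin m × Option (N × L))))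
      = ⋂ g : GG ρ q, ⋂ u : H, {t | com r t g.1 u = 0} := by
    ext t
    simp only [Set.mem_iInter, Set.mem_ofPred_eq]
    constructor
    · intro ht g u
      rw [ht g.1 g.2]
      rfl
    · intro h g hg
      apply ContinuousLinearMap.ext
      intro u
      exact h ⟨g, hg⟩ u
  rw [this]
  refine isClosed_iInter fun g => isClosed_iInter fun u => ?_
  simp only [com_apply]
  exact isClosed_eq (by fun_prop) (by fun_prop)

theorem KL_closed : IsClosed (KL ρ r q : Set (Md H (Fin m × (N × N)))) := by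
  have : (KL ρ r q : Set (Md H (Fin m × (N × N))))
      = ⋂ i : Fin n, (sc (bd m (cLi q i)) : Md H (Fin m × (N × N)) →L[ℂ] _) ⁻¹'
        (KW ρ r q : Set (Md H (Fin m × Option (N × L)))) := by
    ext t
    simp only [Set.mem_iInter]
    rfl
  rw [this]
  exact isClosed_iInter fun i => KW_closed.preimage (ContinuousLinearMap.continuous _)

theorem com_dg {A : Type*} [Fintype A] {a : H →L[ℂ] H} {r : Fin m → (H →L[ℂ] H)}
    (hr : ∀ j x, r j (a x) = a (r j x)) (t : Md H (Fin m × A)) (g : A → H) (u : H) :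
    com r (dg a t) g u = a (com r t g u) := by
  rw [com_apply, com_apply]
  simp only [map_sum, map_sub, map_smul, dg_apply, hr]

theorem Pk.KW_inv (P : Pk M ξ ρ r q) : Inv M (KW ρ r q) := by
  intro a ha t ht g hg
  apply ContinuousLinearMap.ext
  intro u
  rw [com_dg (fun j x => cent_comm (P.r_cent j) ha x), ht g hg]
  exact map_zero a

theorem Pk.KL_inv (P : Pk M ξ ρ r q) : Inv M (KL ρ r q) := by
  intro a ha t ht i
  rw [sc_lin (𝓐 := M) _ a ha]
  exact P.KW_inv a ha _ (ht i)

theorem bet_L0 [DecidableEq N] (s : Md H (Fin m × (N × N))) {g : Option (N × L) → H}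
    {g' : Fin n → Option (N × L) → H}
    (hrel : ∀ k l, ∑ i, ∑ p, q (some i) p l • g' i (some (k, p)) + ∑ p, q none p l • g (some (k, p))
      = if k = l then g none else 0) (j : Fin m) :
    bet (sc (bd m (cL0 q)) s) g j = ∑ i, bet (sc (bd m (cLi q i)) s) (g' i) j := by
  apply ContinuousLinearMap.ext
  intro u
  rw [bet_apply, _root_.sum_apply, Fintype.sum_option, Fintype.sum_prod_type, cL0_none]
  have e1 : ∀ i, bet (sc (bd m (cLi q i)) s) (g' i) j u
      = ∑ k, ∑ l, ⟪∑ p, q (some i) p l • g' i (some (k, p)), u⟫_ℂ • s (j, (k, l)) := by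
    intro i
    rw [bet_apply, Fintype.sum_option, Fintype.sum_prod_type, cLi_none, smul_zero, zero_add]
    refine Finset.sum_congr rfl fun k _ => ?_
    simp only [cLi_some, sum_inner, Finset.sum_smul, inner_smul_left, Finset.smul_sum, smul_smul]
    rw [Finset.sum_comm]
    refine Finset.sum_congr rfl fun l _ => Finset.sum_congr rfl fun p _ => ?_
    rw [mul_comm]
  have e2 : ∑ k, ∑ p, ⟪g (some (k, p)), u⟫_ℂ • sc (bd m (cL0 q)) s (j, some (k, p))
      = -∑ k, ∑ l, ⟪∑ p, q none p l • g (some (k, p)), u⟫_ℂ • s (j, (k, l)) := by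
    rw [← Finset.sum_neg_distrib]
    refine Finset.sum_congr rfl fun k _ => ?_
    simp only [cL0_some, sum_inner, Finset.sum_smul, inner_smul_left, smul_neg, Finset.smul_sum,
      smul_smul, Finset.sum_neg_distrib]
    rw [Finset.sum_comm]
    congr 1
    refine Finset.sum_congr rfl fun l _ => Finset.sum_congr rfl fun p _ => ?_
    rw [mul_comm]
  have e3 : ⟪g none, u⟫_ℂ • ∑ k, s (j, (k, k))
      = ∑ k, ∑ l, ⟪if k = l then g none else 0, u⟫_ℂ • s (j, (k, l)) := by
    rw [Finset.smul_sum]
    refine Finset.sum_congr rfl fun k _ => ?_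
    rw [Finset.sum_eq_single k]
    · rw [if_pos rfl]
    · intro l _ hl
      rw [if_neg (Ne.symm hl), inner_zero_left, zero_smul]
    · intro h; exact absurd (Finset.mem_univ _) h
  have e4 : ∑ i, ∑ k, ∑ l, ⟪∑ p, q (some i) p l • g' i (some (k, p)), u⟫_ℂ • s (j, (k, l))
      = ∑ k, ∑ l, ∑ i, ⟪∑ p, q (some i) p l • g' i (some (k, p)), u⟫_ℂ • s (j, (k, l)) := by
    rw [Finset.sum_comm]
    refine Finset.sum_congr rfl fun k _ => ?_
    rw [Finset.sum_comm]
  rw [e2, e3, Finset.sum_congr rfl fun i _ => e1 i, e4, ← sub_eq_add_neg,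
    ← Finset.sum_sub_distrib]
  refine Finset.sum_congr rfl fun k _ => ?_
  rw [← Finset.sum_sub_distrib]
  refine Finset.sum_congr rfl fun l _ => ?_
  rw [← sub_smul, ← inner_sub_left, ← hrel k l, add_sub_cancel_right, sum_inner, Finset.sum_smul]

/-- the constant part also maps `KL` to `KW` -/
theorem Pk.L0_mem (P : Pk M ξ ρ r q) {s : Md H (Fin m × (N × N))} (hs : s ∈ KL ρ r q) :
    sc (bd m (cL0 q)) s ∈ KW ρ r q := by
  classical
  intro g hg
  have hg0 : mt (lamG ρ q) g = 0 := hg
  have hlc : ∀ a w, lamG ρ q a w ∈ Set.centralizer M := by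
    rintro p (_ | ⟨k, q'⟩)
    · simp only [lamG]
      split_ifs
      · exact cent_neg Set.one_mem_centralizer
      · exact cent_zero
    · simp only [lamG]
      split_ifs
      · exact qe_cent P.rho q _ _
      · exact cent_zero
  have h1 := DD.nice_dense P.tr.tv hlc P.GG_card none (fun g hg h0 => P.GG_zero hg h0) P.rho hg0
  have hcl : IsClosed {g : Md H (Option (N × L)) |
      ∀ u v, ⟪u, com r (sc (bd m (cL0 q)) s) g v⟫_ℂ = 0} := by
    have : {g : Md H (Option (N × L)) | ∀ u v, ⟪u, com r (sc (bd m (cL0 q)) s) g v⟫_ℂ = 0}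
        = ⋂ u : H, ⋂ v : H, {g : Md H (Option (N × L)) |
          ⟪u, com r (sc (bd m (cL0 q)) s) g v⟫_ℂ = 0} := by
      ext g
      simp only [Set.mem_iInter, Set.mem_ofPred_eq]
    rw [this]
    refine isClosed_iInter fun u => isClosed_iInter fun v => ?_
    simp only [com_apply]
    exact isClosed_eq (by fun_prop) (by fun_prop)
  have h2 : g ∈ {g : Md H (Option (N × L)) |
      ∀ u v, ⟪u, com r (sc (bd m (cL0 q)) s) g v⟫_ℂ = 0} := by
    refine hcl.closure_subset_iff.2 ?_ h1
    rintro g ⟨hg, hn⟩ u v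
    choose g' hg' hn' using hn
    have hrel := P.right_rel (g := g) hg (g' := g') hg' hn'
    have h3 : com r (sc (bd m (cL0 q)) s) g = ∑ i, com r (sc (bd m (cLi q i)) s) (g' i) := by
      unfold com
      rw [Finset.sum_comm]
      refine Finset.sum_congr rfl fun j _ => ?_
      rw [bet_L0 s hrel, Finset.sum_sub_distrib, ← Finset.mul_sum,
        bet_L0 s (g := fun a => r j (g a)) (g' := fun i a => r j (g' i a))]
      intro k l
      have := congrArg (r j) (hrel k l)
      rw [map_add, map_sum] at this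
      simp only [map_sum, map_smul] at this
      rw [this]
      split_ifs
      · rfl
      · exact map_zero _
    rw [h3, Finset.sum_eq_zero (fun i _ => hs i (g' i) (hg' i))]
    simp
  apply ContinuousLinearMap.ext
  intro v
  refine ext_inner_left ℂ fun u => ?_
  rw [h2 u v]
  simp

end Pool.Agent.Y325.DD
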