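import Pool.Agent.Y325.DD.B3

/-!
# Amplification to the Hilbert-Schmidt space
-/

set_option autoImplicit false
set_option linter.unusedSectionVars false
set_option linter.unnecessarySimpa false

open scoped InnerProductSpace Topology ENNReal ComplexConjugate
open Filter Finset

noncomputable section

namespace Pool.Agent.Y325.DD

variable {H ι : Type} [NormedAddCommGroup H] [InnerProductSpace ℂ H] [CompleteSpace H]
variable {M : Set (H →L[ℂ] H)} {ξ : H}

section amp

variable {κ σ : Type} [Fintype κ] [Fintype σ] (b : HilbertBasis ι ℂ H)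

/-- evaluation of all coordinates -/
def evv (x : H) (Θ : Md (HS H ι) κ) : Md H κ := WithLp.toLp 2 (fun k => op b (Θ k) x)

theorem evv_apply (x : H) (Θ : Md (HS H ι) κ) (k : κ) : evv b x Θ k = op b (Θ k) x := rfl

theorem evv_add (x : H) (Θ Θ' : Md (HS H ι) κ) : evv b x (Θ + Θ') = evv b x Θ + evv b x Θ' := by
  apply md_ext
  intro k
  rw [evv_apply, PiLp.add_apply, PiLp.add_apply, op_add]
  rfl

theorem evv_smul (x : H) (c : ℂ) (Θ : Md (HS H ι) κ) : evv b x (c • Θ) = c • evv b x Θ := by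
  apply md_ext
  intro k
  rw [evv_apply, PiLp.smul_apply, PiLp.smul_apply, op_smul]
  rfl

theorem evv_zero (x : H) : evv b x (0 : Md (HS H ι) κ) = 0 := by
  apply md_ext
  intro k
  rw [evv_apply, PiLp.zero_apply, PiLp.zero_apply, op_zero]
  rfl

theorem evv_sep {Θ Θ' : Md (HS H ι) κ} (h : ∀ x, evv b x Θ = evv b x Θ') : Θ = Θ' := by
  apply md_ext
  intro k
  apply op_inj b
  apply ContinuousLinearMap.ext
  intro x
  exact congrArg (fun v : Md H κ => v k) (h x)

theorem evv_cont (x : H) : Continuous (evv b x : Md (HS H ι) κ → Md H κ) := by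
  have : (evv b x : Md (HS H ι) κ → Md H κ) = fun Θ => ∑ k, inc k (ev b x (Θ k)) := by
    funext Θ
    rw [md_decomp (evv b x Θ)]
    rfl
  rw [this]
  fun_prop

/-- the tensor subspace -/
def ten (E : Submodule ℂ (Md H κ)) : Submodule ℂ (Md (HS H ι) κ) where
  carrier := {Θ | ∀ x, evv b x Θ ∈ E}
  add_mem' := by
    intro Θ Θ' h h' x
    rw [evv_add]
    exact add_mem (h x) (h' x)
  zero_mem' := by
    intro x
    rw [evv_zero]
    exact zero_mem _
  smul_mem' := by
    intro c Θ h x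
    rw [evv_smul]
    exact Submodule.smul_mem _ _ (h x)

theorem mem_ten {E : Submodule ℂ (Md H κ)} {Θ : Md (HS H ι) κ} :
    Θ ∈ ten b E ↔ ∀ x, evv b x Θ ∈ E := Iff.rfl

theorem ten_closed {E : Submodule ℂ (Md H κ)} (hE : IsClosed (E : Set (Md H κ))) :
    IsClosed (ten b E : Set (Md (HS H ι) κ)) := by
  have : (ten b E : Set (Md (HS H ι) κ)) = ⋂ x, (evv b x) ⁻¹' (E : Set (Md H κ)) := by
    ext Θ
    simp only [Set.mem_iInter]
    rfl
  rw [this]
  exact isClosed_iInter fun x => hE.preimage (evv_cont b x)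

theorem ten_inv {E : Submodule ℂ (Md H κ)} (hE : Inv M E) : Inv (AN b M) (ten b E) := by
  apply inv_AN b
  · intro a ha Θ hΘ x
    have : evv b x (dg (lm a) Θ) = dg a (evv b x Θ) := by
      apply md_ext
      intro k
      rw [evv_apply, dg_apply, dg_apply, op_lm]
      rfl
    rw [this]
    exact hE a ha _ (hΘ x)
  · intro c hc Θ hΘ x
    have : evv b x (dg (rm b c) Θ) = evv b (ContinuousLinearMap.adjoint c x) Θ := by
      apply md_ext
      intro k
      rw [evv_apply, dg_apply, op_rm]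
      rfl
    rw [this]
    exact hΘ _

/-- amplification of operators -/
def amp (T : Md H κ →L[ℂ] Md H σ) : Md (HS H ι) κ →L[ℂ] Md (HS H ι) σ :=
  mt (fun a b' => lm (en T a b'))

theorem evv_amp (T : Md H κ →L[ℂ] Md H σ) (x : H) (Θ : Md (HS H ι) κ) :
    evv b x (amp T Θ) = T (evv b x Θ) := by
  apply md_ext
  intro a
  conv_rhs => rw [← mt_en T, mt_apply]
  unfold amp
  rw [evv_apply, mt_apply, op_sum, _root_.sum_apply]
  refine Finset.sum_congr rfl fun k _ => ?_
  rw [op_lm]
  rfl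

theorem amp_adj (T : Md H κ →L[ℂ] Md H σ) :
    ContinuousLinearMap.adjoint (amp T : Md (HS H ι) κ →L[ℂ] Md (HS H ι) σ)
      = amp (ContinuousLinearMap.adjoint T) := by
  unfold amp
  rw [mt_adjoint]
  congr 1
  funext k a
  rw [lm_adj, en_adjoint]

theorem PP_ten {E : Submodule ℂ (Md H κ)} (hE : IsClosed (E : Set (Md H κ)))
    (Θ : Md (HS H ι) κ) : PP (ten b E) Θ = amp (PP E) Θ := by
  apply PP_eq
  · apply Submodule.le_topologicalClosure
    intro x
    rw [evv_amp]
    exact PP_mem_of_closed hE _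
  · intro Ψ hΨ
    have h1 : amp (PP E) Ψ = Ψ := by
      apply evv_sep b
      intro x
      rw [evv_amp]
      exact PP_self (Submodule.le_topologicalClosure _ (hΨ x))
    rw [inner_sub_left, ← ContinuousLinearMap.adjoint_inner_right, amp_adj, PP_adjoint, h1, sub_self]

/-- simple tensors -/
def tht (t : Md H κ) (v : H) : Md (HS H ι) κ := WithLp.toLp 2 (fun k => th b (t k) v)

theorem tht_apply (t : Md H κ) (v : H) (k : κ) : tht b t v k = th b (t k) v := rfl

theorem evv_tht (x : H) (t : Md H κ) (v : H) : evv b x (tht b t v) = ⟪v, x⟫_ℂ • t := by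
  apply md_ext
  intro k
  rw [evv_apply, tht_apply, op_th, rk_apply]
  rfl

theorem norm_tht (t : Md H κ) (v : H) : ‖tht b t v‖ ^ 2 = ‖t‖ ^ 2 * ‖v‖ ^ 2 := by
  rw [PiLp.norm_sq_eq_of_L2, PiLp.norm_sq_eq_of_L2, Finset.sum_mul]
  refine Finset.sum_congr rfl fun k _ => ?_
  rw [tht_apply, th_norm, mul_pow]

theorem amp_tht (T : Md H κ →L[ℂ] Md H σ) (t : Md H κ) (v : H) :
    amp T (tht b t v) = tht b (T t) v := by
  apply evv_sep b
  intro x
  rw [evv_amp, evv_tht, evv_tht, map_smul]

theorem tht_inc (k : κ) (u v : H) : tht b (inc k u) v = inc k (th b u v) := by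
  classical
  apply md_ext
  intro k'
  rw [tht_apply, inc_apply, inc_apply]
  split_ifs
  · rfl
  · apply op_inj b
    rw [op_th, op_zero]
    apply ContinuousLinearMap.ext
    intro x
    rw [rk_apply, smul_zero]
    rfl

theorem dm_ten (hξ : ‖ξ‖ = 1) {E : Submodule ℂ (Md H κ)} (hE : IsClosed (E : Set (Md H κ))) :
    dm (th b ξ ξ) (ten b E) = dm ξ E := by
  unfold dm
  refine Finset.sum_congr rfl fun k _ => ?_
  rw [PP_ten b hE, ← tht_inc, amp_tht, norm_tht, hξ]
  norm_num

theorem ten_perp {E : Submodule ℂ (Md H κ)} (hE : IsClosed (E : Set (Md H κ))) {D : Set H}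
    (hD : Dense D) {Θ : Md (HS H ι) κ} (h : ∀ t ∈ E, ∀ v ∈ D, ⟪Θ, tht b t v⟫_ℂ = 0) :
    Θ ∈ (ten b E)ᗮ := by
  have h1 : PP (ten b E) Θ = 0 := by
    rw [PP_ten b hE]
    apply md_ext
    intro k
    rw [PiLp.zero_apply]
    apply th_total_dense b dense_univ hD
    intro u _ v hv
    rw [← inner_inc_right, ← tht_inc]
    have e1 : ⟪amp (PP E) Θ, tht b (inc k u) v⟫_ℂ = ⟪Θ, amp (PP E) (tht b (inc k u) v)⟫_ℂ := by
      rw [← ContinuousLinearMap.adjoint_inner_right, amp_adj, PP_adjoint]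
    rw [e1, amp_tht]
    exact h _ (PP_mem_of_closed hE _) v hv
  intro Ψ hΨ
  have h2 := PP_inner (ten b E) Θ (Submodule.le_topologicalClosure _ hΨ)
  rw [h1, sub_zero] at h2
  rw [← inner_conj_symm, h2, map_zero]

theorem tht_mem {E : Submodule ℂ (Md H κ)} {t : Md H κ} (ht : t ∈ E) (v : H) :
    tht b t v ∈ ten b E := by
  intro x
  rw [evv_tht]
  exact Submodule.smul_mem _ _ ht

end amp

section LL

variable {n m : ℕ} {N L : Type} [Fintype N] [Fintype L] (b : HilbertBasis ι ℂ H)

open Classical in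
/-- entries of the structural map -/
def lcL (ρ : Fin n → (H →L[ℂ] H)) (q : Option (Fin n) → L → N → ℂ) :
    Option (N × L) → N × N → (HS H ι →L[ℂ] HS H ι) := fun w p =>
  match w with
  | none => if p.1 = p.2 then -1 else 0
  | some (k, l) => if k = p.1 then rm b (qe ρ q l p.2) else 0

/-- the structural map -/
def LL (m : ℕ) (ρ : Fin n → (H →L[ℂ] H)) (q : Option (Fin n) → L → N → ℂ) :
    Md (HS H ι) (Fin m × (N × N)) →L[ℂ] Md (HS H ι) (Fin m × Option (N × L)) :=
  mt (bd m (lcL b ρ q))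

variable {ρ : Fin n → (H →L[ℂ] H)} {r : Fin m → (H →L[ℂ] H)} {q : Option (Fin n) → L → N → ℂ}

theorem LL_none (η : Md (HS H ι) (Fin m × (N × N))) (j : Fin m) :
    LL b m ρ q η (j, none) = -∑ k, η (j, (k, k)) := by
  unfold LL
  rw [mt_bd, Fintype.sum_prod_type, ← Finset.sum_neg_distrib]
  refine Finset.sum_congr rfl fun k _ => ?_
  rw [Finset.sum_eq_single k]
  · simp only [lcL]
    rw [if_pos trivial]
    rfl
  · intro l _ hl
    simp only [lcL]
    rw [if_neg (Ne.symm hl)]
    rfl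
  · intro h; exact absurd (Finset.mem_univ _) h

theorem LL_some (η : Md (HS H ι) (Fin m × (N × N))) (j : Fin m) (k : N) (p : L) :
    LL b m ρ q η (j, some (k, p)) = ∑ l, rm b (qe ρ q p l) (η (j, (k, l))) := by
  unfold LL
  rw [mt_bd, Fintype.sum_prod_type, Finset.sum_eq_single k]
  · refine Finset.sum_congr rfl fun l _ => ?_
    simp only [lcL]
    rw [if_pos trivial]
  · intro k' _ hk'
    refine Finset.sum_eq_zero fun l _ => ?_
    simp only [lcL]
    rw [if_neg (Ne.symm hk')]
    rfl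
  · intro h; exact absurd (Finset.mem_univ _) h

theorem Pk.LL_lin (P : Pk M ξ ρ r q) : Lin (AN b M) (LL b m ρ q) := by
  classical
  apply lin_mt
  rintro ⟨j, w⟩ ⟨j', p⟩
  unfold bd
  split_ifs
  · rcases w with _ | ⟨k, l⟩
    · simp only [lcL]
      split_ifs
      · exact cent_neg Set.one_mem_centralizer
      · exact cent_zero
    · simp only [lcL]
      split_ifs
      · exact rm_cent b (qe_cent P.rho q _ _)
      · exact cent_zero
  · exact cent_zero

theorem Pk.adj_qe (P : Pk M ξ ρ r q) (p : L) (l : N) (x : H) :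
    ContinuousLinearMap.adjoint (qe ρ q p l) x = ∑ o, conj (q o p l) • rr ρ o x := by
  unfold qe
  rw [map_sum, _root_.sum_apply]
  refine Finset.sum_congr rfl fun o _ => ?_
  rw [map_smulₛₗ, P.adj_rr]
  rfl

theorem evv_LL_none (x : H) (η : Md (HS H ι) (Fin m × (N × N))) (j : Fin m) :
    evv b x (LL b m ρ q η) (j, none) = -∑ k, op b (η (j, (k, k))) x := by
  rw [evv_apply, LL_none, ← neg_one_smul ℂ, op_smul, op_sum]
  change (-1 : ℂ) • (∑ k, op b (η (j, (k, k)))) x = _
  rw [_root_.sum_apply, neg_one_smul]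

theorem evv_LL_some (x : H) (η : Md (HS H ι) (Fin m × (N × N))) (j : Fin m) (k : N) (p : L) :
    evv b x (LL b m ρ q η) (j, some (k, p))
      = ∑ l, op b (η (j, (k, l))) (ContinuousLinearMap.adjoint (qe ρ q p l) x) := by
  rw [evv_apply, LL_some, op_sum, _root_.sum_apply]
  refine Finset.sum_congr rfl fun l _ => ?_
  rw [op_rm]
  rfl

theorem Pk.evv_LL (P : Pk M ξ ρ r q) (x : H) (η : Md (HS H ι) (Fin m × (N × N))) :
    evv b x (LL b m ρ q η) = ∑ i, sc (bd m (cLi q i)) (evv b (ρ i x) η)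
      - sc (bd m (cL0 q)) (evv b x η) := by
  apply md_ext
  rintro ⟨j, w⟩
  rw [PiLp.sub_apply, md_sum_apply]
  rcases w with _ | ⟨k, p⟩
  · rw [evv_LL_none, cL0_none, Finset.sum_eq_zero (fun i _ => cLi_none i _ j), zero_sub]
    rfl
  · rw [evv_LL_some, cL0_some, sub_neg_eq_add]
    simp only [P.adj_qe, cLi_some, evv_apply, map_sum, map_smul]
    rw [Finset.sum_comm, Fintype.sum_option, add_comm]
    rfl

/-- easy half of the key claim -/
theorem Pk.LL_mem (P : Pk M ξ ρ r q) {η : Md (HS H ι) (Fin m × (N × N))}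
    (hη : η ∈ ten b (KL ρ r q)) : LL b m ρ q η ∈ ten b (KW ρ r q) := by
  intro x
  rw [P.evv_LL]
  refine Submodule.sub_mem _ (Submodule.sum_mem _ fun i _ => ?_) ?_
  · exact hη (ρ i x) i
  · exact P.L0_mem (hη x)

theorem Pk.LL_inj (P : Pk M ξ ρ r q) {η : Md (HS H ι) (Fin m × (N × N))}
    (hη : LL b m ρ q η = 0) : η = 0 := by
  apply md_ext
  rintro ⟨j, k, l⟩
  rw [PiLp.zero_apply]
  apply op_inj b
  rw [op_zero]
  have key : ∀ x, (WithLp.toLp 2 (fun l => ContinuousLinearMap.adjoint (op b (η (j, (k, l)))) x) :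
      Md H N) = 0 := by
    intro x
    apply P.q_inj
    apply md_ext
    intro p
    rw [pen_qe]
    refine ext_inner_right ℂ fun v => ?_
    have h1 : evv b v (LL b m ρ q η) (j, some (k, p)) = 0 := by
      rw [hη, evv_zero]
      rfl
    rw [evv_LL_some] at h1
    have h2 : ⟪∑ l, qe ρ q p l (ContinuousLinearMap.adjoint (op b (η (j, (k, l)))) x), v⟫_ℂ
        = ⟪x, ∑ l, op b (η (j, (k, l))) (ContinuousLinearMap.adjoint (qe ρ q p l) v)⟫_ℂ := by
      rw [sum_inner, inner_sum]
      refine Finset.sum_congr rfl fun l _ => ?_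
      rw [← ContinuousLinearMap.adjoint_inner_right, ContinuousLinearMap.adjoint_inner_left]
    change ⟪∑ l, qe ρ q p l (ContinuousLinearMap.adjoint (op b (η (j, (k, l)))) x), v⟫_ℂ = _
    rw [h2, h1, inner_zero_right]
    simp
  have h3 : ContinuousLinearMap.adjoint (op b (η (j, (k, l)))) = 0 := by
    apply ContinuousLinearMap.ext
    intro x
    exact congrArg (fun v : Md H N => v l) (key x)
  have h4 := congrArg ContinuousLinearMap.adjoint h3
  rwa [ContinuousLinearMap.adjoint_adjoint, map_zero] at h4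

end LL

end Pool.Agent.Y325.DD
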