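import Pool.Agent.Y325.DD.B4

/-!
# The hard half of the key claim
-/

set_option autoImplicit false
set_option linter.unusedSectionVars false
set_option linter.unnecessarySimpa false

open scoped InnerProductSpace Topology ENNReal ComplexConjugate
open Filter Finset

noncomputable section

namespace Pool.Agent.Y325.DD

variable {H ι : Type} [NormedAddCommGroup H] [InnerProductSpace ℂ H] [CompleteSpace H]
variable {M : Set (H →L[ℂ] H)} {ξ : H}
variable {n m : ℕ} {N L : Type} [Fintype N] [Fintype L] (b : HilbertBasis ι ℂ H)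
variable {ρ : Fin n → (H →L[ℂ] H)} {r : Fin m → (H →L[ℂ] H)} {q : Option (Fin n) → L → N → ℂ}

theorem sum4 {A B C D : Type*} [Fintype A] [Fintype B] [Fintype C] [Fintype D]
    (F : A → B → C → D → ℂ) :
    ∑ p, ∑ l, ∑ j, ∑ k, F p l j k = ∑ j, ∑ k, ∑ p, ∑ l, F p l j k := by
  have h1 : ∀ p, ∑ l, ∑ j, ∑ k, F p l j k = ∑ j, ∑ k, ∑ l, F p l j k := by
    intro p
    rw [Finset.sum_comm]
    exact Finset.sum_congr rfl fun j _ => Finset.sum_comm
  rw [Finset.sum_congr rfl fun p _ => h1 p, Finset.sum_comm]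
  exact Finset.sum_congr rfl fun j _ => Finset.sum_comm

/-- the paired form of the commutator sum -/
def Bf (r : Fin m → (H →L[ℂ] H)) (w v : H) (h : Md H (Option (N × L)))
    (h' : Fin m → Md H (Option (N × L))) (t : Md H (Fin m × Option (N × L))) : ℂ :=
  ∑ j, ((⟪v, h' j none⟫_ℂ * ⟪w, t (j, none)⟫_ℂ - ⟪v, h none⟫_ℂ * ⟪r j w, t (j, none)⟫_ℂ)
    + ∑ k, ∑ p, (⟪v, h' j (some (k, p))⟫_ℂ * ⟪w, t (j, some (k, p))⟫_ℂ
      - ⟪v, h (some (k, p))⟫_ℂ * ⟪r j w, t (j, some (k, p))⟫_ℂ))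

theorem Pk.com_Bf (P : Pk M ξ ρ r q) {g h : Md H (Option (N × L))} (hg : g ∈ GG ρ q)
    (hh : mt (lamD ρ q) h = 0) {h' : Fin m → Md H (Option (N × L))}
    (hh' : ∀ j, mt (lamD ρ q) (h' j) = 0) (hn : ∀ j, h' j none = r j (h none))
    (t : Md H (Fin m × Option (N × L))) (w : H) :
    ⟪w, com r t g (h none)⟫_ℂ = Bf r w (g none) h h' t := by
  unfold Bf
  rw [com_apply, inner_sum]
  refine Finset.sum_congr rfl fun j _ => ?_
  have e1 : ∀ a, ⟪r j (g a), h none⟫_ℂ = ⟪g a, h' j none⟫_ℂ := by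
    intro a
    rw [hn, ← ContinuousLinearMap.adjoint_inner_right, P.adj_r]
  have e2 : ∀ x, ⟪w, r j x⟫_ℂ = ⟪r j w, x⟫_ℂ := by
    intro x
    rw [← ContinuousLinearMap.adjoint_inner_left, P.adj_r]
  have e3 : ∀ k p, ⟪g (some (k, p)), h none⟫_ℂ = ⟪g none, h (some (k, p))⟫_ℂ := by
    intro k p
    rw [← inner_conj_symm, pairing hg hh, inner_conj_symm]
  have e4 : ∀ k p, ⟪g (some (k, p)), h' j none⟫_ℂ = ⟪g none, h' j (some (k, p))⟫_ℂ := by
    intro k p
    rw [← inner_conj_symm, pairing hg (hh' j), inner_conj_symm]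
  rw [inner_sum, Fintype.sum_option, Fintype.sum_prod_type]
  simp only [inner_sub_right, inner_smul_right, e1, e2, e3, e4]

/-- slices used in the key claim -/
def Zs (r : Fin m → (H →L[ℂ] H)) (w : H) (h : Md H (Option (N × L)))
    (h' : Fin m → Md H (Option (N × L))) (η : Md (HS H ι) (Fin m × (N × N))) (p : L) (l : N) :
    H →L[ℂ] H :=
  ∑ j, ∑ k, (rk (ContinuousLinearMap.adjoint (op b (η (j, (k, l)))) w) (h' j (some (k, p)))
    - rk (ContinuousLinearMap.adjoint (op b (η (j, (k, l)))) (r j w)) (h (some (k, p))))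

theorem Zs_inner (w : H) (h : Md H (Option (N × L)))
    (h' : Fin m → Md H (Option (N × L))) (η : Md (HS H ι) (Fin m × (N × N))) (p : L) (l : N)
    (v x : H) : ⟪Zs b r w h h' η p l v, x⟫_ℂ
      = ∑ j, ∑ k, (⟪v, h' j (some (k, p))⟫_ℂ * ⟪w, op b (η (j, (k, l))) x⟫_ℂ
        - ⟪v, h (some (k, p))⟫_ℂ * ⟪r j w, op b (η (j, (k, l))) x⟫_ℂ) := by
  unfold Zs
  rw [_root_.sum_apply, sum_inner]
  refine Finset.sum_congr rfl fun j _ => ?_
  rw [_root_.sum_apply, sum_inner]
  refine Finset.sum_congr rfl fun k _ => ?_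
  rw [_root_.sub_apply, inner_sub_left, rk_apply, rk_apply, inner_smul_left, inner_smul_left,
    inner_conj_symm, inner_conj_symm, ContinuousLinearMap.adjoint_inner_left,
    ContinuousLinearMap.adjoint_inner_left]

theorem Zs_FR (w : H) (h : Md H (Option (N × L)))
    (h' : Fin m → Md H (Option (N × L))) (η : Md (HS H ι) (Fin m × (N × N))) (p : L) (l : N) :
    FR (Zs b r w h h' η p l) := by
  refine FR.sum _ fun j _ => FR.sum _ fun k _ => ?_
  rw [sub_eq_add_neg, ← neg_one_smul ℂ]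
  exact (FR_rk _ _).add (FR.smul _ (FR_rk _ _))

theorem Pk.comm_zero (P : Pk M ξ ρ r q) {η : Md (HS H ι) (Fin m × (N × N))}
    (hη : LL b m ρ q η ∈ ten b (KW ρ r q)) (w : H) {h : Md H (Option (N × L))}
    (hh : mt (lamD ρ q) h = 0) {h' : Fin m → Md H (Option (N × L))}
    (hh' : ∀ j, mt (lamD ρ q) (h' j) = 0) (hn : ∀ j, h' j none = r j (h none)) :
    ∑ p, ∑ l, (qe ρ q p l * Zs b r w h h' η p l - Zs b r w h h' η p l * qe ρ q p l) = 0 := by
  classical
  apply ContinuousLinearMap.ext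
  intro v
  have hcl : IsClosed {v : H | (∑ p, ∑ l, (qe ρ q p l * Zs b r w h h' η p l
    - Zs b r w h h' η p l * qe ρ q p l)) v = 0} := isClosed_eq (by fun_prop) (by fun_prop)
  refine hcl.closure_subset_iff.2 ?_ (P.GG_dense v)
  rintro _ ⟨g, hg, rfl⟩
  change (∑ p, ∑ l, (qe ρ q p l * Zs b r w h h' η p l
    - Zs b r w h h' η p l * qe ρ q p l)) (g none) = 0
  refine ext_inner_right ℂ fun x => ?_
  rw [inner_zero_left]
  have h1 := P.com_Bf hg hh hh' hn (evv b x (LL b m ρ q η)) w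
  rw [hη x g hg] at h1
  have h2 : Bf r w (g none) h h' (evv b x (LL b m ρ q η)) = 0 := by
    rw [← h1]
    simp
  -- first part
  have e1 : ∑ p, ∑ l, ⟪qe ρ q p l (Zs b r w h h' η p l (g none)), x⟫_ℂ
      = ∑ j, ∑ k, ∑ p, (⟪g none, h' j (some (k, p))⟫_ℂ
          * ⟪w, evv b x (LL b m ρ q η) (j, some (k, p))⟫_ℂ
        - ⟪g none, h (some (k, p))⟫_ℂ
          * ⟪r j w, evv b x (LL b m ρ q η) (j, some (k, p))⟫_ℂ) := by
    have e2 : ∀ p l, ⟪qe ρ q p l (Zs b r w h h' η p l (g none)), x⟫_ℂ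
        = ∑ j, ∑ k, (⟪g none, h' j (some (k, p))⟫_ℂ
            * ⟪w, op b (η (j, (k, l))) (ContinuousLinearMap.adjoint (qe ρ q p l) x)⟫_ℂ
          - ⟪g none, h (some (k, p))⟫_ℂ
            * ⟪r j w, op b (η (j, (k, l))) (ContinuousLinearMap.adjoint (qe ρ q p l) x)⟫_ℂ) := by
      intro p l
      rw [← ContinuousLinearMap.adjoint_inner_right, Zs_inner]
    have e3 : ∀ j k p, (⟪g none, h' j (some (k, p))⟫_ℂ
          * ⟪w, evv b x (LL b m ρ q η) (j, some (k, p))⟫_ℂ
        - ⟪g none, h (some (k, p))⟫_ℂ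
          * ⟪r j w, evv b x (LL b m ρ q η) (j, some (k, p))⟫_ℂ)
        = ∑ l, (⟪g none, h' j (some (k, p))⟫_ℂ
            * ⟪w, op b (η (j, (k, l))) (ContinuousLinearMap.adjoint (qe ρ q p l) x)⟫_ℂ
          - ⟪g none, h (some (k, p))⟫_ℂ
            * ⟪r j w, op b (η (j, (k, l))) (ContinuousLinearMap.adjoint (qe ρ q p l) x)⟫_ℂ) := by
      intro j k p
      rw [evv_LL_some, inner_sum, inner_sum, Finset.mul_sum, Finset.mul_sum,
        ← Finset.sum_sub_distrib]
    simp only [e2, e3]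
    exact sum4 _
  -- second part
  have e4 : ∑ p, ∑ l, ⟪Zs b r w h h' η p l (qe ρ q p l (g none)), x⟫_ℂ
      = -∑ j, (⟪g none, h' j none⟫_ℂ * ⟪w, evv b x (LL b m ρ q η) (j, none)⟫_ℂ
        - ⟪g none, h none⟫_ℂ * ⟪r j w, evv b x (LL b m ρ q η) (j, none)⟫_ℂ) := by
    have e5 : ∀ p l, ⟪Zs b r w h h' η p l (qe ρ q p l (g none)), x⟫_ℂ
        = ∑ j, ∑ k, (⟪g none, ContinuousLinearMap.adjoint (qe ρ q p l) (h' j (some (k, p)))⟫_ℂ
            * ⟪w, op b (η (j, (k, l))) x⟫_ℂ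
          - ⟪g none, ContinuousLinearMap.adjoint (qe ρ q p l) (h (some (k, p)))⟫_ℂ
            * ⟪r j w, op b (η (j, (k, l))) x⟫_ℂ) := by
      intro p l
      rw [Zs_inner]
      simp only [ContinuousLinearMap.adjoint_inner_right]
    simp only [e5]
    rw [sum4, ← Finset.sum_neg_distrib]
    refine Finset.sum_congr rfl fun j _ => ?_
    have e6 : ∀ k, ∑ p, ∑ l, (⟪g none, ContinuousLinearMap.adjoint (qe ρ q p l)
          (h' j (some (k, p)))⟫_ℂ * ⟪w, op b (η (j, (k, l))) x⟫_ℂ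
          - ⟪g none, ContinuousLinearMap.adjoint (qe ρ q p l) (h (some (k, p)))⟫_ℂ
            * ⟪r j w, op b (η (j, (k, l))) x⟫_ℂ)
        = ⟪g none, h' j none⟫_ℂ * ⟪w, op b (η (j, (k, k))) x⟫_ℂ
          - ⟪g none, h none⟫_ℂ * ⟪r j w, op b (η (j, (k, k))) x⟫_ℂ := by
      intro k
      rw [Finset.sum_comm]
      have e7 : ∀ l, ∑ p, (⟪g none, ContinuousLinearMap.adjoint (qe ρ q p l)
          (h' j (some (k, p)))⟫_ℂ * ⟪w, op b (η (j, (k, l))) x⟫_ℂ
          - ⟪g none, ContinuousLinearMap.adjoint (qe ρ q p l) (h (some (k, p)))⟫_ℂ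
            * ⟪r j w, op b (η (j, (k, l))) x⟫_ℂ)
          = if l = k then (⟪g none, h' j none⟫_ℂ * ⟪w, op b (η (j, (k, l))) x⟫_ℂ
          - ⟪g none, h none⟫_ℂ * ⟪r j w, op b (η (j, (k, l))) x⟫_ℂ) else 0 := by
        intro l
        rw [Finset.sum_sub_distrib, ← Finset.sum_mul, ← Finset.sum_mul, ← inner_sum, ← inner_sum,
          (mem_GD (h' j)).1 (hh' j) l k, (mem_GD h).1 hh l k]
        split_ifs
        · rfl
        · simp
      rw [Finset.sum_congr rfl fun l _ => e7 l, Finset.sum_ite_eq', if_pos (Finset.mem_univ _)]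
    rw [Finset.sum_congr rfl fun k _ => e6 k, evv_LL_none, Finset.sum_sub_distrib, inner_neg_right,
      inner_neg_right, inner_sum, inner_sum, ← Finset.mul_sum, ← Finset.mul_sum]
    ring
  have e8 : ⟪(∑ p, ∑ l, (qe ρ q p l * Zs b r w h h' η p l
      - Zs b r w h h' η p l * qe ρ q p l)) (g none), x⟫_ℂ
      = ∑ p, ∑ l, ⟪qe ρ q p l (Zs b r w h h' η p l (g none)), x⟫_ℂ
        - ∑ p, ∑ l, ⟪Zs b r w h h' η p l (qe ρ q p l (g none)), x⟫_ℂ := by
    rw [_root_.sum_apply, sum_inner, ← Finset.sum_sub_distrib]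
    refine Finset.sum_congr rfl fun p _ => ?_
    rw [_root_.sum_apply, sum_inner, ← Finset.sum_sub_distrib]
    refine Finset.sum_congr rfl fun l _ => ?_
    rw [_root_.sub_apply, inner_sub_left]
    rfl
  rw [e8, e1, e4, sub_neg_eq_add, ← h2]
  unfold Bf
  rw [← Finset.sum_add_distrib]
  refine Finset.sum_congr rfl fun j _ => ?_
  rw [add_comm]

/-- the slices vanish -/
theorem Pk.slice_zero (P : Pk M ξ ρ r q) {η : Md (HS H ι) (Fin m × (N × N))}
    (hη : LL b m ρ q η ∈ ten b (KW ρ r q)) (w : H) {h : Md H (Option (N × L))}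
    (hh : mt (lamD ρ q) h = 0) {h' : Fin m → Md H (Option (N × L))}
    (hh' : ∀ j, mt (lamD ρ q) (h' j) = 0) (hn : ∀ j, h' j none = r j (h none)) (i : Fin n) :
    ∑ p, ∑ l, q (some i) p l • Zs b r w h h' η p l = 0 := by
  refine P.inj (fun i => ∑ p, ∑ l, q (some i) p l • Zs b r w h h' η p l) ?_ ?_ i
  · intro i
    exact FR.sum _ fun p _ => FR.sum _ fun l _ => FR.smul _ (Zs_FR b _ _ _ _ _ _)
  · have h1 := P.comm_zero b hη w hh hh' hn
    have h2 : ∀ p l, qe ρ q p l * Zs b r w h h' η p l - Zs b r w h h' η p l * qe ρ q p l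
        = ∑ i, q (some i) p l • (ρ i * Zs b r w h h' η p l - Zs b r w h h' η p l * ρ i) := by
      intro p l
      unfold qe
      rw [Finset.sum_mul, Finset.mul_sum, ← Finset.sum_sub_distrib, Fintype.sum_option]
      have h3 : q none p l • rr ρ none * Zs b r w h h' η p l
          - Zs b r w h h' η p l * q none p l • rr ρ none = 0 := by
        change q none p l • 1 * Zs b r w h h' η p l - Zs b r w h h' η p l * q none p l • 1 = 0
        rw [smul_mul_assoc, mul_smul_comm, one_mul, mul_one, sub_self]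
      rw [h3, zero_add]
      refine Finset.sum_congr rfl fun i _ => ?_
      change q (some i) p l • ρ i * Zs b r w h h' η p l
        - Zs b r w h h' η p l * q (some i) p l • ρ i = _
      rw [smul_mul_assoc, mul_smul_comm, smul_sub]
    simp only [h2] at h1
    have h4 : ∑ i, ((∑ p, ∑ l, q (some i) p l • Zs b r w h h' η p l) * ρ i
        - ρ i * ∑ p, ∑ l, q (some i) p l • Zs b r w h h' η p l)
        = -∑ p, ∑ l, ∑ i, q (some i) p l • (ρ i * Zs b r w h h' η p l
          - Zs b r w h h' η p l * ρ i) := by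
      rw [← Finset.sum_neg_distrib]
      simp only [Finset.sum_mul, Finset.mul_sum, ← Finset.sum_neg_distrib,
        ← Finset.sum_sub_distrib]
      rw [Finset.sum_comm]
      refine Finset.sum_congr rfl fun p _ => ?_
      rw [Finset.sum_comm]
      refine Finset.sum_congr rfl fun l _ => Finset.sum_congr rfl fun i _ => ?_
      rw [smul_mul_assoc, mul_smul_comm, ← smul_sub, ← smul_neg, neg_sub]
    rw [h4, h1, neg_zero]

/-- hard half of the key claim -/
theorem Pk.LL_conv (P : Pk M ξ ρ r q) {η : Md (HS H ι) (Fin m × (N × N))}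
    (hη : LL b m ρ q η ∈ ten b (KW ρ r q)) : η ∈ ten b (KL ρ r q) := by
  intro x i g hg
  apply ContinuousLinearMap.ext
  intro u
  refine ext_inner_left ℂ fun w => ?_
  have hcl : IsClosed {u : H | ⟪w, com r (sc (bd m (cLi q i)) (evv b x η)) g u⟫_ℂ = 0} :=
    isClosed_eq (by fun_prop) (by fun_prop)
  have h0 : ⟪w, com r (sc (bd m (cLi q i)) (evv b x η)) g u⟫_ℂ = 0 := by
    refine hcl.closure_subset_iff.2 ?_ (P.nice_dense u)
    rintro _ ⟨h, hh, rfl, hj⟩
    choose h' hh' hn using hj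
    change ⟪w, com r (sc (bd m (cLi q i)) (evv b x η)) g (h none)⟫_ℂ = 0
    rw [P.com_Bf hg hh hh' hn]
    have h1 := P.slice_zero b hη w hh hh' hn i
    have h2 : ⟪(∑ p, ∑ l, q (some i) p l • Zs b r w h h' η p l) (g none), x⟫_ℂ = 0 := by
      rw [h1]
      simp
    rw [← h2, _root_.sum_apply, sum_inner]
    have h3 : ∀ p l, ⟪(q (some i) p l • Zs b r w h h' η p l) (g none), x⟫_ℂ
        = ∑ j, ∑ k, (⟪g none, h' j (some (k, p))⟫_ℂ
            * ⟪w, conj (q (some i) p l) • op b (η (j, (k, l))) x⟫_ℂ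
          - ⟪g none, h (some (k, p))⟫_ℂ
            * ⟪r j w, conj (q (some i) p l) • op b (η (j, (k, l))) x⟫_ℂ) := by
      intro p l
      change ⟪q (some i) p l • Zs b r w h h' η p l (g none), x⟫_ℂ = _
      rw [inner_smul_left, Zs_inner, Finset.mul_sum]
      refine Finset.sum_congr rfl fun j _ => ?_
      rw [Finset.mul_sum]
      refine Finset.sum_congr rfl fun k _ => ?_
      rw [inner_smul_right, inner_smul_right]
      ring
    have h4 : ∀ p, ⟪(∑ l, q (some i) p l • Zs b r w h h' η p l) (g none), x⟫_ℂ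
        = ∑ l, ∑ j, ∑ k, (⟪g none, h' j (some (k, p))⟫_ℂ
            * ⟪w, conj (q (some i) p l) • op b (η (j, (k, l))) x⟫_ℂ
          - ⟪g none, h (some (k, p))⟫_ℂ
            * ⟪r j w, conj (q (some i) p l) • op b (η (j, (k, l))) x⟫_ℂ) := by
      intro p
      rw [_root_.sum_apply, sum_inner]
      exact Finset.sum_congr rfl fun l _ => h3 p l
    rw [Finset.sum_congr rfl fun p _ => h4 p, sum4]
    unfold Bf
    refine Finset.sum_congr rfl fun j _ => ?_
    rw [cLi_none, inner_zero_right, inner_zero_right, mul_zero, mul_zero, sub_self, zero_add]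
    refine Finset.sum_congr rfl fun k _ => Finset.sum_congr rfl fun p _ => ?_
    rw [cLi_some, inner_sum, inner_sum, Finset.mul_sum, Finset.mul_sum, ← Finset.sum_sub_distrib]
    rfl
  rw [h0]
  simp

end Pool.Agent.Y325.DD
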