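import Pool.Agent.Y325.DD.B5

/-!
# The lower bound for the dimension
-/

set_option autoImplicit false
set_option linter.unusedSectionVars false
set_option linter.unnecessarySimpa false

open scoped InnerProductSpace Topology ENNReal ComplexConjugate
open Filter Finset

noncomputable section

namespace Pool.Agent.Y325.DD

variable {H ι : Type} [NormedAddCommGroup H] [InnerProductSpace ℂ H] [CompleteSpace H]
variable {M : Set (H →L[ℂ] H)} {ξ : H}
variable {n m : ℕ} {N L : Type} [Fintype N] [Fintype L] (b : HilbertBasis ι ℂ H)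
variable {ρ : Fin n → (H →L[ℂ] H)} {r : Fin m → (H →L[ℂ] H)} {q : Option (Fin n) → L → N → ℂ}

/-- the vector form of `bet` -/
def bt {A : Type} [Fintype A] (t : Md H (Fin m × A)) (g : A → H) : Md (HS H ι) (Fin m) :=
  WithLp.toLp 2 (fun j => ∑ a, th b (t (j, a)) (g a))

theorem bt_apply {A : Type} [Fintype A] (t : Md H (Fin m × A)) (g : A → H) (j : Fin m) :
    bt b t g j = ∑ a, th b (t (j, a)) (g a) := rfl

theorem op_bt {A : Type} [Fintype A] (t : Md H (Fin m × A)) (g : A → H) (j : Fin m) :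
    op b (bt b t g j) = bet t g j := by
  rw [bt_apply, op_sum]
  unfold bet
  exact Finset.sum_congr rfl fun a _ => op_th b _ _

/-- auxiliary element -/
def etg (t : Md H (Fin m × Option (N × L))) (g : Md H (Option (N × L))) :
    Md (HS H ι) (Fin m × (N × N)) :=
  WithLp.toLp 2 (fun x => ∑ p, th b (t (x.1, some (x.2.1, p))) (g (some (x.2.2, p))))

theorem etg_apply (t : Md H (Fin m × Option (N × L))) (g : Md H (Option (N × L)))
    (j : Fin m) (k l : N) :
    etg b t g (j, (k, l)) = ∑ p, th b (t (j, some (k, p))) (g (some (l, p))) := rfl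

theorem th_zero_right (u : H) : th b u 0 = 0 := by
  have := th_smul_right b 0 u (0 : H)
  rwa [zero_smul, map_zero, zero_smul] at this

theorem th_sum_right {τ : Type*} (s : Finset τ) (u : H) (f : τ → H) :
    th b u (∑ i ∈ s, f i) = ∑ i ∈ s, th b u (f i) := by
  classical
  induction s using Finset.induction_on with
  | empty => simpa using th_zero_right b u
  | insert a s ha ih => rw [Finset.sum_insert ha, Finset.sum_insert ha, th_add_right, ih]

/-- the structural identity -/
theorem tht_identity (t : Md H (Fin m × Option (N × L))) {g : Md H (Option (N × L))}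
    (hg : g ∈ GG ρ q) (Θ : Md (HS H ι) (Fin m × Option (N × L))) :
    ⟪Θ, tht b t (g none)⟫_ℂ = ⟪restr (fun j => (j, none)) Θ, bt b t g⟫_ℂ
      + ⟪Θ, LL b m ρ q (etg b t g)⟫_ℂ := by
  classical
  rw [md_inner, md_inner, md_inner, Fintype.sum_prod_type, Fintype.sum_prod_type,
    ← Finset.sum_add_distrib]
  refine Finset.sum_congr rfl fun j _ => ?_
  rw [Fintype.sum_option, Fintype.sum_option, restr_apply, ← add_assoc]
  congr 1
  · rw [← inner_add_right, LL_none, tht_apply, bt_apply, Fintype.sum_option, Fintype.sum_prod_type]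
    congr 1
    have : ∑ k, etg b t g (j, (k, k)) = ∑ k, ∑ p, th b (t (j, some (k, p))) (g (some (k, p))) := rfl
    rw [this]
    abel
  · rw [Fintype.sum_prod_type, Fintype.sum_prod_type]
    refine Finset.sum_congr rfl fun k _ => Finset.sum_congr rfl fun p _ => ?_
    congr 1
    rw [LL_some, tht_apply]
    simp only [etg_apply, map_sum, rm_th]
    rw [Finset.sum_comm]
    have e1 : ∀ p', ∑ l, th b (t (j, some (k, p'))) (qe ρ q p l (g (some (l, p'))))
        = if p = p' then th b (t (j, some (k, p'))) (g none) else 0 := by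
      intro p'
      rw [← th_sum_right, (mem_GG ρ q g).1 hg p p']
      split_ifs
      · rfl
      · exact th_zero_right b _
    rw [Finset.sum_congr rfl fun p' _ => e1 p', Finset.sum_ite_eq, if_pos (Finset.mem_univ _)]

/-- the span of the explicit solutions -/
def KB (ρ : Fin n → (H →L[ℂ] H)) (r : Fin m → (H →L[ℂ] H)) (q : Option (Fin n) → L → N → ℂ) :
    Submodule ℂ (Md (HS H ι) (Fin m)) :=
  Submodule.span ℂ {β | ∃ t ∈ KW ρ r q, ∃ g ∈ GG ρ q, β = bt b t g}

theorem Pk.KB_inv (P : Pk M ξ ρ r q) : Inv (AN b M) (KB b ρ r q) := by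
  apply inv_AN b
  · intro a ha x hx
    unfold KB at hx ⊢
    induction hx using Submodule.span_induction with
    | mem x hx =>
      obtain ⟨t, ht, g, hg, rfl⟩ := hx
      apply Submodule.subset_span
      refine ⟨dg a t, P.KW_inv a ha t ht, g, hg, ?_⟩
      apply md_ext
      intro j
      rw [dg_apply, bt_apply, bt_apply, map_sum]
      refine Finset.sum_congr rfl fun a' _ => ?_
      rw [lm_th, dg_apply]
    | zero => rw [map_zero]; exact zero_mem _
    | add x y _ _ hx hy => rw [map_add]; exact add_mem hx hy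
    | smul c x _ hx => rw [map_smul]; exact Submodule.smul_mem _ _ hx
  · intro c hc x hx
    unfold KB at hx ⊢
    induction hx using Submodule.span_induction with
    | mem x hx =>
      obtain ⟨t, ht, g, hg, rfl⟩ := hx
      apply Submodule.subset_span
      refine ⟨t, ht, dg c g, P.GG_inv c hc g hg, ?_⟩
      apply md_ext
      intro j
      rw [dg_apply, bt_apply, bt_apply, map_sum]
      refine Finset.sum_congr rfl fun a' _ => ?_
      rw [rm_th, dg_apply]
    | zero => rw [map_zero]; exact zero_mem _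
    | add x y _ _ hx hy => rw [map_add]; exact add_mem hx hy
    | smul c x _ hx => rw [map_smul]; exact Submodule.smul_mem _ _ hx

theorem LL_adj_apply [DecidableEq N] (Θ : Md (HS H ι) (Fin m × Option (N × L))) (j : Fin m) (k l : N) :
    ContinuousLinearMap.adjoint (LL b m ρ q) Θ (j, (k, l))
      = ∑ p, rm b (ContinuousLinearMap.adjoint (qe ρ q p l)) (Θ (j, some (k, p)))
        - (if k = l then Θ (j, none) else 0) := by
  classical
  unfold LL
  rw [mt_adjoint]
  have e1 : (fun (b' : Fin m × (N × N)) (a : Fin m × Option (N × L)) =>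
      ContinuousLinearMap.adjoint (bd m (lcL b ρ q) a b'))
      = bd m (fun p w => ContinuousLinearMap.adjoint (lcL b ρ q w p)) := by
    funext b' a
    unfold bd
    by_cases h : a.1 = b'.1
    · rw [if_pos h, if_pos h.symm]
    · rw [if_neg h, if_neg (Ne.symm h), map_zero]
  rw [e1, mt_bd, Fintype.sum_option, Fintype.sum_prod_type, Finset.sum_eq_single k]
  · have e2 : ∀ p, ContinuousLinearMap.adjoint (lcL b ρ q (some (k, p)) (k, l)) (Θ (j, some (k, p)))
        = rm b (ContinuousLinearMap.adjoint (qe ρ q p l)) (Θ (j, some (k, p))) := by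
      intro p
      simp only [lcL]
      rw [if_pos trivial, rm_adj]
    rw [Finset.sum_congr rfl fun p _ => e2 p]
    simp only [lcL]
    by_cases h : k = l
    · rw [if_pos h, if_pos h, map_neg]
      have : ContinuousLinearMap.adjoint (1 : HS H ι →L[ℂ] HS H ι) = 1 := by
        rw [← ContinuousLinearMap.star_eq_adjoint, star_one]
      rw [this]
      change -(Θ (j, none)) + _ = _
      abel
    · rw [if_neg h, if_neg h, map_zero]
      change (0 : HS H ι) + _ = _
      rw [zero_add, sub_zero]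
  · intro k' _ hk'
    refine Finset.sum_eq_zero fun p _ => ?_
    simp only [lcL]
    rw [if_neg hk', map_zero]
    rfl
  · intro h; exact absurd (Finset.mem_univ _) h

theorem Pk.adjLL_inj (P : Pk M ξ ρ r q) {Θ : Md (HS H ι) (Fin m × Option (N × L))}
    (hΘ : ContinuousLinearMap.adjoint (LL b m ρ q) Θ = 0) (h0 : ∀ j, Θ (j, none) = 0) : Θ = 0 := by
  classical
  apply md_ext
  rintro ⟨j, w⟩
  rcases w with _ | ⟨k, p⟩
  · exact h0 j
  · rw [PiLp.zero_apply]
    apply op_inj b
    rw [op_zero]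
    have key : ∀ x, (WithLp.toLp 2 (fun p =>
        ContinuousLinearMap.adjoint (op b (Θ (j, some (k, p)))) x) : Md H L) = 0 := by
      intro x
      apply P.adj_inj
      apply md_ext
      intro l
      rw [pen_adj_apply]
      have h1 : ContinuousLinearMap.adjoint (LL b m ρ q) Θ (j, (k, l)) = 0 := by
        rw [hΘ]
        rfl
      rw [LL_adj_apply, h0, ite_self, sub_zero] at h1
      have h2 := congrArg (op b) h1
      rw [op_sum, op_zero] at h2
      simp only [op_rm, ContinuousLinearMap.adjoint_adjoint] at h2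
      refine ext_inner_right ℂ fun v => ?_
      change ⟪∑ p, ContinuousLinearMap.adjoint (qe ρ q p l)
        (ContinuousLinearMap.adjoint (op b (Θ (j, some (k, p)))) x), v⟫_ℂ = _
      have h3 : ⟪∑ p, ContinuousLinearMap.adjoint (qe ρ q p l)
          (ContinuousLinearMap.adjoint (op b (Θ (j, some (k, p)))) x), v⟫_ℂ
          = ⟪x, (∑ p, op b (Θ (j, some (k, p))) * qe ρ q p l) v⟫_ℂ := by
        rw [sum_inner, _root_.sum_apply, inner_sum]
        refine Finset.sum_congr rfl fun p _ => ?_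
        rw [ContinuousLinearMap.adjoint_inner_left, ContinuousLinearMap.adjoint_inner_left]
        rfl
      rw [h3, h2]
      simp
    have h3 : ContinuousLinearMap.adjoint (op b (Θ (j, some (k, p)))) = 0 := by
      apply ContinuousLinearMap.ext
      intro x
      exact congrArg (fun v : Md H L => v p) (key x)
    have h4 := congrArg ContinuousLinearMap.adjoint h3
    rwa [ContinuousLinearMap.adjoint_adjoint, map_zero] at h4

/-- the orthogonal complement of the image -/
theorem Pk.image_orth (P : Pk M ξ ρ r q) :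
    ((ten b (KW ρ r q))ᗮ.map ((ContinuousLinearMap.adjoint (LL b m ρ q) :
      Md (HS H ι) (Fin m × Option (N × L)) →L[ℂ] Md (HS H ι) (Fin m × (N × N))) :
      Md (HS H ι) (Fin m × Option (N × L)) →ₗ[ℂ] Md (HS H ι) (Fin m × (N × N))))ᗮ
      = ten b (KL ρ r q) := by
  ext η
  constructor
  · intro hη
    apply P.LL_conv b
    apply mem_orth_orth (ten_closed b KW_closed)
    intro Φ hΦ
    rw [← ContinuousLinearMap.adjoint_inner_left]
    exact hη _ ⟨Φ, hΦ, rfl⟩
  · rintro hη _ ⟨Φ, hΦ, rfl⟩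
    change ⟪ContinuousLinearMap.adjoint (LL b m ρ q) Φ, η⟫_ℂ = 0
    rw [ContinuousLinearMap.adjoint_inner_left, ← inner_conj_symm]
    have := hΦ _ (P.LL_mem b hη)
    rw [this, map_zero]

/-- the lower bound -/
theorem Pk.KB_dim (P : Pk M ξ ρ r q) {tW : Md H (Fin m × Option (N × L))} (htW : tW ∈ KW ρ r q)
    (hne : ∀ g ∈ GG ρ q, (∀ j, bet tW g j = 0) → g none = 0) :
    1 ≤ dm (th b ξ ξ) (KB b ρ r q) := by
  classical
  have hTV := AN_tv b P.tr
  obtain ⟨zW, hzW⟩ := P.KW_int
  obtain ⟨zL, hzL⟩ := P.KL_int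
  have hdW : dm (th b ξ ξ) (ten b (KW ρ r q)) = zW := by rw [dm_ten b P.tr.norm_one KW_closed, hzW]
  have hdL : dm (th b ξ ξ) (ten b (KL ρ r q)) = zL := by rw [dm_ten b P.tr.norm_one KL_closed, hzL]
  have hLin := P.LL_lin b
  have hLin' : Lin (AN b M) (ContinuousLinearMap.adjoint (LL b m ρ q)) := hLin.adjoint hTV
  have hcardW : (Fintype.card (Fin m × Option (N × L)) : ℝ)
      = Fintype.card (Fin m × (N × N)) + m := by
    rw [Fintype.card_prod, Fintype.card_prod, P.GD_card, Fintype.card_fin]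
    push_cast
    ring
  set 𝒢 : Submodule ℂ (Md (HS H ι) (Fin m × Option (N × L))) :=
    LinearMap.ker (ContinuousLinearMap.adjoint (LL b m ρ q) :
      Md (HS H ι) (Fin m × Option (N × L)) →ₗ[ℂ] Md (HS H ι) (Fin m × (N × N))) with h𝒢
  have h𝒢inv : Inv (AN b M) 𝒢 := Inv.ker hLin'
  have h𝒢cl : IsClosed (𝒢 : Set (Md (HS H ι) (Fin m × Option (N × L)))) :=
    (ContinuousLinearMap.adjoint (LL b m ρ q)).isClosed_ker
  have h𝒢dim : (m : ℝ) ≤ dm (th b ξ ξ) 𝒢 := by
    have := dm_ker_ge hTV hLin'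
    rw [hcardW] at this
    linarith
  let nnm : Fin m → Fin m × Option (N × L) → ℂ := fun k x => if (k, none) = x then (1 : ℂ) else 0
  have hnn : ∀ Θ : Md (HS H ι) (Fin m × Option (N × L)), sc nnm Θ = restr (fun j => (j, none)) Θ :=
    fun Θ => sc_restr _ Θ
  -- step 1
  let T : Md (HS H ι) (Fin m × Option (N × L)) →L[ℂ] Md (HS H ι) (Fin m) :=
    (PP (KB b ρ r q)).comp (sc nnm)
  have hT : Lin (AN b M) T := ((P.KB_inv b).PP hTV).comp (sc_lin _)
  have h1 := rank_nullity hTV hT h𝒢inv h𝒢cl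
  have h2 : dm (th b ξ ξ) (𝒢.map (T : Md (HS H ι) (Fin m × Option (N × L)) →ₗ[ℂ] Md (HS H ι) (Fin m)))
      ≤ dm (th b ξ ξ) (KB b ρ r q) := by
    rw [← dm_closure (KB b ρ r q)]
    apply dm_mono
    rintro _ ⟨Θ, _, rfl⟩
    exact PP_mem _ _
  have h3 : 𝒢 ⊓ LinearMap.ker (T : Md (HS H ι) (Fin m × Option (N × L)) →ₗ[ℂ] Md (HS H ι) (Fin m))
      ≤ (ten b (KW ρ r q))ᗮ ⊓ 𝒢 := by
    rintro Θ ⟨hΘ1, hΘ2⟩
    refine ⟨?_, hΘ1⟩
    have hΘ2' : PP (KB b ρ r q) (restr (fun j => (j, none)) Θ) = 0 := by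
      have : T Θ = 0 := hΘ2
      rw [← hnn]
      exact this
    have hΘ1' : ContinuousLinearMap.adjoint (LL b m ρ q) Θ = 0 := hΘ1
    apply ten_perp b KW_closed P.GG_dense
    rintro t ht _ ⟨g, hg, rfl⟩
    rw [tht_identity b t hg, ← ContinuousLinearMap.adjoint_inner_left, hΘ1', inner_zero_left,
      add_zero]
    have h4 := PP_inner (KB b ρ r q) (restr (fun j => (j, none)) Θ)
      (Submodule.le_topologicalClosure _ (Submodule.subset_span ⟨t, ht, g, hg, rfl⟩))
    rwa [hΘ2', sub_zero] at h4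
  have h4 := dm_mono (Ω := th b ξ ξ) h3
  -- step 2
  have h5 := rank_nullity hTV hLin' ((ten_inv b P.KW_inv).orth hTV)
    (Submodule.isClosed_orthogonal _)
  rw [← h𝒢, dm_orth hTV, hdW] at h5
  have h6 := dm_orth hTV ((ten b (KW ρ r q))ᗮ.map ((ContinuousLinearMap.adjoint (LL b m ρ q) :
      Md (HS H ι) (Fin m × Option (N × L)) →L[ℂ] Md (HS H ι) (Fin m × (N × N))) :
      Md (HS H ι) (Fin m × Option (N × L)) →ₗ[ℂ] Md (HS H ι) (Fin m × (N × N))))
  rw [P.image_orth b, hdL] at h6
  have h7 : (zW : ℝ) - zL ≤ dm (th b ξ ξ) (KB b ρ r q) := by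
    rw [hcardW] at h5
    linarith
  -- step 3
  have h8 := dm_map_inj hTV hLin (ten_inv b P.KL_inv) (ten_closed b KL_closed)
    (fun η _ h0 => P.LL_inj b h0)
  have h9 : (ten b (KL ρ r q)).map ((LL b m ρ q : Md (HS H ι) (Fin m × (N × N)) →L[ℂ]
      Md (HS H ι) (Fin m × Option (N × L))) : Md (HS H ι) (Fin m × (N × N)) →ₗ[ℂ]
      Md (HS H ι) (Fin m × Option (N × L))) ≤ ten b (KW ρ r q) := by
    rintro _ ⟨η, hη, rfl⟩
    exact P.LL_mem b hη
  have h10 := dm_mono (Ω := th b ξ ξ) h9
  rw [h8, hdL, hdW] at h10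
  have h11 : zL ≤ zW := by exact_mod_cast h10
  rcases h11.lt_or_eq with hlt | heq
  · have h12 : (1 : ℤ) ≤ zW - zL := by omega
    have h13 : (1 : ℝ) ≤ (zW : ℝ) - zL := by exact_mod_cast h12
    linarith
  · exfalso
    have h12 := dm_strict hTV ((ten_inv b P.KL_inv).map hLin) (ten_inv b P.KW_inv) h9 (by
      rw [h8, hdL, hdW, heq])
    have h13 : ∀ Θ ∈ 𝒢, ∀ Ψ ∈ ten b (KW ρ r q), ⟪Θ, Ψ⟫_ℂ = 0 := by
      intro Θ hΘ Ψ hΨ
      have hΘ' : ContinuousLinearMap.adjoint (LL b m ρ q) Θ = 0 := hΘ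
      have h14 : Ψ ∈ ((ten b (KL ρ r q)).map ((LL b m ρ q : Md (HS H ι) (Fin m × (N × N)) →L[ℂ]
          Md (HS H ι) (Fin m × Option (N × L))) : Md (HS H ι) (Fin m × (N × N)) →ₗ[ℂ]
          Md (HS H ι) (Fin m × Option (N × L)))).topologicalClosure := by
        rw [h12]
        exact Submodule.le_topologicalClosure _ hΨ
      have hcl : IsClosed {Ψ : Md (HS H ι) (Fin m × Option (N × L)) | ⟪Θ, Ψ⟫_ℂ = 0} :=
        isClosed_eq (by fun_prop) (by fun_prop)
      refine hcl.closure_subset_iff.2 ?_ h14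
      rintro _ ⟨η, _, rfl⟩
      change ⟪Θ, LL b m ρ q η⟫_ℂ = 0
      rw [← ContinuousLinearMap.adjoint_inner_left, hΘ', inner_zero_left]
    have h15 := dense_of_dm hTV (T := sc nnm) (sc_lin _) h𝒢inv h𝒢cl (by
      intro Θ hΘ h0
      apply P.adjLL_inj b hΘ
      intro j
      rw [hnn] at h0
      exact congrArg (fun v : Md (HS H ι) (Fin m) => v j) h0) (by
      rw [Fintype.card_fin]; exact h𝒢dim)
    have h16 : ∀ g ∈ GG ρ q, g none = 0 := by
      intro g hg
      apply hne g hg
      have h17 : bt b tW g = 0 := by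
        have hcl : IsClosed {v : Md (HS H ι) (Fin m) | ⟪v, bt b tW g⟫_ℂ = 0} :=
          isClosed_eq (by fun_prop) (by fun_prop)
        have h18 : ∀ v : Md (HS H ι) (Fin m), ⟪v, bt b tW g⟫_ℂ = 0 := by
          intro v
          have hv : v ∈ (𝒢.map ((sc nnm : Md (HS H ι) (Fin m × Option (N × L)) →L[ℂ]
              Md (HS H ι) (Fin m)) : Md (HS H ι) (Fin m × Option (N × L)) →ₗ[ℂ]
              Md (HS H ι) (Fin m))).topologicalClosure := by
            rw [h15]; exact Submodule.mem_top
          refine hcl.closure_subset_iff.2 ?_ hv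
          rintro _ ⟨Θ, hΘ, rfl⟩
          change ⟪sc nnm Θ, bt b tW g⟫_ℂ = 0
          rw [hnn]
          have h19 := h13 Θ hΘ _ (tht_mem b htW (g none))
          have hΘ' : ContinuousLinearMap.adjoint (LL b m ρ q) Θ = 0 := hΘ
          rw [tht_identity b tW hg, ← ContinuousLinearMap.adjoint_inner_left, hΘ', inner_zero_left,
            add_zero] at h19
          exact h19
        exact inner_self_eq_zero.1 (h18 _)
      intro j
      rw [← op_bt b, h17]
      exact op_zero b
    have h20 : ξ = 0 := by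
      have h21 := P.GG_dense ξ
      have h22 : {v : H | ∃ g ∈ GG ρ q, g none = v} ⊆ {0} := by
        rintro _ ⟨g, hg, rfl⟩
        exact h16 g hg
      have h23 := closure_mono h22 h21
      rwa [closure_singleton] at h23
    have h24 := P.tr.norm_one
    rw [h20, norm_zero] at h24
    exact zero_ne_one h24

end Pool.Agent.Y325.DD
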